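import Mathlib

/-!
Every regular uncountable cardinal carries a complete filter extending the club filter that fails
the Galvin property: split the cardinal into many disjoint stationary sets and glue them along the
graphs of eventually different functions.
-/

namespace Pool.Agent.H57Z.Galvin

open Cardinal Order Set

universe u

variable {K : Type u} [LinearOrder K] [WellFoundedLT K]

/-- `S` contains a nonzero closure point of every function. -/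
def Stat (S : Set K) : Prop :=
  ∀ G : K → K, ∃ δ ∈ S, (∃ y, y < δ) ∧ ∀ ξ < δ, G ξ < δ

structure Reg (K : Type u) [LinearOrder K] [WellFoundedLT K] : Prop where
  unc : ℵ₀ < Order.cof K
  iic : ∀ k : K, #(Iic k) < Order.cof K
  card : #K = Order.cof K

theorem Reg.bdd (_h : Reg K) {s : Set K} (hs : #s < Order.cof K) : ∃ b, ∀ k ∈ s, k < b := by
  have : ¬ IsCofinal s := fun hc => (cof_le hc).not_gt hs
  obtain ⟨b, hb⟩ := not_isCofinal_iff.1 this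
  exact ⟨b, hb⟩

theorem Reg.nonempty (h : Reg K) : Nonempty K := by
  rw [← Cardinal.mk_ne_zero_iff, h.card]
  exact (aleph0_pos.trans h.unc).ne'

theorem Reg.exists_gt (h : Reg K) (a : K) : ∃ b, a < b := by
  obtain ⟨b, hb⟩ := h.bdd (s := {a}) (by
    rw [Cardinal.mk_singleton]; exact one_lt_aleph0.trans h.unc)
  exact ⟨b, hb a rfl⟩

theorem Reg.bdd_nat (h : Reg K) (g : ℕ → K) : ∃ b, ∀ n, g n < b := by
  obtain ⟨b, hb⟩ := h.bdd (s := range g) (by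
    refine lt_of_le_of_lt ?_ h.unc
    exact Cardinal.le_aleph0_iff_set_countable.2 (countable_range g))
  exact ⟨b, fun n => hb _ ⟨n, rfl⟩⟩

theorem Stat.meets (h : Reg K) {S C : Set K} (hS : Stat S) (hC : IsClub C) : (S ∩ C).Nonempty := by
  have h1 : ∀ ξ : K, ∃ c ∈ C, ξ < c := by
    intro ξ
    obtain ⟨b, hb⟩ := h.exists_gt ξ
    obtain ⟨c, hc, hbc⟩ := hC.isCofinal b
    exact ⟨c, hc, hb.trans_le hbc⟩
  choose G hG1 hG2 using h1
  obtain ⟨δ, hδ, ⟨y, hy⟩, hcl⟩ := hS G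
  refine ⟨δ, hδ, ?_⟩
  apply hC.isLUB_mem (t := G '' Iio δ)
  · rintro _ ⟨ξ, -, rfl⟩; exact hG1 ξ
  · exact ⟨G y, y, hy, rfl⟩
  · constructor
    · rintro _ ⟨ξ, hξ, rfl⟩; exact (hcl ξ hξ).le
    · intro b hb
      by_contra hlt
      push Not at hlt
      exact absurd (hb ⟨b, hlt, rfl⟩) (not_le.2 (hG2 b))

theorem fodor (h : Reg K) {S : Set K} (f : K → K) (hf : ∀ δ ∈ S, f δ < δ) (hS : Stat S) :
    ∃ i, Stat {δ | δ ∈ S ∧ f δ = i} := by
  by_contra hcon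
  push Not at hcon
  have h1 : ∀ i, ∃ G : K → K, ∀ δ ∈ S, f δ = i → ¬ (∀ ξ < δ, G ξ < δ) := by
    intro i
    have := hcon i
    unfold Stat at this
    push Not at this
    obtain ⟨G, hG⟩ := this
    refine ⟨G, fun δ hδ hi hcl => ?_⟩
    obtain ⟨ξ, hξ, hle⟩ := hG δ ⟨hδ, hi⟩ ⟨f δ, hf δ hδ⟩
    exact absurd (hcl ξ hξ) (not_lt.2 hle)
  choose G hG using h1
  have h2 : ∀ ξ, ∃ b, ∀ k ∈ (fun p : K × K => G p.1 p.2) '' (Iic ξ ×ˢ Iic ξ), k < b := by
    intro ξ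
    apply h.bdd
    refine Cardinal.mk_image_le.trans_lt ?_
    rw [Cardinal.mk_setProd]
    exact Cardinal.mul_lt_of_lt h.unc.le (h.iic ξ) (h.iic ξ)
  choose b hb using h2
  obtain ⟨δ, hδ, -, hFC⟩ := hS b
  apply hG (f δ) δ hδ rfl
  intro ξ hξ
  have hm : max (f δ) ξ < δ := max_lt (hf δ hδ) hξ
  refine (hb (max (f δ) ξ) _ ?_).trans (hFC _ hm)
  exact ⟨(f δ, ξ), ⟨le_max_left _ _, le_max_right _ _⟩, rfl⟩

/-- Points of countable cofinality. -/
def E (K : Type u) [LinearOrder K] : Set K :=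
  {x | ∃ a : ℕ → K, (∀ n, a n < x) ∧ ∀ y < x, ∃ n, y < a n}

theorem stat_E (h : Reg K) : Stat (E K) := by
  intro G
  have h2 : ∀ ξ : K, ∃ b, ξ < b ∧ ∀ k ≤ ξ, G k < b := by
    intro ξ
    obtain ⟨b, hb⟩ := h.bdd (s := G '' Iic ξ) (Cardinal.mk_image_le.trans_lt (h.iic ξ))
    obtain ⟨c, hc⟩ := h.exists_gt ξ
    exact ⟨max b c, lt_max_of_lt_right hc, fun k hk => lt_max_of_lt_left (hb _ ⟨k, hk, rfl⟩)⟩
  choose nx hnx1 hnx2 using h2
  obtain ⟨x0⟩ := h.nonempty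
  let a : ℕ → K := fun n => nx^[n] x0
  have ha : ∀ n, a (n + 1) = nx (a n) := fun n => Function.iterate_succ_apply' _ _ _
  obtain ⟨b, hb⟩ := h.bdd_nat a
  have hne : ({z : K | ∀ n, a n < z}).Nonempty := ⟨b, hb⟩
  let δ := wellFounded_lt.min _ hne
  have hδ : ∀ n, a n < δ := wellFounded_lt.min_mem _ hne
  have hmin : ∀ y < δ, ∃ n, y < a n := by
    intro y hy
    by_contra hcon
    push Not at hcon
    have : ∀ n, a n < y := fun n => (hnx1 (a n)).trans_le (ha n ▸ hcon (n + 1))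
    exact wellFounded_lt.not_lt_min _ (show y ∈ {z : K | ∀ n, a n < z} from this) hy
  refine ⟨δ, ⟨a, hδ, hmin⟩, ⟨a 0, hδ 0⟩, fun ξ hξ => ?_⟩
  obtain ⟨n, hn⟩ := hmin ξ hξ
  exact (hnx2 (a n) ξ hn.le).trans (ha n ▸ hδ (n + 1))

/-- Splitting: as many pairwise disjoint stationary sets as there are points. -/
theorem split (h : Reg K) :
    ∃ S : K × K → Set K, (∀ p, Stat (S p)) ∧ ∀ p q x, x ∈ S p → x ∈ S q → p = q := by
  classical
  obtain ⟨x0⟩ := h.nonempty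
  have h0 : ∀ x : K, ∃ a : ℕ → K, x ∈ E K → (∀ n, a n < x) ∧ ∀ y < x, ∃ n, y < a n := by
    intro x
    by_cases hx : x ∈ E K
    · obtain ⟨a, ha⟩ := hx
      exact ⟨a, fun _ => ha⟩
    · exact ⟨fun _ => x0, fun h' => absurd h' hx⟩
  choose a ha using h0
  have h1 : ∃ n, ∀ η, Stat {x | x ∈ E K ∧ η ≤ a x n} := by
    by_contra hcon
    push Not at hcon
    have h2 : ∀ n, ∃ η : K, ∃ G : K → K, ∀ δ ∈ E K, η ≤ a δ n → ¬ (∀ ξ < δ, G ξ < δ) := by
      intro n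
      obtain ⟨η, hη⟩ := hcon n
      unfold Stat at hη
      push Not at hη
      obtain ⟨G, hG⟩ := hη
      refine ⟨η, G, fun δ hδ hi hcl => ?_⟩
      obtain ⟨ξ, hξ, hle⟩ := hG δ ⟨hδ, hi⟩ ⟨a δ 0, (ha δ hδ).1 0⟩
      exact absurd (hcl ξ hξ) (not_lt.2 hle)
    choose η G hG using h2
    obtain ⟨b, hb⟩ := h.bdd_nat η
    have h3 : ∀ ξ, ∃ c, ∀ n, G n ξ < c := fun ξ => h.bdd_nat (fun n => G n ξ)
    choose c hc using h3
    obtain ⟨δ, hδ, ⟨y, hy⟩, hcl⟩ := stat_E h (fun ξ => max b (c ξ))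
    have hbδ : b < δ := (le_max_left _ _).trans_lt (hcl y hy)
    obtain ⟨n, hn⟩ := (ha δ hδ).2 b hbδ
    apply hG n δ hδ ((hb n).trans hn).le
    intro ξ hξ
    exact (hc ξ n).trans ((le_max_right _ _).trans_lt (hcl ξ hξ))
  obtain ⟨n, hn⟩ := h1
  let Γ : Set K := {γ | Stat {x | x ∈ E K ∧ a x n = γ}}
  have hΓ : IsCofinal Γ := by
    intro η
    obtain ⟨i, hi⟩ := fodor h (fun x => a x n) (fun δ hδ => (ha δ hδ.1).1 n) (hn η)
    obtain ⟨δ, hδ, -⟩ := hi id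
    refine ⟨i, ?_, hδ.2 ▸ hδ.1.2⟩
    intro G
    obtain ⟨δ', hδ', hr⟩ := hi G
    exact ⟨δ', ⟨hδ'.1.1, hδ'.2⟩, hr⟩
  have hcard : #(K × K) ≤ #Γ := by
    refine le_trans ?_ (cof_le hΓ)
    simp only [mk_prod, Cardinal.lift_id]
    rw [h.card, Cardinal.mul_eq_self h.unc.le]
  obtain ⟨e⟩ := hcard
  refine ⟨fun p => {x | x ∈ E K ∧ a x n = (e p : K)}, fun p => (e p).2, ?_⟩
  intro p q x hp hq
  apply e.injective
  apply Subtype.ext
  rw [← hp.2, ← hq.2]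

/-- Eventually different functions. -/
def ED (f g : K → K) : Prop := ∃ b, ∀ x, b ≤ x → f x ≠ g x

theorem exists_family (h : Reg K) :
    ∃ M : Set (K → K), M.Pairwise ED ∧ Order.cof K < #M := by
  classical
  obtain ⟨M, hM⟩ := zorn_subset {M : Set (K → K) | M.Pairwise ED} (by
    intro c hc hchain
    refine ⟨⋃₀ c, ?_, fun s hs => subset_sUnion_of_mem hs⟩
    rintro f ⟨s, hs, hfs⟩ g ⟨t, ht, hgt⟩ hfg
    rcases hchain.total hs ht with hst | hts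
    · exact hc ht (hst hfs) hgt hfg
    · exact hc hs hfs (hts hgt) hfg)
  refine ⟨M, hM.prop, ?_⟩
  by_contra hcon
  push Not at hcon
  rw [← h.card] at hcon
  obtain ⟨e⟩ := hcon
  have h1 : ∀ x : K, ∃ b, ∀ k ∈ (fun m : M => (m : K → K) x) '' {m | e m ≤ x}, k < b := by
    intro x
    apply h.bdd
    refine Cardinal.mk_image_le.trans_lt (lt_of_le_of_lt ?_ (h.iic x))
    exact Cardinal.mk_le_of_injective (f := fun m : {m : M | e m ≤ x} => (⟨e m, m.2⟩ : Iic x))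
      (fun m m' hmm => Subtype.ext (e.injective (congrArg Subtype.val hmm)))
  choose g hg using h1
  have h2 : ∀ m ∈ M, ∃ b, ∀ x, b ≤ x → m x < g x := by
    intro m hm
    exact ⟨e ⟨m, hm⟩, fun x hx => hg x _ ⟨⟨m, hm⟩, hx, rfl⟩⟩
  have hgM : g ∉ M := by
    intro hgm
    obtain ⟨b, hb⟩ := h2 g hgm
    exact lt_irrefl _ (hb b le_rfl)
  have hins : (insert g M).Pairwise ED := by
    rintro f (rfl | hf) f' (rfl | hf') hne
    · exact absurd rfl hne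
    · obtain ⟨b, hb⟩ := h2 f' hf'
      exact ⟨b, fun x hx => (hb x hx).ne'⟩
    · obtain ⟨b, hb⟩ := h2 f hf
      exact ⟨b, fun x hx => (hb x hx).ne⟩
    · exact hM.prop hf hf' hne
  exact hgM (hM.le_of_ge hins (subset_insert _ _) (mem_insert _ _))

theorem main (h : Reg K) (hreg : (Order.cof K).IsRegular) {ι : Type u} (hι : #ι = succ (Order.cof K)) :
    ∃ F : Filter K, F.NeBot ∧ CardinalInterFilter F (Order.cof K) ∧ (∀ C, IsClub C → C ∈ F) ∧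
      ∃ A : ι → Set K, (∀ i, A i ∈ F) ∧ ∀ I : Set ι, #I = Order.cof K → (⋂ i ∈ I, A i) ∉ F := by
  classical
  obtain ⟨S, hS, hdis⟩ := split h
  obtain ⟨M, hM, hMc⟩ := exists_family h
  have hle : #ι ≤ #M := hι ▸ succ_le_of_lt hMc
  obtain ⟨e⟩ := hle
  let f : ι → K → K := fun i => (e i : K → K)
  have hf : ∀ i j, i ≠ j → ED (f i) (f j) := fun i j hij =>
    hM (e i).2 (e j).2 (fun hh => hij (e.injective (Subtype.ext hh)))
  let A : ι → Set K := fun i => {ξ | ∀ x, ξ ∉ S (x, f i x)}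
  have key : ∀ (C : Set K) (J : Set ι) (j : ι), IsClub C → #J < Order.cof K → j ∉ J →
      ∃ ξ ∈ C, (∀ i ∈ J, ξ ∈ A i) ∧ ξ ∉ A j := by
    intro C J j hC hJ hj
    have h1 : ∀ i : J, ∃ b, ∀ x, b ≤ x → f i x ≠ f j x := fun i =>
      hf i j (fun hh => hj (hh ▸ i.2))
    choose b hb using h1
    obtain ⟨c, hc⟩ := h.bdd (s := range b) (mk_range_le.trans_lt hJ)
    obtain ⟨ξ, hξS, hξC⟩ := (hS (c, f j c)).meets h hC
    refine ⟨ξ, hξC, fun i hi x hx => ?_, fun hA => hA c hξS⟩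
    have := hdis _ _ _ hξS hx
    simp only [Prod.mk.injEq] at this
    obtain ⟨rfl, h2⟩ := this
    exact hb ⟨i, hi⟩ c (hc _ ⟨⟨i, hi⟩, rfl⟩).le h2.symm
  have h2 : (2 : Cardinal.{u}) < Order.cof K := (natCast_lt_aleph0 (n := 2)).trans h.unc
  let l : Set (Set K) := {T | ∃ (C : Set K) (J : Set ι), IsClub C ∧ #J < Order.cof K ∧
    ∀ ξ ∈ C, (∀ i ∈ J, ξ ∈ A i) → ξ ∈ T}
  have hl : ∀ T : Set (Set K), #T < Order.cof K → T ⊆ l → ⋂₀ T ∈ l := by
    intro T hT hTl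
    choose C J hC hJ hCJ using fun t : T => hTl t.2
    refine ⟨⋂ t, C t, ⋃ t, J t, IsClub.iInter h.unc.ne' (by simpa using hT) hC, ?_, ?_⟩
    · exact (Cardinal.card_iUnion_lt_iff_forall_of_isRegular hreg hT).2 hJ
    · intro ξ hξ hA t ht
      exact hCJ ⟨t, ht⟩ ξ (mem_iInter.1 hξ _) (fun i hi => hA i (mem_iUnion.2 ⟨_, hi⟩))
  have hmono : ∀ s t : Set K, s ∈ l → s ⊆ t → t ∈ l := by
    rintro s t ⟨C, J, hC, hJ, hCJ⟩ hst
    exact ⟨C, J, hC, hJ, fun ξ h1 h2 => hst (hCJ ξ h1 h2)⟩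
  have hex : ∀ J I : Set ι, #J < #I → ∃ j ∈ I, j ∉ J := by
    intro J I hJI
    by_contra hcon
    push Not at hcon
    exact absurd (Cardinal.mk_le_mk_of_subset (show I ⊆ J from hcon)) (not_le.2 hJI)
  refine ⟨Filter.ofCardinalInter l h2 hl hmono, ?_, inferInstance, ?_, A, ?_, ?_⟩
  · rw [← Filter.forall_mem_nonempty_iff_neBot]
    rintro s ⟨C, J, hC, hJ, hCJ⟩
    obtain ⟨j, -, hj⟩ := hex J univ (by
      rw [Cardinal.mk_univ, hι]; exact hJ.trans (lt_succ _))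
    obtain ⟨ξ, h1, h3, -⟩ := key C J j hC hJ hj
    exact ⟨ξ, hCJ ξ h1 h3⟩
  · intro C hC
    exact ⟨C, ∅, hC, by simpa using (aleph0_pos.trans h.unc), fun ξ hξ _ => hξ⟩
  · intro i
    exact ⟨univ, {i}, IsClub.univ, by
      rw [Cardinal.mk_singleton]; exact one_lt_aleph0.trans h.unc, fun ξ _ hA => hA i rfl⟩
  · rintro I hI ⟨C, J, hC, hJ, hCJ⟩
    obtain ⟨j, hjI, hj⟩ := hex J I (hI ▸ hJ)
    obtain ⟨ξ, h1, h3, h4⟩ := key C J j hC hJ hj
    exact h4 (mem_iInter₂.1 (hCJ ξ h1 h3) j hjI)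

theorem main_cardinal (κ : Cardinal.{u}) (hreg : κ.IsRegular) (hunc : ℵ₀ < κ) :
    ∃ F : Filter κ.ord.ToType, F.NeBot ∧ CardinalInterFilter F κ ∧ (∀ C, IsClub C → C ∈ F) ∧
      ∃ A : (succ κ).ord.ToType → Set κ.ord.ToType, (∀ i, A i ∈ F) ∧
        ∀ I : Set (succ κ).ord.ToType, #I = κ → (⋂ i ∈ I, A i) ∉ F := by
  have hcof : Order.cof κ.ord.ToType = κ := by
    rw [Ordinal.cof_toType, hreg.cof_ord]
  have h : Reg κ.ord.ToType := by
    refine ⟨hcof.symm ▸ hunc, fun k => ?_, by rw [hcof, mk_ord_toType]⟩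
    rw [hcof, ← Iio_union_right]
    refine (Cardinal.mk_union_le _ _).trans_lt ?_
    apply Cardinal.add_lt_of_lt hunc.le (mk_Iio_toType_ord_lt k)
    rw [Cardinal.mk_singleton]
    exact one_lt_aleph0.trans hunc
  have := main h (hcof.symm ▸ hreg) (ι := (succ κ).ord.ToType) (by rw [hcof, mk_ord_toType])
  rwa [hcof] at this

end Pool.Agent.H57Z.Galvin
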