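import Pool.Agent.H57Z.NonrepGadget

namespace Pool.Agent.H57Z.Nonrep

open Sum

variable {n : ℕ → ℕ}

def NonrepL {V C : Type} (Γ : SimpleGraph V) (φ : V → C) : Prop :=
  ∀ l₁ l₂ : List V, l₁ ≠ [] → (l₁ ++ l₂).Nodup → (l₁ ++ l₂).IsChain Γ.Adj →
    l₁.map φ ≠ l₂.map φ

theorem Nonrepetitive.toL {V C : Type} {Γ : SimpleGraph V} {φ : V → C}
    (h : Nonrepetitive Γ φ) : NonrepL Γ φ := by
  intro l₁ l₂ hne hnd hch heq
  have hlen : l₁.length = l₂.length := by simpa using congrArg List.length heq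
  have hne' : l₁ ++ l₂ ≠ [] := by simp [hne]
  have hs := SimpleGraph.Walk.support_ofSupport hne' hch
  apply h _ _ (SimpleGraph.Walk.ofSupport _ hne' hch) (by
    rw [SimpleGraph.Walk.isPath_def, hs]; exact hnd) l₁.length
  · rw [hs, List.length_append, ← hlen]; ring
  · rw [hs]
    simpa using heq

theorem NonrepL.emb {C : Type} {j : ℕ} {φ : Full n (j + 1) → C} (h : NonrepL (G n (j + 1)) φ)
    (e : Arc (n j)) : NonrepL (G n j) (φ ∘ emb e) := by
  intro l₁ l₂ hne hnd hch heq
  apply h (l₁.map (Nonrep.emb e)) (l₂.map (Nonrep.emb e)) (by simpa using hne)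
  · rw [← List.map_append]
    exact hnd.map (emb_injective e)
  · rw [← List.map_append]
    exact List.isChain_map_of_isChain (Nonrep.emb e) (fun a b => emb_adj e) hch
  · simpa [List.map_map] using heq

def Route (n : ℕ → ℕ) (j : ℕ) (r : List (Vx n j)) : Prop :=
  r.Nodup ∧ r.length + 1 = 3 ^ j ∧
    (inl false :: (r.map inr ++ [inl true]) : List (Full n j)).IsChain (G n j).Adj

def lift {j : ℕ} (e : Arc (n j)) (r : List (Vx n j)) : List (Full n (j + 1)) :=
  r.map (fun x => inr (vI e x))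

theorem Route.chain {j : ℕ} {r : List (Vx n j)} (h : Route n j r) (e : Arc (n j)) :
    (src e :: (lift e r ++ [tgt e])).IsChain (G n (j + 1)).Adj := by
  have := List.isChain_map_of_isChain (emb e) (fun a b => emb_adj e) h.2.2
  simpa [lift, emb, List.map_map, Function.comp_def] using this

theorem Route.chain_rev {j : ℕ} {r : List (Vx n j)} (h : Route n j r) (e : Arc (n j)) :
    (tgt e :: ((lift e r).reverse ++ [src e])).IsChain (G n (j + 1)).Adj := by
  have h1 := h.chain e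
  have h2 : (src e :: (lift e r ++ [tgt e])).reverse.IsChain (G n (j + 1)).Adj := by
    rw [List.isChain_reverse]
    exact h1.imp (fun a b hab => hab.symm)
  simpa using h2

theorem lift_nodup {j : ℕ} {r : List (Vx n j)} (h : r.Nodup) (e : Arc (n j)) :
    (lift e r).Nodup :=
  h.map (fun x y hxy => by simpa using hxy)

theorem mem_lift {j : ℕ} {r : List (Vx n j)} {e : Arc (n j)} {z : Full n (j + 1)} :
    z ∈ lift e r ↔ ∃ x ∈ r, z = inr (vI e x) := by
  simp [lift, eq_comm]

theorem lift_map {C : Type} {j : ℕ} (φ : Full n (j + 1) → C) (e : Arc (n j)) (r : List (Vx n j)) :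
    (lift e r).map φ = r.map ((φ ∘ emb e) ∘ inr) := by
  simp [lift, List.map_map, Function.comp_def, emb]

theorem chain_glue {α : Type} {R : α → α → Prop} {a b : α} {l l' : List α}
    (h1 : (a :: (l ++ [b])).IsChain R) (h2 : (b :: l').IsChain R) :
    (a :: (l ++ b :: l')).IsChain R := by
  rw [List.isChain_cons_split]
  exact ⟨h1, h2⟩

theorem no_zigzag {C : Type} {j : ℕ} {φ : Full n (j + 1) → C} (h : NonrepL (G n (j + 1)) φ)
    {a1 a2 a3 b1 b2 : Fin (n j)} (h12 : a1 ≠ a2) (h32 : a3 ≠ a2) (hb : b1 ≠ b2)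
    {r1 r2 r3 r4 : List (Vx n j)} (hr1 : Route n j r1) (hr2 : Route n j r2) (hr3 : Route n j r3)
    (hr4 : Route n j r4) (ca : φ (inr (vA a1)) = φ (inr (vA a2)))
    (cb : φ (inr (vB b1)) = φ (inr (vB b2)))
    (c13 : (lift (inr (inl (a1, b1))) r1).map φ = (lift (inr (inl (a2, b2))) r3).map φ)
    (c24 : (lift (inr (inl (a2, b1))) r2).map φ = (lift (inr (inl (a3, b2))) r4).map φ) :
    False := by
  apply h (inr (vA a1) :: (lift (inr (inl (a1, b1))) r1 ++
      inr (vB b1) :: (lift (inr (inl (a2, b1))) r2).reverse))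
    (inr (vA a2) :: (lift (inr (inl (a2, b2))) r3 ++
      inr (vB b2) :: (lift (inr (inl (a3, b2))) r4).reverse)) (by simp)
  · have n1 := lift_nodup hr1.1 (inr (inl (a1, b1)))
    have n2 := lift_nodup hr2.1 (inr (inl (a2, b1)))
    have n3 := lift_nodup hr3.1 (inr (inl (a2, b2)))
    have n4 := lift_nodup hr4.1 (inr (inl (a3, b2)))
    simp [List.nodup_append, mem_lift, n1, n2, n3, n4, or_imp, forall_and, h12, hb]
    refine ⟨⟨⟨?_, ?_⟩, ?_, ?_, ?_, ?_⟩, ?_, ?_, ?_, ?_, ?_, ?_⟩ <;> intros <;> subst_vars <;>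
      simp [h12, h32.symm, hb]
  · have c1 := hr1.chain (inr (inl (a1, b1)))
    have c2 := hr2.chain_rev (inr (inl (a2, b1)))
    have c3 := hr3.chain (inr (inl (a2, b2)))
    have c4 := hr4.chain_rev (inr (inl (a3, b2)))
    simp only [src, tgt] at c1 c2 c3 c4
    have c4' : (inr (vB b2) :: (lift (inr (inl (a3, b2))) r4).reverse).IsChain
        (G n (j + 1)).Adj := List.IsChain.left_of_append (l₂ := [inr (vA a3)]) (by simpa using c4)
    have := chain_glue c1 (chain_glue c2 (chain_glue c3 c4'))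
    simpa using this
  · simp [ca, cb, c13, c24, List.map_reverse]

theorem card_le_two_mul {m : ℕ} (E : Finset (Fin m × Fin m))
    (hE : ∀ a1 a2 a3 b1 b2, a1 ≠ a2 → a3 ≠ a2 → b1 ≠ b2 → (a1, b1) ∈ E → (a2, b1) ∈ E →
      (a2, b2) ∈ E → (a3, b2) ∈ E → False) : E.card ≤ 2 * m := by
  classical
  rw [← Finset.card_filter_add_card_filter_not (s := E) (fun p => ∃ a, a ≠ p.1 ∧ (a, p.2) ∈ E)]
  have h1 : (E.filter (fun p => ∃ a, a ≠ p.1 ∧ (a, p.2) ∈ E)).card ≤ (Finset.univ : Finset (Fin m)).card := by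
    refine Finset.card_le_card_of_injOn Prod.fst (fun _ _ => by simp) ?_
    rintro ⟨a, b⟩ hp ⟨a', b'⟩ hq (rfl : a = a')
    simp only [Finset.coe_filter, Set.mem_setOf_eq] at hp hq
    obtain ⟨hp1, a1, ha1, hp2⟩ := hp
    obtain ⟨hq1, a3, ha3, hq2⟩ := hq
    by_contra hne
    exact hE a1 a a3 b b' ha1 ha3 (fun h => hne (by rw [h])) hp2 hp1 hq1 hq2
  have h2 : (E.filter (fun p => ¬ ∃ a, a ≠ p.1 ∧ (a, p.2) ∈ E)).card ≤ (Finset.univ : Finset (Fin m)).card := by
    refine Finset.card_le_card_of_injOn Prod.snd (fun _ _ => by simp) ?_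
    rintro ⟨a, b⟩ hp ⟨a', b'⟩ hq (rfl : b = b')
    simp only [Finset.coe_filter, Set.mem_setOf_eq] at hp hq
    by_contra hne
    exact hq.2 ⟨a, fun h => hne (by rw [h]), hp.1⟩
  simp only [Finset.card_univ, Fintype.card_fin] at h1 h2
  omega

theorem route_succ {j : ℕ} {a b : Fin (n j)} {r1 r2 r3 : List (Vx n j)} (h1 : Route n j r1)
    (h2 : Route n j r2) (h3 : Route n j r3) :
    Route n (j + 1) (r1.map (vI (inl a)) ++ vA a :: (r2.map (vI (inr (inl (a, b)))) ++
      vB b :: r3.map (vI (inr (inr b))))) := by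
  refine ⟨?_, ?_, ?_⟩
  · have n1 : (r1.map (vI (inl a))).Nodup := h1.1.map (fun x y hxy => by simpa using hxy)
    have n2 : (r2.map (vI (inr (inl (a, b))))).Nodup := h2.1.map (fun x y hxy => by simpa using hxy)
    have n3 : (r3.map (vI (inr (inr b)))).Nodup := h3.1.map (fun x y hxy => by simpa using hxy)
    simp [List.nodup_append, n1, n2, n3, or_imp, forall_and]
  · have := h1.2.1
    have := h2.2.1
    have := h3.2.1
    simp only [List.length_append, List.length_map, List.length_cons, pow_succ]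
    omega
  · have c1 := h1.chain (inl a)
    have c2 := h2.chain (inr (inl (a, b)))
    have c3 := h3.chain (inr (inr b))
    simp only [src, tgt] at c1 c2 c3
    have := chain_glue c1 (chain_glue c2 c3)
    simpa [lift, List.map_map, Function.comp_def] using this

theorem count {C : Type} (s : ℕ → ℕ) (hs0 : s 0 = 1) (hn : ∀ j, 0 < n j)
    (hs : ∀ j, 2 * s (j + 1) ≤ n j * s j ^ 3) :
    ∀ (j : ℕ) (φ : Full n j → C), NonrepL (G n j) φ →
      ∃ S : Finset (List C), s j ≤ S.card ∧ ∀ σ ∈ S, ∃ r, Route n j r ∧ σ = r.map (φ ∘ inr) := by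
  classical
  intro j
  induction j with
  | zero =>
    intro φ _
    refine ⟨{[]}, by simp [hs0], ?_⟩
    intro σ hσ
    refine ⟨[], ⟨List.nodup_nil, by simp, ?_⟩, by simpa using hσ⟩
    simp only [List.map_nil, List.nil_append, List.isChain_cons_cons, List.IsChain.singleton,
      and_true]
    exact Or.inl ⟨rfl, rfl⟩
  | succ j ih =>
    intro φ hφ
    choose S hS1 hS2 using fun e : Arc (n j) => ih (φ ∘ emb e) (hφ.emb e)
    have hlen : ∀ e, ∀ σ ∈ S e, σ.length + 1 = 3 ^ j := by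
      intro e σ hσ
      obtain ⟨r, hr, rfl⟩ := hS2 e σ hσ
      simpa using hr.2.1
    let T : Fin (n j) × Fin (n j) → Finset (C × List C × C) := fun p =>
      (S (inr (inl p))).image (fun σ => (φ (inr (vA p.1)), σ, φ (inr (vB p.2))))
    have hT : ∀ p τ, τ ∈ T p ↔
        τ.1 = φ (inr (vA p.1)) ∧ τ.2.1 ∈ S (inr (inl p)) ∧ τ.2.2 = φ (inr (vB p.2)) := by
      rintro p ⟨x, σ, y⟩
      simp only [T, Finset.mem_image, Prod.mk.injEq]
      constructor
      · rintro ⟨σ', h, rfl, rfl, rfl⟩; exact ⟨rfl, h, rfl⟩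
      · rintro ⟨rfl, h, rfl⟩; exact ⟨σ, h, rfl, rfl, rfl⟩
    let U : Finset (C × List C × C) := Finset.univ.biUnion T
    have hU : (n j * n j) * s j ≤ U.card * (2 * n j) := by
      have := Finset.card_mul_le_card_mul (s := (Finset.univ : Finset (Fin (n j) × Fin (n j))))
        (t := U) (m := s j) (n := 2 * n j) (fun p τ => τ ∈ T p) ?_ ?_
      · simpa using this
      · intro p _
        refine (hS1 (inr (inl p))).trans ?_
        refine Finset.card_le_card_of_injOn
          (fun σ => (φ (inr (vA p.1)), σ, φ (inr (vB p.2)))) ?_ ?_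
        · intro σ hσ
          have : (φ (inr (vA p.1)), σ, φ (inr (vB p.2))) ∈ T p := (hT _ _).2 ⟨rfl, hσ, rfl⟩
          simp only [Finset.coe_bipartiteAbove, Set.mem_setOf_eq]
          exact ⟨Finset.mem_biUnion.2 ⟨p, Finset.mem_univ _, this⟩, this⟩
        · intro σ _ σ' _ h
          simpa using h
      · intro τ _
        apply card_le_two_mul
        intro a1 a2 a3 b1 b2 h12 h32 hb m1 m2 m3 m4
        simp only [Finset.mem_bipartiteBelow, Finset.mem_univ, true_and, hT] at m1 m2 m3 m4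
        obtain ⟨r1, hr1, e1⟩ := hS2 _ _ m1.2.1
        obtain ⟨r2, hr2, e2⟩ := hS2 _ _ m2.2.1
        obtain ⟨r3, hr3, e3⟩ := hS2 _ _ m3.2.1
        obtain ⟨r4, hr4, e4⟩ := hS2 _ _ m4.2.1
        refine no_zigzag hφ h12 h32 hb hr1 hr2 hr3 hr4 (m1.1.symm.trans m2.1)
          (m1.2.2.symm.trans m3.2.2) ?_ ?_
        · rw [lift_map, lift_map, ← e1, ← e3]
        · rw [lift_map, lift_map, ← e2, ← e4]
    have hU' : n j * s j ≤ 2 * U.card := by
      have : n j * (n j * s j) ≤ n j * (2 * U.card) := by nlinarith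
      exact Nat.le_of_mul_le_mul_left this (hn j)
    have hch : ∀ τ : C × List C × C, ∃ p : Fin (n j) × Fin (n j), τ ∈ U → τ ∈ T p := by
      intro τ
      by_cases h : τ ∈ U
      · obtain ⟨p, -, hp⟩ := Finset.mem_biUnion.1 h
        exact ⟨p, fun _ => hp⟩
      · exact ⟨(⟨0, hn j⟩, ⟨0, hn j⟩), fun h' => absurd h' h⟩
    choose pp hpp using hch
    let D := U.sigma (fun τ => S (inl (pp τ).1) ×ˢ S (inr (inr (pp τ).2)))
    let g : (Σ _ : C × List C × C, List C × List C) → List C := fun z =>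
      z.2.1 ++ z.1.1 :: (z.1.2.1 ++ z.1.2.2 :: z.2.2)
    have hginj : Set.InjOn g D := by
      rintro ⟨⟨x, σ, y⟩, σ1, σ3⟩ hz ⟨⟨x', σ', y'⟩, σ1', σ3'⟩ hz' h
      simp only [D, Finset.coe_sigma, Set.mem_sigma_iff, Finset.mem_coe, Finset.mem_product] at hz hz'
      have l1 := hlen _ _ hz.2.1
      have l1' := hlen _ _ hz'.2.1
      have l2 := hlen _ _ ((hT _ _).1 (hpp _ hz.1)).2.1
      have l2' := hlen _ _ ((hT _ _).1 (hpp _ hz'.1)).2.1
      change σ1 ++ x :: (σ ++ y :: σ3) = σ1' ++ x' :: (σ' ++ y' :: σ3') at h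
      change σ.length + 1 = _ at l2
      change σ'.length + 1 = _ at l2'
      obtain ⟨q1, q2⟩ := List.append_inj h (by omega)
      obtain ⟨q3, q4⟩ := List.cons.inj q2
      obtain ⟨q5, q6⟩ := List.append_inj q4 (by omega)
      obtain ⟨q7, q8⟩ := List.cons.inj q6
      subst q1 q3 q5 q7 q8
      rfl
    refine ⟨D.image g, ?_, ?_⟩
    · rw [Finset.card_image_of_injOn hginj, Finset.card_sigma]
      have h1 : U.card * (s j * s j) ≤
          ∑ τ ∈ U, (S (inl (pp τ).1) ×ˢ S (inr (inr (pp τ).2))).card := by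
        have := Finset.card_nsmul_le_sum U
          (fun τ => (S (inl (pp τ).1) ×ˢ S (inr (inr (pp τ).2))).card) (s j * s j) (by
            intro τ _
            rw [Finset.card_product]
            exact Nat.mul_le_mul (hS1 _) (hS1 _))
        simpa using this
      have h2 := hs j
      have h3 : n j * s j ^ 3 ≤ 2 * (U.card * (s j * s j)) := by
        calc n j * s j ^ 3 = (n j * s j) * (s j * s j) := by ring
          _ ≤ (2 * U.card) * (s j * s j) := Nat.mul_le_mul_right _ hU'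
          _ = _ := by ring
      omega
    · intro σ hσ
      obtain ⟨⟨⟨x, σ2, y⟩, σ1, σ3⟩, hz, rfl⟩ := Finset.mem_image.1 hσ
      simp only [D, Finset.mem_sigma, Finset.mem_product] at hz
      obtain ⟨hx, h2, hy⟩ := (hT _ _).1 (hpp _ hz.1)
      obtain ⟨r1, hr1, e1⟩ := hS2 _ _ hz.2.1
      obtain ⟨r2, hr2, e2⟩ := hS2 _ _ h2
      obtain ⟨r3, hr3, e3⟩ := hS2 _ _ hz.2.2
      refine ⟨_, route_succ (a := (pp (x, σ2, y)).1) (b := (pp (x, σ2, y)).2) hr1 hr2 hr3, ?_⟩
      simp only at hx hy e2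
      simp only [g, List.map_append, List.map_cons, List.map_map, Function.comp_apply]
      rw [← hx, ← hy]
      congr 1
      congr 1
      congr 1
      congr 1

def nn (j : ℕ) : ℕ := 2 ^ (3 ^ j + 1)

def ee : ℕ → ℕ
  | 0 => 0
  | j + 1 => 3 ^ j + 3 * ee j

theorem ee_eq (j : ℕ) : 3 * ee j = j * 3 ^ j := by
  induction j with
  | zero => rfl
  | succ j ih => rw [ee, ih]; ring

theorem card_full (j : ℕ) : Fintype.card (Full nn j) ≤ 2 ^ (3 ^ j + 3 * j) := by
  induction j with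
  | zero => simp [card_Vx_zero]
  | succ j ih =>
    simp only [Fintype.card_sum, Fintype.card_bool] at ih ⊢
    rw [card_Vx_succ]
    have h2 : 2 ≤ nn j := by
      unfold nn
      calc 2 = 2 ^ 1 := rfl
        _ ≤ _ := Nat.pow_le_pow_right (by norm_num) (Nat.le_add_left _ _)
    have h3 : 2 ^ (3 ^ (j + 1) + 3 * (j + 1)) = 2 * (nn j * nn j) * 2 ^ (3 ^ j + 3 * j) := by
      unfold nn
      rw [← pow_add, ← pow_succ', ← pow_add]
      congr 1
      ring
    rw [h3]
    generalize nn j = m at *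
    generalize Fintype.card (Vx nn j) = v at *
    have h4 : 2 * m ≤ m * m := Nat.mul_le_mul_right m h2
    have h5 : (m + (m * m + m)) * v ≤ (2 * (m * m)) * v := Nat.mul_le_mul_right v (by omega)
    calc 2 + (2 * m + (m + (m * m + m)) * v) ≤ 2 * (m * m) * (2 + v) := by nlinarith
      _ ≤ _ := Nat.mul_le_mul_left _ ih

theorem card_full' {j i r : ℕ} (hj : j ≤ i) (hi : 3 ^ i ≤ 12 * (r + 1)) :
    Fintype.card (Full nn j) ≤ (2 ^ 24) ^ (r + 1) := by
  refine (card_full j).trans ?_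
  rw [← pow_mul]
  apply Nat.pow_le_pow_right (by norm_num)
  have h1 : 3 ^ j ≤ 3 ^ i := Nat.pow_le_pow_right (by norm_num) hj
  have h2 : 3 * j ≤ 3 ^ j := by
    clear hj h1
    induction j with
    | zero => simp
    | succ j ih =>
      rcases Nat.eq_zero_or_pos j with rfl | hj
      · simp
      · rw [pow_succ]; omega
  omega

theorem expansion (j : ℕ) : ExpansionLE (G nn j) (fun r => (2 ^ 24) ^ (r + 1)) := by
  intro r m H B x hd hx hadj
  have h1 : 4 * r + 1 < 3 ^ (Nat.log 3 (4 * r + 1) + 1) := Nat.lt_pow_succ_log_self (by norm_num) _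
  have h2 : 3 ^ (Nat.log 3 (4 * r + 1) + 1) ≤ 12 * (r + 1) := by
    have := Nat.pow_log_le_self 3 (x := 4 * r + 1) (by omega)
    rw [pow_succ]; omega
  generalize Nat.log 3 (4 * r + 1) + 1 = i at h1 h2
  rcases le_total j i with hji | hij
  · refine le_trans ?_ (Nat.mul_le_mul_right m (card_full' hji h2))
    apply edge_le_of_nbr H Set.univ (fun _ _ _ => Or.inl trivial)
    intro p _
    exact nbr_le hd hadj p id (fun _ _ b _ => ⟨b, rfl⟩)
  · obtain ⟨d, rfl⟩ := Nat.exists_eq_add_of_le hij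
    exact (expansion_high i d r h1 m H B x hd hx hadj).trans
      (Nat.mul_le_mul_right m (card_full' le_rfl h2))

theorem not_nonrep (k : ℕ) (c : Full nn (3 * (k + 1)) → Fin k) :
    ¬ Nonrepetitive (G nn (3 * (k + 1))) c := by
  classical
  intro h
  obtain ⟨S, hS1, hS2⟩ := count (n := nn) (fun j => 2 ^ ee j) rfl
    (fun j => by unfold nn; positivity) (fun j => by
      unfold nn
      rw [ee, ← pow_mul, ← pow_add, ← pow_succ']
      apply le_of_eq
      congr 1
      ring) _ c h.toL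
  have he : ee (3 * (k + 1)) = (k + 1) * 3 ^ (3 * (k + 1)) := by
    have := ee_eq (3 * (k + 1))
    nlinarith
  rw [he] at hS1
  obtain ⟨L, hL⟩ : ∃ L, 3 ^ (3 * (k + 1)) = L + 1 :=
    ⟨3 ^ (3 * (k + 1)) - 1, by have : 0 < 3 ^ (3 * (k + 1)) := by positivity
                               omega⟩
  have hsub : S ⊆ (Finset.univ : Finset (List.Vector (Fin k) L)).image List.Vector.toList := by
    intro σ hσ
    obtain ⟨r, hr, rfl⟩ := hS2 σ hσ
    have := hr.2.1
    exact Finset.mem_image.2 ⟨⟨_, by simp; omega⟩, Finset.mem_univ _, rfl⟩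
  have h1 := (Finset.card_le_card hsub).trans Finset.card_image_le
  simp only [Finset.card_univ, card_vector, Fintype.card_fin] at h1
  have h2 : k ^ L ≤ (2 ^ k) ^ L := Nat.pow_le_pow_left Nat.lt_two_pow_self.le L
  have h3 : (2 ^ k) ^ L < 2 ^ ((k + 1) * (L + 1)) := by
    rw [← pow_mul]
    apply Nat.pow_lt_pow_right (by norm_num)
    nlinarith
  rw [hL] at hS1
  omega

end Pool.Agent.H57Z.Nonrep
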