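import Mathlib

/-!
Expansion of a graph (densities of shallow minors) and nonrepetitive colourings.
-/

namespace Pool.Agent.H57Z.Nonrep

/-- `∇_r(G) ≤ f r` for every `r`: whenever a graph `H` on `n` vertices is an `r`-shallow minor of
`G` (pairwise disjoint branch sets `B i`, each with a centre `x i` from which every vertex of `B i`
is reached by a walk of length at most `r` inside `B i`, and an edge of `G` between `B i` and `B j`
for every edge `ij` of `H`), it has at most `f r * n` edges. -/
def ExpansionLE {V : Type} (G : SimpleGraph V) (f : ℕ → ℕ) : Prop :=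
  ∀ (r n : ℕ) (H : SimpleGraph (Fin n)) (B : Fin n → Set V) (x : Fin n → V),
    (∀ i j, i ≠ j → Disjoint (B i) (B j)) →
    (∀ i, x i ∈ B i ∧ ∀ y ∈ B i, ∃ p : G.Walk (x i) y,
      p.length ≤ r ∧ ∀ z ∈ p.support, z ∈ B i) →
    (∀ i j, H.Adj i j → ∃ a ∈ B i, ∃ b ∈ B j, G.Adj a b) →
    H.edgeSet.ncard ≤ f r * n

/-- The colouring `c` is nonrepetitive: no path on `2t` vertices has the same colour sequence on
its first and on its second half. -/
def Nonrepetitive {V C : Type} (G : SimpleGraph V) (c : V → C) : Prop :=
  ∀ (u v : V) (p : G.Walk u v), p.IsPath → ∀ t : ℕ, p.support.length = 2 * t →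
    (p.support.take t).map c ≠ (p.support.drop t).map c

end Pool.Agent.H57Z.Nonrep
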