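import Pool.Agent.H57Z.NonrepDefs

/-!
The recursive two-terminal gadgets: level `j+1` is `s - A - B - t` (complete bipartite between `A`
and `B`) with every edge replaced by a copy of level `j`.
-/

namespace Pool.Agent.H57Z.Nonrep

open Sum

abbrev Arc (m : ℕ) : Type := Fin m ⊕ (Fin m × Fin m) ⊕ Fin m

def Vx (n : ℕ → ℕ) : ℕ → Type
  | 0 => Empty
  | j + 1 => (Bool × Fin (n j)) ⊕ (Arc (n j) × Vx n j)

variable {n : ℕ → ℕ}

@[reducible] def vxFintype (n : ℕ → ℕ) : ∀ j, Fintype (Vx n j)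
  | 0 => inferInstanceAs (Fintype Empty)
  | j + 1 =>
    letI := vxFintype n j
    inferInstanceAs (Fintype ((Bool × Fin (n j)) ⊕ (Arc (n j) × Vx n j)))

instance (j : ℕ) : Fintype (Vx n j) := vxFintype n j

theorem card_Vx_zero : Fintype.card (Vx n 0) = 0 := rfl

theorem card_Vx_succ (j : ℕ) :
    Fintype.card (Vx n (j + 1)) = 2 * n j + (n j + (n j * n j + n j)) * Fintype.card (Vx n j) := by
  have : Fintype.card (Vx n (j + 1)) =
      Fintype.card ((Bool × Fin (n j)) ⊕ (Arc (n j) × Vx n j)) := rfl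
  rw [this]
  simp

abbrev Full (n : ℕ → ℕ) (j : ℕ) : Type := Bool ⊕ Vx n j

def vA {j : ℕ} (a : Fin (n j)) : Vx n (j + 1) := inl (false, a)
def vB {j : ℕ} (b : Fin (n j)) : Vx n (j + 1) := inl (true, b)
def vI {j : ℕ} (e : Arc (n j)) (x : Vx n j) : Vx n (j + 1) := inr (e, x)

@[simp] theorem vA_inj {j : ℕ} {a b : Fin (n j)} : vA a = vA b ↔ a = b :=
  ⟨fun h => by simpa using Sum.inl_injective h, fun h => h ▸ rfl⟩
@[simp] theorem vB_inj {j : ℕ} {a b : Fin (n j)} : vB a = vB b ↔ a = b :=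
  ⟨fun h => by simpa using Sum.inl_injective h, fun h => h ▸ rfl⟩
@[simp] theorem vI_inj {j : ℕ} {e e' : Arc (n j)} {x x' : Vx n j} :
    vI e x = vI e' x' ↔ e = e' ∧ x = x' :=
  ⟨fun h => by simpa using Sum.inr_injective h, fun h => by rw [h.1, h.2]⟩
@[simp] theorem vA_ne_vB {j : ℕ} {a b : Fin (n j)} : vA a ≠ vB b :=
  fun h => by simpa using Sum.inl_injective h
@[simp] theorem vB_ne_vA {j : ℕ} {a b : Fin (n j)} : vB a ≠ vA b :=
  fun h => by simpa using Sum.inl_injective h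
@[simp] theorem vA_ne_vI {j : ℕ} {a : Fin (n j)} {e : Arc (n j)} {x : Vx n j} : vA a ≠ vI e x :=
  Sum.inl_ne_inr
@[simp] theorem vB_ne_vI {j : ℕ} {a : Fin (n j)} {e : Arc (n j)} {x : Vx n j} : vB a ≠ vI e x :=
  Sum.inl_ne_inr
@[simp] theorem vI_ne_vA {j : ℕ} {a : Fin (n j)} {e : Arc (n j)} {x : Vx n j} : vI e x ≠ vA a :=
  Sum.inr_ne_inl
@[simp] theorem vI_ne_vB {j : ℕ} {a : Fin (n j)} {e : Arc (n j)} {x : Vx n j} : vI e x ≠ vB a :=
  Sum.inr_ne_inl

def src {j : ℕ} : Arc (n j) → Full n (j + 1)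
  | inl _ => inl false
  | inr (inl (a, _)) => inr (vA a)
  | inr (inr b) => inr (vB b)

def tgt {j : ℕ} : Arc (n j) → Full n (j + 1)
  | inl a => inr (vA a)
  | inr (inl (_, b)) => inr (vB b)
  | inr (inr _) => inl true

def off {m : ℕ} : Arc m → ℕ
  | inl _ => 0
  | inr (inl _) => 1
  | inr (inr _) => 2

def emb {j : ℕ} (e : Arc (n j)) : Full n j → Full n (j + 1)
  | inl false => src e
  | inl true => tgt e
  | inr x => inr (vI e x)

theorem src_ne_vI {j : ℕ} (e e' : Arc (n j)) (x : Vx n j) : src e ≠ inr (vI e' x) := by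
  rcases e with a | ⟨a, b⟩ | b <;> simp [src]

theorem tgt_ne_vI {j : ℕ} (e e' : Arc (n j)) (x : Vx n j) : tgt e ≠ inr (vI e' x) := by
  rcases e with a | ⟨a, b⟩ | b <;> simp [tgt]

theorem src_ne_tgt {j : ℕ} (e : Arc (n j)) : src e ≠ tgt e := by
  rcases e with a | ⟨a, b⟩ | b <;> simp [src, tgt]

theorem emb_eq_vI {j : ℕ} {e e' : Arc (n j)} {u : Full n j} {x : Vx n j}
    (h : emb e u = inr (vI e' x)) : e = e' ∧ u = inr x := by
  rcases u with (_ | _) | y
  · exact absurd h (src_ne_vI _ _ _)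
  · exact absurd h (tgt_ne_vI _ _ _)
  · simpa [emb] using h

theorem emb_injective {j : ℕ} (e : Arc (n j)) : Function.Injective (emb e) := by
  rintro ((_ | _) | x) ((_ | _) | y) h
  · rfl
  · exact absurd h (src_ne_tgt e)
  · exact absurd h (src_ne_vI _ _ _)
  · exact absurd h.symm (src_ne_tgt e)
  · rfl
  · exact absurd h (tgt_ne_vI _ _ _)
  · exact absurd h.symm (src_ne_vI _ _ _)
  · exact absurd h.symm (tgt_ne_vI _ _ _)
  · simpa [emb] using h

def Rel (n : ℕ → ℕ) : (j : ℕ) → Full n j → Full n j → Prop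
  | 0 => fun u v => u = inl false ∧ v = inl true
  | j + 1 => fun u v => ∃ (e : Arc (n j)) (u' v' : Full n j),
      Rel n j u' v' ∧ u = emb e u' ∧ v = emb e v'

def hI (n : ℕ → ℕ) : (j : ℕ) → Vx n j → ℕ
  | 0 => fun _ => 0
  | j + 1 => fun x => match x with
    | inl (false, _) => 3 ^ j
    | inl (true, _) => 2 * 3 ^ j
    | inr (e, y) => off e * 3 ^ j + hI n j y

def ht (n : ℕ → ℕ) (j : ℕ) : Full n j → ℕ
  | inl false => 0
  | inl true => 3 ^ j
  | inr x => hI n j x

theorem ht_emb {j : ℕ} (e : Arc (n j)) (u : Full n j) :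
    ht n (j + 1) (emb e u) = off e * 3 ^ j + ht n j u := by
  rcases u with (_ | _) | y
  · rcases e with a | ⟨a, b⟩ | b <;> simp [emb, src, ht, off, vA, vB, hI]
  · rcases e with a | ⟨a, b⟩ | b <;> simp [emb, tgt, ht, off, vA, vB, hI] <;> ring
  · rfl

theorem ht_rel : ∀ (j : ℕ) (u v : Full n j), Rel n j u v → ht n j v = ht n j u + 1
  | 0, _, _, ⟨h1, h2⟩ => by subst h1 h2; rfl
  | j + 1, _, _, ⟨e, u', v', h, h1, h2⟩ => by
    subst h1 h2
    rw [ht_emb, ht_emb, ht_rel j u' v' h, add_assoc]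

theorem ht_le : ∀ (j : ℕ) (u v : Full n j), Rel n j u v → ht n j v ≤ 3 ^ j
  | 0, _, _, ⟨_, h2⟩ => by subst h2; rfl
  | j + 1, _, _, ⟨e, u', v', h, _, h2⟩ => by
    subst h2
    rw [ht_emb]
    have h3 := ht_le j u' v' h
    have h4 : off e ≤ 2 := by rcases e with a | ⟨a, b⟩ | b <;> simp [off]
    have := Nat.mul_le_mul_right (3 ^ j) h4
    rw [pow_succ]
    omega

def G (n : ℕ → ℕ) (j : ℕ) : SimpleGraph (Full n j) where
  Adj u v := Rel n j u v ∨ Rel n j v u
  symm := ⟨fun _ _ h => h.symm⟩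
  loopless := ⟨fun u h => by
    have := ht_rel j u u (h.elim id id)
    omega⟩

theorem emb_adj {j : ℕ} (e : Arc (n j)) {u v : Full n j} (h : (G n j).Adj u v) :
    (G n (j + 1)).Adj (emb e u) (emb e v) :=
  h.elim (fun h => Or.inl ⟨e, u, v, h, rfl, rfl⟩) (fun h => Or.inr ⟨e, v, u, h, rfl, rfl⟩)

/-- Decomposition of a higher level into copies of level `i`. -/
theorem decomp (i d : ℕ) : ∃ (E : Type) (ι : E → Full n i → Full n (i + d))
    (κ : E → Vx n i → Vx n (i + d)),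
    (∀ u v, Rel n (i + d) u v → ∃ e u' v', Rel n i u' v' ∧ u = ι e u' ∧ v = ι e v') ∧
    (∀ e x, ι e (inr x) = inr (κ e x)) ∧
    (∀ e, Function.Injective (ι e)) ∧
    (∀ e e' u x, ι e u = inr (κ e' x) → e = e' ∧ u = inr x) := by
  induction d with
  | zero =>
    exact ⟨Unit, fun _ => id, fun _ => id, fun u v h => ⟨(), u, v, h, rfl, rfl⟩, fun _ _ => rfl,
      fun _ => Function.injective_id, fun _ _ _ _ h => ⟨rfl, h⟩⟩
  | succ d ih =>
    obtain ⟨E, ι, κ, h1, h2, h3, h4⟩ := ih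
    refine ⟨Arc (n (i + d)) × E, fun p u => emb p.1 (ι p.2 u), fun p x => vI p.1 (κ p.2 x),
      ?_, ?_, ?_, ?_⟩
    · rintro u v ⟨a, u', v', h, rfl, rfl⟩
      obtain ⟨e, u'', v'', h', rfl, rfl⟩ := h1 u' v' h
      exact ⟨(a, e), u'', v'', h', rfl, rfl⟩
    · intro p x
      simp only [h2]
      rfl
    · intro p
      exact (emb_injective p.1).comp (h3 p.2)
    · intro p p' u x h
      obtain ⟨ha, hb⟩ := emb_eq_vI h
      obtain ⟨hc, hd⟩ := h4 _ _ _ _ hb
      exact ⟨Prod.ext ha hc, hd⟩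

theorem edge_le_of_nbr {m M : ℕ} (H : SimpleGraph (Fin m)) (I : Set (Fin m))
    (hI : ∀ p q, H.Adj p q → p ∈ I ∨ q ∈ I)
    (hM : ∀ p ∈ I, {q | H.Adj p q}.ncard ≤ M) : H.edgeSet.ncard ≤ M * m := by
  classical
  have hsub : H.edgeSet ⊆ (fun x : Fin m × Fin m => s(x.1, x.2)) ''
      {x | x.1 ∈ I ∧ H.Adj x.1 x.2} := by
    intro e he
    induction e using Sym2.ind with
    | h p q =>
      rcases hI p q he with h | h
      · exact ⟨(p, q), ⟨h, he⟩, rfl⟩
      · exact ⟨(q, p), ⟨h, H.adj_symm he⟩, Sym2.eq_swap⟩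
  refine (Set.ncard_le_ncard hsub (Set.toFinite _)).trans ((Set.ncard_image_le (Set.toFinite _)).trans ?_)
  rw [Set.ncard_eq_toFinset_card']
  have := Finset.card_le_mul_card_image_of_maps_to
    (s := {x : Fin m × Fin m | x.1 ∈ I ∧ H.Adj x.1 x.2}.toFinset) (t := Finset.univ)
    (f := Prod.fst) (fun _ _ => Finset.mem_univ _) M (by
      intro p _
      by_cases hp : p ∈ I
      · refine le_trans ?_ (hM p hp)
        rw [Set.ncard_eq_toFinset_card']
        refine Finset.card_le_card_of_injOn Prod.snd ?_ ?_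
        · intro x hx
          simp only [Finset.coe_filter, Set.mem_toFinset, Set.mem_setOf_eq] at hx
          simp only [Set.coe_toFinset, Set.mem_setOf_eq]
          exact hx.2 ▸ hx.1.2
        · intro x hx y hy hxy
          simp only [Finset.coe_filter, Set.mem_toFinset, Set.mem_setOf_eq] at hx hy
          exact Prod.ext (hx.2.trans hy.2.symm) hxy
      · rw [Finset.card_eq_zero.2]
        · exact Nat.zero_le _
        · rw [Finset.filter_eq_empty_iff]
          intro x hx hxp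
          simp only [Set.mem_toFinset, Set.mem_setOf_eq] at hx
          exact hp (hxp ▸ hx.1))
  simpa using this

theorem lip_walk {V : Type} {Γ : SimpleGraph V} (φ : V → ℕ)
    (hφ : ∀ u v, Γ.Adj u v → φ v ≤ φ u + 1) {u v : V} (p : Γ.Walk u v) :
    φ v ≤ φ u + p.length ∧ φ u ≤ φ v + p.length := by
  induction p with
  | nil => simp
  | cons h p ih =>
    have h1 := hφ _ _ h
    have h2 := hφ _ _ h.symm
    simp only [SimpleGraph.Walk.length_cons]
    omega

/-- Degrees in a minor are bounded by the size of any set containing all neighbours of a branch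
set. -/
theorem nbr_le {V W : Type} [Fintype W] {Γ : SimpleGraph V} {m : ℕ} {H : SimpleGraph (Fin m)}
    {B : Fin m → Set V} (hd : ∀ i j, i ≠ j → Disjoint (B i) (B j))
    (hadj : ∀ i j, H.Adj i j → ∃ a ∈ B i, ∃ b ∈ B j, Γ.Adj a b) (p : Fin m) (g : W → V)
    (hg : ∀ a ∈ B p, ∀ b, Γ.Adj a b → b ∈ Set.range g) :
    {q | H.Adj p q}.ncard ≤ Fintype.card W := by
  classical
  have h1 : ∀ q : {q | H.Adj p q}, ∃ w, g w ∈ B q := by
    intro q
    obtain ⟨a, ha, b, hb, hab⟩ := hadj p q q.2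
    obtain ⟨w, rfl⟩ := hg a ha b hab
    exact ⟨w, hb⟩
  choose w hw using h1
  have hinj : Function.Injective w := by
    intro q q' h
    by_contra hne
    exact Set.disjoint_left.1 (hd q q' (fun h' => hne (Subtype.ext h'))) (hw q) (h ▸ hw q')
  rw [← Nat.card_coe_set_eq, ← Nat.card_eq_fintype_card]
  exact Nat.card_le_card_of_injective w hinj

theorem expansion_high (i d r : ℕ) (hr : 4 * r + 1 < 3 ^ i) (m : ℕ) (H : SimpleGraph (Fin m))
    (B : Fin m → Set (Full n (i + d))) (x : Fin m → Full n (i + d))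
    (hd : ∀ i j, i ≠ j → Disjoint (B i) (B j))
    (hx : ∀ k, x k ∈ B k ∧ ∀ y ∈ B k, ∃ p : (G n (i + d)).Walk (x k) y,
      p.length ≤ r ∧ ∀ z ∈ p.support, z ∈ B k)
    (hadj : ∀ k l, H.Adj k l → ∃ a ∈ B k, ∃ b ∈ B l, (G n (i + d)).Adj a b) :
    H.edgeSet.ncard ≤ Fintype.card (Full n i) * m := by
  classical
  obtain ⟨E, ι, κ, h1, h2, h3, h4⟩ := decomp (n := n) i d
  let Sm : E → Full n (i + d) → Prop := fun e v => ∃ y, v = inr (κ e y)
  have hadj' : ∀ u v, (G n (i + d)).Adj u v →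
      ∃ e u' v', (Rel n i u' v' ∨ Rel n i v' u') ∧ u = ι e u' ∧ v = ι e v' := by
    rintro u v (h | h)
    · obtain ⟨e, u', v', h', hu, hv⟩ := h1 u v h
      exact ⟨e, u', v', Or.inl h', hu, hv⟩
    · obtain ⟨e, u', v', h', hu, hv⟩ := h1 v u h
      exact ⟨e, v', u', Or.inr h', hv, hu⟩
  have hnb : ∀ e u v, Sm e u → (G n (i + d)).Adj u v → v ∈ Set.range (ι e) := by
    rintro e u v ⟨y, rfl⟩ h
    obtain ⟨e', u', v', -, hu, hv⟩ := hadj' _ _ h
    obtain ⟨rfl, -⟩ := h4 _ _ _ _ hu.symm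
    exact ⟨v', hv.symm⟩
  have hcell : ∀ e u v, Sm e u → (G n (i + d)).Adj u v → (∃ e', Sm e' v) → Sm e v := by
    rintro e u v hu h ⟨e', y, rfl⟩
    obtain ⟨w, hw⟩ := hnb e u _ hu h
    obtain ⟨rfl, -⟩ := h4 _ _ _ _ hw
    exact ⟨y, rfl⟩
  have hwalk : ∀ e (u v : Full n (i + d)) (p : (G n (i + d)).Walk u v), Sm e u →
      (∀ z ∈ p.support, ∃ e', Sm e' z) → Sm e v := by
    intro e u v p
    induction p with
    | nil => exact fun h _ => h
    | cons h p ih =>
      intro hu hz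
      exact ih (hcell e _ _ hu h (hz _ (by simp))) (fun z hzz => hz z (by simp [hzz]))
  apply edge_le_of_nbr H {k | ∀ z ∈ B k, ∃ e, Sm e z}
  · intro k l hkl
    by_contra hcon
    simp only [Set.mem_setOf_eq, not_or, not_forall] at hcon
    obtain ⟨⟨u, huk, hu⟩, ⟨w, hwl, hw⟩⟩ := hcon
    have huw : w ≠ u := fun h => Set.disjoint_left.1 (hd k l hkl.ne) huk (h ▸ hwl)
    let ψ : E → Full n i → ℕ := fun e y =>
      if ι e (inl false) = u then ht n i y else if ι e (inl true) = u then 3 ^ i - ht n i y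
      else 3 ^ i
    let φ : Full n (i + d) → ℕ := fun v =>
      if h : ∃ e, Sm e v then ψ h.choose (inr h.choose_spec.choose)
      else if v = u then 0 else 3 ^ i
    have hφ : ∀ e y, φ (ι e y) = ψ e y := by
      intro e y
      by_cases h : ∃ e', Sm e' (ι e y)
      · simp only [φ, dif_pos h]
        obtain ⟨ha, hb⟩ := h4 _ _ _ _ h.choose_spec.choose_spec
        rw [← hb, ← ha]
      · simp only [φ, dif_neg h]
        rcases y with (_ | _) | y
        · by_cases h5 : ι e (inl false) = u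
          · simp [ψ, h5, ht]
          · simp [ψ, h5, ht]
        · by_cases h5 : ι e (inl true) = u
          · have : ι e (inl false) ≠ u := fun h6 => by
              have := h3 e (h6.trans h5.symm)
              simp at this
            simp [ψ, h5, this, ht]
          · simp [ψ, h5, ht]
        · exact absurd ⟨e, y, h2 e y⟩ h
    have hlip : ∀ a b, (G n (i + d)).Adj a b → φ b ≤ φ a + 1 := by
      intro a b hab
      obtain ⟨e, u', v', h, rfl, rfl⟩ := hadj' a b hab
      rw [hφ, hφ]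
      simp only [ψ]
      rcases h with h | h
      · have := ht_rel i _ _ h
        split_ifs <;> omega
      · have := ht_rel i _ _ h
        split_ifs <;> omega
    have hφu : φ u = 0 := by simp only [φ, dif_neg hu, if_true]
    have hφw : φ w = 3 ^ i := by simp only [φ, dif_neg hw, if_neg huw]
    obtain ⟨a, ha, b, hb, hab⟩ := hadj k l hkl
    obtain ⟨p1, hp1, -⟩ := (hx k).2 u huk
    obtain ⟨p2, hp2, -⟩ := (hx k).2 a ha
    obtain ⟨p3, hp3, -⟩ := (hx l).2 b hb
    obtain ⟨p4, hp4, -⟩ := (hx l).2 w hwl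
    have := lip_walk φ hlip p1
    have := lip_walk φ hlip p2
    have := lip_walk φ hlip p3
    have := lip_walk φ hlip p4
    have := hlip a b hab
    omega
  · intro k hk
    obtain ⟨e, he⟩ := hk (x k) (hx k).1
    refine nbr_le hd hadj k (ι e) ?_
    intro a ha b hab
    obtain ⟨p, -, hp⟩ := (hx k).2 a ha
    exact hnb e a b (hwalk e _ _ p he (fun z hz => hk z (hp z hz))) hab

end Pool.Agent.H57Z.Nonrep
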