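import Mathlib

/-!
Symmetric functions over a ring, the symmetric real algebraic sets they cut out, and the
multiplicity of the trivial representation in the zeroth semi-algebraic cohomology.
-/

namespace Pool.Agent.H57Z.Sym

open MvPolynomial

/-- An element of the ring `Λ` of symmetric functions (inverse limit, in graded rings, of the rings
of symmetric polynomials): a sequence of symmetric polynomials of bounded degree, `φ n` in `n`
variables, such that setting the last variable of `φ (n+1)` to zero gives `φ n`. -/
structure SymFun (R : Type*) [CommRing R] where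
  φ : (n : ℕ) → MvPolynomial (Fin n) R
  symm : ∀ n, (φ n).IsSymmetric
  compat : ∀ n, aeval (Fin.snoc (α := fun _ => MvPolynomial (Fin n) R) X 0) (φ (n + 1)) = φ n
  bdd : ∃ d, ∀ n, (φ n).totalDegree ≤ d

variable {R : Type*} [Field R] [LinearOrder R] [TopologicalSpace R]

/-- The real algebraic set `V_n(I)` of the ideal generated by `f 0, …, f (k-1)`. -/
def V {k : ℕ} (f : Fin k → SymFun R) (n : ℕ) : Set (Fin n → R) :=
  {x | ∀ j, eval x ((f j).φ n) = 0}

/-- Semi-algebraic subsets of `R^n`. -/
inductive IsSemialg {n : ℕ} : Set (Fin n → R) → Prop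
  | zero (p : MvPolynomial (Fin n) R) : IsSemialg {x | eval x p = 0}
  | pos (p : MvPolynomial (Fin n) R) : IsSemialg {x | 0 < eval x p}
  | compl {s : Set (Fin n → R)} : IsSemialg s → IsSemialg sᶜ
  | union {s t : Set (Fin n → R)} : IsSemialg s → IsSemialg t → IsSemialg (s ∪ t)

/-- Zeroth semi-algebraic cohomology with rational coefficients of `S ⊆ R^n`: the span of the
indicator functions of the semi-algebraic subsets of `S` that are open and closed in `S`, that is,
for semi-algebraic `S`, the functions constant on semi-algebraically connected components. -/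
def H0 {n : ℕ} (S : Set (Fin n → R)) : Submodule ℚ (S → ℚ) :=
  Submodule.span ℚ {g | ∃ U : Set S, IsSemialg (Subtype.val '' U) ∧ IsClopen U ∧
    g = U.indicator 1}

/-- Functions on `S` fixed by all permutations of the coordinates. -/
def Invariant {n : ℕ} (S : Set (Fin n → R)) : Submodule ℚ (S → ℚ) where
  carrier := {g | ∀ (σ : Equiv.Perm (Fin n)) (x y : S), (y : Fin n → R) = x ∘ σ → g y = g x}
  add_mem' := fun ha hb σ x y h => by simp [ha σ x y h, hb σ x y h]
  zero_mem' := fun _ _ _ _ => rfl
  smul_mem' := fun c g hg σ x y h => by simp [hg σ x y h]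

/-- Multiplicity of the trivial representation (the Specht module of the partition `(n)`) in
`H^0(S)`: the dimension of the subspace of invariants. -/
noncomputable def trivMult {n : ℕ} (S : Set (Fin n → R)) : ℕ :=
  Module.finrank ℚ (H0 S ⊓ Invariant S : Submodule ℚ (S → ℚ))

end Pool.Agent.H57Z.Sym
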