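import Pool.Agent.H57Z.SymDefs

namespace Pool.Agent.H57Z.Sym

open MvPolynomial Finset

section ring
variable (R : Type*) [CommRing R]

theorem aeval_psum (n l : ℕ) (hl : l ≠ 0) :
    aeval (Fin.snoc (α := fun _ => MvPolynomial (Fin n) R) X 0) (psum (Fin (n + 1)) R l)
      = psum (Fin n) R l := by
  simp [psum, Fin.sum_univ_castSucc, hl]

theorem deg_psum (n l : ℕ) : (psum (Fin n) R l).totalDegree ≤ l := by
  unfold psum
  refine (totalDegree_finsetSum _ _).trans (Finset.sup_le fun i _ => ?_)
  refine (totalDegree_pow _ _).trans ?_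
  have : (X i : MvPolynomial (Fin n) R).totalDegree ≤ 1 := by
    rcases subsingleton_or_nontrivial R with h | h
    · rw [Subsingleton.elim (X i : MvPolynomial (Fin n) R) 0]; simp
    · simp
  nlinarith

noncomputable def f0 : SymFun R where
  φ n := psum (Fin n) R 6 - 2 * psum (Fin n) R 4 + psum (Fin n) R 2
  symm n := by
    intro e
    simp only [map_add, map_sub, map_mul, map_ofNat, rename_psum]
  compat n := by
    simp only [map_add, map_sub, map_mul, map_ofNat]
    rw [aeval_psum R n 6 (by norm_num), aeval_psum R n 4 (by norm_num),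
      aeval_psum R n 2 (by norm_num)]
  bdd := ⟨6, fun n => by
    refine (totalDegree_add _ _).trans (max_le ((totalDegree_sub _ _).trans (max_le ?_ ?_)) ?_)
    · exact deg_psum R n 6
    · rw [two_mul]
      refine (totalDegree_add _ _).trans (max_le ?_ ?_) <;>
        exact (deg_psum R n 4).trans (by norm_num)
    · exact (deg_psum R n 2).trans (by norm_num)⟩

noncomputable def f1 : SymFun R where
  φ n := psum (Fin n) R 1
  symm n := by
    intro e
    simp only [rename_psum]
  compat n := aeval_psum R n 1 (by norm_num)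
  bdd := ⟨1, fun n => deg_psum R n 1⟩

end ring

variable {R : Type*} [Field R] [LinearOrder R] [IsStrictOrderedRing R] [TopologicalSpace R]
  [OrderTopology R]

omit [TopologicalSpace R] [OrderTopology R] in
theorem mem_V (n : ℕ) (x : Fin n → R) :
    x ∈ V ![f0 R, f1 R] n ↔ (∀ i, x i = 0 ∨ x i = 1 ∨ x i = -1) ∧ ∑ i, x i = 0 := by
  have h0 : eval x ((f0 R).φ n) = ∑ i, (x i * (x i - 1) * (x i + 1)) ^ 2 := by
    simp only [f0, psum, map_add, map_sub, map_mul, map_ofNat, map_sum, map_pow, eval_X,
      Finset.mul_sum, ← Finset.sum_sub_distrib, ← Finset.sum_add_distrib]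
    exact Finset.sum_congr rfl fun i _ => by ring
  have h1 : eval x ((f1 R).φ n) = ∑ i, x i := by
    simp [f1, psum]
  simp only [V, Set.mem_setOf_eq, Fin.forall_fin_two, Matrix.cons_val_zero, Matrix.cons_val_one,
    h0, h1]
  refine and_congr ?_ Iff.rfl
  rw [Finset.sum_eq_zero_iff_of_nonneg (fun i _ => sq_nonneg _)]
  simp only [Finset.mem_univ, forall_const, ne_eq, OfNat.ofNat_ne_zero, not_false_eq_true,
    pow_eq_zero_iff, mul_eq_zero, sub_eq_zero, add_eq_zero_iff_eq_neg, or_assoc]

omit [TopologicalSpace R] [OrderTopology R] in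
theorem finite_V (n : ℕ) : (V ![f0 R, f1 R] n).Finite := by
  refine (Set.Finite.pi' (t := fun _ : Fin n => ({0, 1, -1} : Set R))
    (fun _ => Set.toFinite _)).subset ?_
  intro x hx i
  simpa using ((mem_V n x).1 hx).1 i

theorem H0_eq_top {n : ℕ} {S : Set (Fin n → R)} (hS : S.Finite) : H0 S = ⊤ := by
  classical
  haveI : Finite S := hS
  haveI := Fintype.ofFinite S
  rw [eq_top_iff]
  intro g _
  rw [pi_eq_sum_univ g]
  refine Submodule.sum_mem _ fun a _ => Submodule.smul_mem _ _ (Submodule.subset_span ?_)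
  refine ⟨{a}, ?_, isClopen_discrete _, ?_⟩
  · have : (Subtype.val '' ({a} : Set S)) =
        {x | eval x (∑ i, (X i - C ((a : Fin n → R) i)) ^ 2 : MvPolynomial (Fin n) R) = 0} := by
      ext x
      simp only [Set.image_singleton, Set.mem_singleton_iff, map_sum, map_pow, map_sub, eval_X,
        eval_C, Set.mem_setOf_eq]
      rw [Finset.sum_eq_zero_iff_of_nonneg (fun i _ => sq_nonneg _)]
      simp [sub_eq_zero, funext_iff]
    rw [this]
    exact IsSemialg.zero _
  · ext b
    by_cases h : a = b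
    · simp [h]
    · simp [h, Ne.symm h]

open Classical in
noncomputable def cnt {n : ℕ} (x : Fin n → R) (c : R) : ℕ := #{i | x i = c}

omit [TopologicalSpace R] [OrderTopology R] in
theorem cnt_facts {n : ℕ} (x : Fin n → R) (hx : ∀ i, x i = 0 ∨ x i = 1 ∨ x i = -1) :
    cnt x 0 + cnt x 1 + cnt x (-1) = n ∧ ∑ i, x i = (cnt x 1 : R) - cnt x (-1) := by
  classical
  have h01 : (0 : R) ≠ 1 := zero_ne_one
  have h0m : (0 : R) ≠ -1 := by norm_num
  have h1m : (1 : R) ≠ -1 := by norm_num
  constructor
  · simp only [cnt, Finset.card_filter, ← Finset.sum_add_distrib]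
    rw [Finset.sum_congr rfl (g := fun _ => 1)]
    · simp
    · intro i _
      rcases hx i with h | h | h <;> simp [h, h01, h0m, h1m, h01.symm, h0m.symm, h1m.symm]
  · simp only [cnt, Finset.card_filter, Nat.cast_sum, ← Finset.sum_sub_distrib]
    refine Finset.sum_congr rfl fun i _ => ?_
    rcases hx i with h | h | h <;> simp [h, h01, h0m, h1m, h01.symm, h0m.symm, h1m.symm]

omit [IsStrictOrderedRing R] [TopologicalSpace R] [OrderTopology R] in
theorem cnt_perm {n : ℕ} (x : Fin n → R) (σ : Equiv.Perm (Fin n)) (c : R) :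
    cnt (x ∘ σ) c = cnt x c := by
  classical
  unfold cnt
  exact Finset.card_equiv σ (by simp)

omit [IsStrictOrderedRing R] [TopologicalSpace R] [OrderTopology R] in
theorem exists_perm {n : ℕ} (x y : Fin n → R) (h : ∀ c, cnt y c = cnt x c) :
    ∃ σ : Equiv.Perm (Fin n), y = x ∘ σ := by
  classical
  have e : ∀ c, {i // y i = c} ≃ {i // x i = c} := fun c =>
    Fintype.equivOfCardEq (by
      have := h c
      unfold cnt at this
      simpa [Fintype.card_subtype] using this)
  exact ⟨Equiv.ofFiberEquiv e, funext fun i => (Equiv.ofFiberEquiv_map e i).symm⟩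

omit [TopologicalSpace R] [OrderTopology R] in
theorem cnt_V {n : ℕ} {x : Fin n → R} (hx : x ∈ V ![f0 R, f1 R] n) :
    cnt x (-1) = cnt x 1 ∧ cnt x 0 + 2 * cnt x 1 = n := by
  obtain ⟨h1, h2⟩ := (mem_V n x).1 hx
  obtain ⟨h3, h4⟩ := cnt_facts x h1
  have : cnt x (-1) = cnt x 1 := by
    have : (cnt x (-1) : R) = cnt x 1 := by linarith
    exact_mod_cast this
  omega

omit [TopologicalSpace R] [OrderTopology R] in
theorem exists_cnt (n a : ℕ) (ha : 2 * a ≤ n) : ∃ x ∈ V ![f0 R, f1 R] n, cnt x 1 = a := by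
  classical
  obtain ⟨A, -, hA⟩ := Finset.exists_subset_card_eq (s := (univ : Finset (Fin n))) (n := a)
    (by simp; omega)
  obtain ⟨B, hBA, hB⟩ := Finset.exists_subset_card_eq (s := Aᶜ) (n := a)
    (by simp [Finset.card_compl, hA]; omega)
  have h0m : (0 : R) ≠ -1 := by norm_num
  have h1m : (1 : R) ≠ -1 := by norm_num
  let x : Fin n → R := fun i => if i ∈ A then 1 else if i ∈ B then -1 else 0
  have hx : ∀ i, x i = 0 ∨ x i = 1 ∨ x i = -1 := by
    intro i
    simp only [x]
    split_ifs <;> simp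
  have c1 : cnt x 1 = a := by
    rw [← hA]; unfold cnt; congr 1; ext i
    simp only [x, mem_filter, mem_univ, true_and]
    split_ifs <;> simp [*, h1m.symm]
  have c2 : cnt x (-1) = a := by
    rw [← hB]; unfold cnt; congr 1; ext i
    simp only [x, mem_filter, mem_univ, true_and]
    split_ifs with h1 h2
    · have : i ∉ B := fun h => (mem_compl.1 (hBA h)) h1
      simp [h1m, this]
    · simp [h2]
    · simp [h2, h0m]
  refine ⟨x, (mem_V n x).2 ⟨hx, ?_⟩, c1⟩
  rw [(cnt_facts x hx).2, c1, c2, sub_self]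

theorem trivMult_V (n : ℕ) : trivMult (V ![f0 R, f1 R] n) = n / 2 + 1 := by
  classical
  unfold trivMult
  rw [H0_eq_top (finite_V n), top_inf_eq]
  let a : V ![f0 R, f1 R] n → Fin (n / 2 + 1) := fun x =>
    ⟨cnt (x : Fin n → R) 1, by have := (cnt_V x.2).2; omega⟩
  have hsurj : Function.Surjective a := by
    intro k
    obtain ⟨x, hx, hc⟩ := exists_cnt (R := R) n k (by have := k.2; omega)
    exact ⟨⟨x, hx⟩, Fin.ext hc⟩
  let Φ : (Fin (n / 2 + 1) → ℚ) →ₗ[ℚ] (V ![f0 R, f1 R] n → ℚ) := LinearMap.funLeft ℚ ℚ a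
  have hinj : Function.Injective Φ := LinearMap.funLeft_injective_of_surjective ℚ ℚ a hsurj
  have hrange : LinearMap.range Φ = Invariant (V ![f0 R, f1 R] n) := by
    ext g
    constructor
    · rintro ⟨c, rfl⟩ σ x y h
      have : a y = a x := Fin.ext (by simp only [a]; rw [h, cnt_perm])
      simp [Φ, LinearMap.funLeft, this]
    · intro hg
      refine ⟨fun k => g (Function.surjInv hsurj k), funext fun x => ?_⟩
      simp only [Φ, LinearMap.funLeft_apply]
      set y := Function.surjInv hsurj (a x)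
      have hy : a y = a x := Function.surjInv_eq hsurj _
      have h1 : cnt (y : Fin n → R) 1 = cnt (x : Fin n → R) 1 := congrArg Fin.val hy
      obtain ⟨hx1, hx2⟩ := cnt_V x.2
      obtain ⟨hy1, hy2⟩ := cnt_V y.2
      obtain ⟨σ, hσ⟩ := exists_perm (x : Fin n → R) y (by
        intro c
        by_cases c0 : c = 0
        · subst c0; omega
        by_cases c1 : c = 1
        · subst c1; exact h1
        by_cases c2 : c = -1
        · subst c2; omega
        have z : ∀ w : V ![f0 R, f1 R] n, cnt (w : Fin n → R) c = 0 := by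
          intro w
          unfold cnt
          rw [Finset.card_eq_zero, Finset.filter_eq_empty_iff]
          intro i _ hi
          rcases ((mem_V n _).1 w.2).1 i with h | h | h
          · exact c0 (hi ▸ h)
          · exact c1 (hi ▸ h)
          · exact c2 (hi ▸ h)
        rw [z, z])
      exact hg σ x y hσ
  rw [← hrange, LinearMap.finrank_range_of_inj hinj]
  simp

theorem not_poly : ¬ ∃ (P : Polynomial ℚ) (N : ℕ), ∀ n ≥ N, ((n / 2 + 1 : ℕ) : ℚ) = P.eval (n : ℚ) := by
  rintro ⟨P, N, h⟩
  have hinf : ∀ (Q : Polynomial ℚ) (r : ℕ), (∀ k ≥ N, Q.eval ((2 * k + r : ℕ) : ℚ) = 0) → Q = 0 := by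
    intro Q r hQ
    apply Polynomial.eq_zero_of_infinite_isRoot
    refine Set.infinite_of_injective_forall_mem
      (f := fun k : ℕ => ((2 * (k + N) + r : ℕ) : ℚ)) ?_ ?_
    · intro k l hkl
      have : 2 * (k + N) + r = 2 * (l + N) + r := Nat.cast_injective (R := ℚ) hkl
      omega
    · intro k
      exact hQ (k + N) (by omega)
  have e0 := hinf (P - (Polynomial.C (1 / 2) * Polynomial.X + 1)) 0 (by
    intro k hk
    have := h (2 * k + 0) (by omega)
    rw [show (2 * k + 0) / 2 = k by omega] at this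
    simp only [Polynomial.eval_sub, ← this]
    simp)
  have e1 := hinf (P - (Polynomial.C (1 / 2) * Polynomial.X + Polynomial.C (1 / 2))) 1 (by
    intro k hk
    have := h (2 * k + 1) (by omega)
    rw [show (2 * k + 1) / 2 = k by omega] at this
    simp only [Polynomial.eval_sub, ← this]
    simp
    ring)
  have a0 := congrArg (Polynomial.eval 0) e0
  have a1 := congrArg (Polynomial.eval 0) e1
  simp at a0 a1
  linarith

end Pool.Agent.H57Z.Sym
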