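import Mathlib

set_option autoImplicit false

namespace Pool.Agent.H57Z.White

open Finset

variable {α ι : Type} [DecidableEq α]

/-- toggle the two points `a`, `b` -/
def tog (X : Finset α) (a b : α) : Finset α := symmDiff X {a, b}

theorem mem_tog {X : Finset α} {a b x : α} :
    x ∈ tog X a b ↔ (x ∈ X ∧ x ≠ a ∧ x ≠ b) ∨ (x ∉ X ∧ (x = a ∨ x = b)) := by
  unfold tog
  rw [Finset.mem_symmDiff]
  simp only [mem_insert, mem_singleton, not_or]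
  tauto

theorem tog_comm (X : Finset α) (a b : α) : tog X a b = tog X b a := by
  ext x; simp only [mem_tog]; tauto

theorem tog_tog_comm (X : Finset α) (a b c d : α) :
    tog (tog X a b) c d = tog (tog X c d) a b := by
  unfold tog
  rw [symmDiff_assoc, symmDiff_assoc, symmDiff_comm ({a, b} : Finset α)]

theorem tog_tog_self (X : Finset α) (a b : α) : tog (tog X a b) a b = X := by
  unfold tog
  rw [symmDiff_assoc, symmDiff_self, symmDiff_bot]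

theorem tog_tog_share (X : Finset α) {a b c : α} (hab : a ≠ b) (hbc : b ≠ c) (hac : a ≠ c) :
    tog (tog X a b) b c = tog X a c := by
  ext x
  simp only [mem_tog]
  by_cases h1 : x = a
  · subst h1; simp [hab, hac]
  · by_cases h2 : x = b
    · subst h2; simp [h1, hbc]
    · by_cases h3 : x = c
      · subst h3; simp [h1, h2]
      · simp [h1, h2, h3]

theorem tog_eq {X : Finset α} {a b : α} (ha : a ∈ X) (hb : b ∉ X) :
    tog X a b = insert b (X.erase a) := by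
  ext x
  simp only [mem_tog, mem_insert, mem_erase]
  constructor
  · rintro (⟨h1, h2, _⟩ | ⟨h1, h2 | h2⟩)
    · exact Or.inr ⟨h2, h1⟩
    · exact absurd (h2 ▸ ha) h1
    · exact Or.inl h2
  · rintro (h | ⟨h1, h2⟩)
    · exact Or.inr ⟨h ▸ hb, Or.inr h⟩
    · exact Or.inl ⟨h2, h1, fun h => hb (h ▸ h2)⟩

theorem card_tog {X : Finset α} {a b : α} (ha : a ∈ X) (hb : b ∉ X) :
    (tog X a b).card = X.card := by
  rw [tog_eq ha hb, card_insert_of_notMem (by simp [hb]), card_erase_of_mem ha]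
  have := card_pos.2 ⟨a, ha⟩
  omega

theorem card_tog_inter {X : Finset α} {a b : α} (ha : a ∈ X) (hb : b ∉ X) (K : Finset α) :
    (tog X a b ∩ K).card + (if a ∈ K then 1 else 0) =
      (X ∩ K).card + (if b ∈ K then 1 else 0) := by
  rw [tog_eq ha hb]
  have h1 : (X.erase a ∩ K).card + (if a ∈ K then 1 else 0) = (X ∩ K).card := by
    rw [erase_inter]
    by_cases h : a ∈ K
    · have hm : a ∈ X ∩ K := mem_inter.2 ⟨ha, h⟩
      rw [card_erase_of_mem hm, if_pos h]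
      have := card_pos.2 ⟨a, hm⟩
      omega
    · rw [erase_eq_of_notMem (by simp [h]), if_neg h]
      rfl
  by_cases h : b ∈ K
  · rw [insert_inter_of_mem h, card_insert_of_notMem (by simp [hb]), if_pos h]
    omega
  · rw [insert_inter_of_notMem h, if_neg h]
    omega

theorem ident (X A B : Finset α) :
    (X ∩ A).card + (X ∩ B).card + (X \ (A ∪ B)).card + ((A ∩ B) \ X).card =
      X.card + (A ∩ B).card := by
  have h1 := card_union_add_card_inter (X ∩ A) (X ∩ B)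
  have h2 := card_sdiff_add_card_inter X (A ∪ B)
  have h3 := card_sdiff_add_card_inter (A ∩ B) X
  have e1 : X ∩ A ∪ X ∩ B = X ∩ (A ∪ B) := (inter_union_distrib_left X A B).symm
  have e2 : X ∩ A ∩ (X ∩ B) = A ∩ B ∩ X := by
    ext x; simp only [mem_inter]; tauto
  rw [e1, e2] at h1
  omega

/-- covering a complete bipartite graph by two families of disjoint blocks -/
theorem pattern (E F : Finset α) (p1 q1 p2 q2 : ι → α → Prop)
    (up1 : ∀ e ∈ E, ∀ k l, p1 k e → p1 l e → k = l)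
    (uq1 : ∀ e ∈ F, ∀ k l, q1 k e → q1 l e → k = l)
    (up2 : ∀ e ∈ E, ∀ k l, p2 k e → p2 l e → k = l)
    (uq2 : ∀ e ∈ F, ∀ k l, q2 k e → q2 l e → k = l)
    (hE : E.Nonempty) (hF : F.Nonempty)
    (hcov : ∀ e ∈ E, ∀ f ∈ F, (∃ k, p1 k e ∧ q1 k f) ∨ (∃ k, p2 k e ∧ q2 k f)) :
    (∃ k, (∃ e ∈ E, p1 k e) ∧ ∀ f ∈ F, q1 k f) ∨
    (∃ k, (∀ e ∈ E, p1 k e) ∧ ∃ f ∈ F, q1 k f) ∨
    (∃ k, (∀ e ∈ E, p2 k e) ∧ ∀ f ∈ F, q2 k f) ∨
    (∃ k k' l l', k ≠ k' ∧ l ≠ l' ∧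
      (∀ e ∈ E, (p1 k e ∧ p2 l e) ∨ (p1 k' e ∧ p2 l' e)) ∧
      (∀ f ∈ F, (q1 k f ∧ q2 l' f) ∨ (q1 k' f ∧ q2 l f)) ∧
      (∃ f ∈ F, q1 k f ∧ q2 l' f) ∧ (∃ f ∈ F, q1 k' f ∧ q2 l f)) := by
  by_cases c1 : ∃ k, (∃ e ∈ E, p1 k e) ∧ ∀ f ∈ F, q1 k f
  · exact Or.inl c1
  by_cases c2 : ∃ k, (∀ e ∈ E, p1 k e) ∧ ∃ f ∈ F, q1 k f
  · exact Or.inr (Or.inl c2)
  right; right
  have a1 : ∀ e ∈ E, ∃ f ∈ F, ¬ ∃ k, p1 k e ∧ q1 k f := by
    intro e he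
    by_contra hn
    push Not at hn
    obtain ⟨f0, hf0⟩ := hF
    obtain ⟨k, hk, _⟩ := hn f0 hf0
    refine c1 ⟨k, ⟨e, he, hk⟩, fun f hf => ?_⟩
    obtain ⟨l, hl, hl'⟩ := hn f hf
    exact (up1 e he l k hl hk) ▸ hl'
  have a2 : ∀ f ∈ F, ∃ e ∈ E, ¬ ∃ k, p1 k e ∧ q1 k f := by
    intro f hf
    by_contra hn
    push Not at hn
    obtain ⟨e0, he0⟩ := hE
    obtain ⟨k, _, hk⟩ := hn e0 he0
    refine c2 ⟨k, fun e he => ?_, ⟨f, hf, hk⟩⟩
    obtain ⟨l, hl, hl'⟩ := hn e he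
    exact (uq1 f hf l k hl' hk) ▸ hl
  by_cases c3 : ∃ k, (∀ e ∈ E, p2 k e) ∧ ∀ f ∈ F, q2 k f
  · exact Or.inl c3
  right
  have a3 : ∀ e ∈ E, ∃ f ∈ F, ¬ ∃ k, p2 k e ∧ q2 k f := by
    intro e he
    by_contra hn
    push Not at hn
    obtain ⟨f0, hf0⟩ := hF
    obtain ⟨k, hk, _⟩ := hn f0 hf0
    have hall : ∀ f ∈ F, q2 k f := by
      intro f hf
      obtain ⟨l, hl, hl'⟩ := hn f hf
      exact (up2 e he l k hl hk) ▸ hl'
    refine c3 ⟨k, fun e' he' => ?_, hall⟩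
    obtain ⟨f, hf, hnb⟩ := a1 e' he'
    rcases hcov e' he' f hf with h | ⟨l, hl, hl'⟩
    · exact absurd h hnb
    · exact (uq2 f hf l k hl' (hall f hf)) ▸ hl
  have a4 : ∀ f ∈ F, ∃ e ∈ E, ¬ ∃ k, p2 k e ∧ q2 k f := by
    intro f hf
    by_contra hn
    push Not at hn
    obtain ⟨e0, he0⟩ := hE
    obtain ⟨k, _, hk⟩ := hn e0 he0
    have hall : ∀ e ∈ E, p2 k e := by
      intro e he
      obtain ⟨l, hl, hl'⟩ := hn e he
      exact (uq2 f hf l k hl' hk) ▸ hl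
    refine c3 ⟨k, hall, fun f' hf' => ?_⟩
    obtain ⟨e, he, hnb⟩ := a2 f' hf'
    rcases hcov e he f' hf' with h | ⟨l, hl, hl'⟩
    · exact absurd h hnb
    · exact (up2 e he l k hl (hall e he)) ▸ hl'
  obtain ⟨e0, he0⟩ := hE
  obtain ⟨f1, hf1, n01⟩ := a1 e0 he0
  obtain ⟨f2, hf2, n02⟩ := a3 e0 he0
  obtain ⟨e1, he1, n11⟩ := a4 f1 hf1
  obtain ⟨l, hl0, hl1⟩ := (hcov e0 he0 f1 hf1).resolve_left n01
  obtain ⟨k, hk0, hk2⟩ := (hcov e0 he0 f2 hf2).resolve_right n02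
  obtain ⟨k', hk1, hk1'⟩ := (hcov e1 he1 f1 hf1).resolve_right n11
  have hkk : k ≠ k' := by
    rintro rfl
    exact n01 ⟨k, hk0, hk1'⟩
  have n12 : ¬ ∃ k, p1 k e1 ∧ q1 k f2 := by
    rintro ⟨m, hm1, hm2⟩
    exact hkk ((uq1 f2 hf2 k m hk2 hm2).trans (up1 e1 he1 m k' hm1 hk1))
  obtain ⟨l', hl1', hl2⟩ := (hcov e1 he1 f2 hf2).resolve_left n12
  have hll : l ≠ l' := by
    rintro rfl
    exact n11 ⟨l, hl1', hl1⟩
  refine ⟨k, k', l, l', hkk, hll, fun e he => ?_, fun f hf => ?_, ⟨f2, hf2, hk2, hl2⟩,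
    ⟨f1, hf1, hk1', hl1⟩⟩
  · have b1 : p1 k' e ∨ p2 l e := by
      rcases hcov e he f1 hf1 with ⟨m, hm, hm'⟩ | ⟨m, hm, hm'⟩
      · exact Or.inl ((uq1 f1 hf1 m k' hm' hk1') ▸ hm)
      · exact Or.inr ((uq2 f1 hf1 m l hm' hl1) ▸ hm)
    have b2 : p1 k e ∨ p2 l' e := by
      rcases hcov e he f2 hf2 with ⟨m, hm, hm'⟩ | ⟨m, hm, hm'⟩
      · exact Or.inl ((uq1 f2 hf2 m k hm' hk2) ▸ hm)
      · exact Or.inr ((uq2 f2 hf2 m l' hm' hl2) ▸ hm)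
    rcases b1 with b1 | b1 <;> rcases b2 with b2 | b2
    · exact absurd (up1 e he k k' b2 b1) hkk
    · exact Or.inr ⟨b1, b2⟩
    · exact Or.inl ⟨b2, b1⟩
    · exact absurd (up2 e he l l' b1 b2) hll
  · have b1 : q1 k f ∨ q2 l f := by
      rcases hcov e0 he0 f hf with ⟨m, hm, hm'⟩ | ⟨m, hm, hm'⟩
      · exact Or.inl ((up1 e0 he0 m k hm hk0) ▸ hm')
      · exact Or.inr ((up2 e0 he0 m l hm hl0) ▸ hm')
    have b2 : q1 k' f ∨ q2 l' f := by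
      rcases hcov e1 he1 f hf with ⟨m, hm, hm'⟩ | ⟨m, hm, hm'⟩
      · exact Or.inl ((up1 e1 he1 m k' hm hk1) ▸ hm')
      · exact Or.inr ((up2 e1 he1 m l' hm hl1') ▸ hm')
    rcases b1 with b1 | b1 <;> rcases b2 with b2 | b2
    · exact absurd (uq1 f hf k k' b1 b2) hkk
    · exact Or.inl ⟨b1, b2⟩
    · exact Or.inr ⟨b2, b1⟩
    · exact absurd (uq2 f hf l l' b1 b2) hll

section Hyper

variable (r : ℕ) (Hs : ι → Finset α) (ρ : ι → ℕ) (i0 : ι)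

/-- pairwise condition on the hyperedges -/
def PW : Prop := ∀ k l, k ≠ l → (Hs k ∩ Hs l).card + r ≤ ρ k + ρ l

/-- right size, and all constraints other than `i0` hold -/
def O (X : Finset α) : Prop := X.card = r ∧ ∀ k, k ≠ i0 → (X ∩ Hs k).card ≤ ρ k

/-- tight constraint other than `i0` -/
def Tt (X : Finset α) (k : ι) : Prop := k ≠ i0 ∧ (X ∩ Hs k).card = ρ k

variable {r Hs ρ i0}

theorem key (hP : PW r Hs ρ) {X : Finset α} (hX : X.card = r) {k l : ι} (hkl : k ≠ l) :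
    (X ∩ Hs k).card + (X ∩ Hs l).card + (X \ (Hs k ∪ Hs l)).card + ((Hs k ∩ Hs l) \ X).card ≤
      ρ k + ρ l := by
  have := ident X (Hs k) (Hs l)
  have := hP k l hkl
  omega

theorem O_of_ge (hP : PW r Hs ρ) {X : Finset α} (hX : X.card = r)
    (h : ρ i0 ≤ (X ∩ Hs i0).card) : O r Hs ρ i0 X := by
  refine ⟨hX, fun k hk => ?_⟩
  have := key hP hX hk
  omega

theorem O_tog {C : Finset α} (hC : O r Hs ρ i0 C) {e f : α} (hf : f ∈ C) (he : e ∉ C)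
    (h : ¬ ∃ k, Tt Hs ρ i0 C k ∧ e ∈ Hs k ∧ f ∉ Hs k) : O r Hs ρ i0 (tog C f e) := by
  refine ⟨(card_tog hf he).trans hC.1, fun k hk => ?_⟩
  have h1 := card_tog_inter hf he (Hs k)
  have h2 := hC.2 k hk
  by_cases a : e ∈ Hs k
  · by_cases b : f ∈ Hs k
    · rw [if_pos a, if_pos b] at h1; omega
    · rw [if_pos a, if_neg b] at h1
      have : (C ∩ Hs k).card ≠ ρ k := fun hh => h ⟨k, ⟨hk, hh⟩, a, b⟩
      omega
  · rw [if_neg a] at h1; omega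

theorem uniq_in (hP : PW r Hs ρ) {C : Finset α} (hC : C.card = r) {k l : ι}
    (hk : Tt Hs ρ i0 C k) (hl : Tt Hs ρ i0 C l) {e : α} (he : e ∉ C) (h1 : e ∈ Hs k)
    (h2 : e ∈ Hs l) : k = l := by
  by_contra hkl
  have := key hP hC hkl
  have h3 : 0 < ((Hs k ∩ Hs l) \ C).card := card_pos.2 ⟨e, by simp [he, h1, h2]⟩
  have := hk.2
  have := hl.2
  omega

theorem uniq_out (hP : PW r Hs ρ) {C : Finset α} (hC : C.card = r) {k l : ι}
    (hk : Tt Hs ρ i0 C k) (hl : Tt Hs ρ i0 C l) {f : α} (hf : f ∈ C) (h1 : f ∉ Hs k)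
    (h2 : f ∉ Hs l) : k = l := by
  by_contra hkl
  have := key hP hC hkl
  have h3 : 0 < (C \ (Hs k ∪ Hs l)).card := card_pos.2 ⟨f, by simp [hf, h1, h2]⟩
  have := hk.2
  have := hl.2
  omega

theorem class_bound (hP : PW r Hs ρ) {C : Finset α} (hC : C.card = r) {k : ι}
    (hk : Tt Hs ρ i0 C k) (E F : Finset α)
    (hE : ∀ e ∈ E, e ∈ Hs i0 ∧ e ∉ C ∧ e ∈ Hs k)
    (hF : ∀ f ∈ F, f ∈ C ∧ f ∉ Hs i0 ∧ f ∉ Hs k) :
    E.card + F.card + (C ∩ Hs i0).card ≤ ρ i0 := by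
  have h := key hP hC hk.1
  have h1 : E.card ≤ ((Hs k ∩ Hs i0) \ C).card := by
    refine card_le_card fun e he => ?_
    obtain ⟨a, b, c⟩ := hE e he
    simp [a, b, c]
  have h2 : F.card ≤ (C \ (Hs k ∪ Hs i0)).card := by
    refine card_le_card fun f hf => ?_
    obtain ⟨a, b, c⟩ := hF f hf
    simp [a, b, c]
  have := hk.2
  omega

theorem size_E (A C H : Finset α) : (A ∩ H).card ≤ ((A ∩ H) \ C).card + (C ∩ H).card := by
  have h1 := card_sdiff_add_card_inter (A ∩ H) C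
  have h2 : (A ∩ H ∩ C).card ≤ (C ∩ H).card := by
    refine card_le_card fun x hx => ?_
    simp only [mem_inter] at hx ⊢
    tauto
  omega

theorem size_F (A C H : Finset α) (h : A.card = C.card) :
    (C \ (H ∪ A)).card + (C ∩ H).card = (A ∩ H).card + (A \ (H ∪ C)).card := by
  have h1 := card_sdiff_add_card_inter A H
  have h2 := card_sdiff_add_card_inter C H
  have h3 := card_sdiff_add_card_inter (A \ H) C
  have h4 := card_sdiff_add_card_inter (C \ H) A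
  have e1 : (A \ H) \ C = A \ (H ∪ C) := sdiff_sdiff_left
  have e2 : (C \ H) \ A = C \ (H ∪ A) := sdiff_sdiff_left
  have e3 : A \ H ∩ C = C \ H ∩ A := by
    ext x; simp only [mem_inter, mem_sdiff]; tauto
  rw [e1, e3] at h3
  rw [e2] at h4
  omega

/-- one blocking system -/
theorem single (hP : PW r Hs ρ) {A C : Finset α} (hA : A.card = r) (hC : O r Hs ρ i0 C)
    (hbad : ρ i0 < (A ∩ Hs i0).card) (hsl : (C ∩ Hs i0).card < ρ i0) (g h : α) :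
    ∃ e f, e ∈ A ∧ e ∈ Hs i0 ∧ e ∉ C ∧ e ≠ g ∧ f ∈ C ∧ f ∉ Hs i0 ∧ f ∉ A ∧ f ≠ h ∧
      O r Hs ρ i0 (tog C f e) := by
  have s1 := size_E A C (Hs i0)
  have s2 := size_F A C (Hs i0) (hA.trans hC.1.symm)
  have s3 := pred_card_le_card_erase (s := (A ∩ Hs i0) \ C) (a := g)
  have s4 := pred_card_le_card_erase (s := C \ (Hs i0 ∪ A)) (a := h)
  obtain ⟨e, he⟩ : (((A ∩ Hs i0) \ C).erase g).Nonempty := card_pos.1 (by omega)
  simp only [mem_erase, mem_sdiff, mem_inter] at he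
  by_contra hn
  have hb : ∀ f ∈ (C \ (Hs i0 ∪ A)).erase h, ∃ k, Tt Hs ρ i0 C k ∧ e ∈ Hs k ∧ f ∉ Hs k := by
    intro f hf
    simp only [mem_erase, mem_sdiff, mem_union, not_or] at hf
    by_contra hb
    exact hn ⟨e, f, he.2.1.1, he.2.1.2, he.2.2, he.1, hf.2.1, hf.2.2.1, hf.2.2.2, hf.1,
      O_tog hC hf.2.1 he.2.2 hb⟩
  obtain ⟨f0, hf0⟩ : ((C \ (Hs i0 ∪ A)).erase h).Nonempty := card_pos.1 (by omega)
  obtain ⟨k, hk, hek, _⟩ := hb f0 hf0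
  have := class_bound hP hC.1 hk {e} ((C \ (Hs i0 ∪ A)).erase h)
    (by
      intro x hx
      rw [mem_singleton] at hx
      subst hx
      exact ⟨he.2.1.2, he.2.2, hek⟩)
    (by
      intro f hf
      obtain ⟨l, hl, hel, hfl⟩ := hb f hf
      simp only [mem_erase, mem_sdiff, mem_union, not_or] at hf
      exact ⟨hf.2.1, hf.2.2.1, (uniq_in hP hC.1 hl hk he.2.2 hel hek) ▸ hfl⟩)
  rw [card_singleton] at this
  omega

theorem two_classes (hP : PW r Hs ρ) {C : Finset α} (hC : C.card = r) {k k' : ι}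
    (hk : Tt Hs ρ i0 C k) (hk' : Tt Hs ρ i0 C k') (E F : Finset α)
    (hE : ∀ e ∈ E, e ∈ Hs i0 ∧ e ∉ C ∧ (e ∈ Hs k ∨ e ∈ Hs k'))
    (hF : ∀ f ∈ F, f ∈ C ∧ f ∉ Hs i0 ∧ (f ∉ Hs k ∨ f ∉ Hs k')) :
    E.card + F.card + 2 * (C ∩ Hs i0).card ≤ 2 * ρ i0 := by
  have h1 := class_bound hP hC hk (E.filter (· ∈ Hs k)) (F.filter (· ∉ Hs k))
    (by
      intro e he
      rw [mem_filter] at he
      exact ⟨(hE e he.1).1, (hE e he.1).2.1, he.2⟩)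
    (by
      intro f hf
      rw [mem_filter] at hf
      exact ⟨(hF f hf.1).1, (hF f hf.1).2.1, hf.2⟩)
  have h2 := class_bound hP hC hk' (E.filter (fun e => ¬ e ∈ Hs k)) (F.filter (fun f => ¬ f ∉ Hs k))
    (by
      intro e he
      rw [mem_filter] at he
      exact ⟨(hE e he.1).1, (hE e he.1).2.1, (hE e he.1).2.2.resolve_left he.2⟩)
    (by
      intro f hf
      rw [mem_filter] at hf
      exact ⟨(hF f hf.1).1, (hF f hf.1).2.1, (hF f hf.1).2.2.resolve_left hf.2⟩)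
  have h3 := card_filter_add_card_filter_not (s := E) (· ∈ Hs k)
  have h4 := card_filter_add_card_filter_not (s := F) (· ∉ Hs k)
  omega

/-- two blocking systems coming from two neighbouring slack sets -/
theorem double (hP : PW r Hs ρ) {A C : Finset α} (hA : A.card = r) (hC : O r Hs ρ i0 C)
    (hbad : ρ i0 < (A ∩ Hs i0).card) (hsl : (C ∩ Hs i0).card < ρ i0) {g h : α}
    (hh : h ∈ C) (hg : g ∉ C) (hC' : O r Hs ρ i0 (tog C h g))
    (hsl' : (tog C h g ∩ Hs i0).card < ρ i0) :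
    ∃ e f, e ∈ A ∧ e ∈ Hs i0 ∧ e ∉ C ∧ e ≠ g ∧ f ∈ C ∧ f ∉ Hs i0 ∧ f ∉ A ∧ f ≠ h ∧
      O r Hs ρ i0 (tog C f e) ∧ O r Hs ρ i0 (tog (tog C h g) f e) := by
  have s1 := size_E A C (Hs i0)
  have s2 := size_F A C (Hs i0) (hA.trans hC.1.symm)
  have s3 := pred_card_le_card_erase (s := (A ∩ Hs i0) \ C) (a := g)
  have s4 := pred_card_le_card_erase (s := C \ (Hs i0 ∪ A)) (a := h)
  have s5 := card_tog_inter hh hg (Hs i0)
  have s6 : g ∉ Hs i0 → (((A ∩ Hs i0) \ C).erase g).card = ((A ∩ Hs i0) \ C).card := by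
    intro a
    rw [erase_eq_of_notMem (by simp [a])]
  have s7 : h ∈ Hs i0 → ((C \ (Hs i0 ∪ A)).erase h).card = (C \ (Hs i0 ∪ A)).card := by
    intro a
    rw [erase_eq_of_notMem (by simp [a])]
  set E := ((A ∩ Hs i0) \ C).erase g with hEdef
  set F := (C \ (Hs i0 ∪ A)).erase h with hFdef
  have mE : ∀ e ∈ E, e ∈ A ∧ e ∈ Hs i0 ∧ e ∉ C ∧ e ≠ g ∧ e ∉ tog C h g := by
    intro e he
    simp only [hEdef, mem_erase, mem_sdiff, mem_inter] at he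
    refine ⟨he.2.1.1, he.2.1.2, he.2.2, he.1, ?_⟩
    rw [mem_tog]
    rintro (a | ⟨_, a | a⟩)
    · exact he.2.2 a.1
    · exact he.2.2 (a ▸ hh)
    · exact he.1 a
  have mF : ∀ f ∈ F, f ∈ C ∧ f ∉ Hs i0 ∧ f ∉ A ∧ f ≠ h ∧ f ∈ tog C h g := by
    intro f hf
    simp only [hFdef, mem_erase, mem_sdiff, mem_union, not_or] at hf
    refine ⟨hf.2.1, hf.2.2.1, hf.2.2.2, hf.1, ?_⟩
    rw [mem_tog]
    exact Or.inl ⟨hf.2.1, hf.1, fun a => hg (a ▸ hf.2.1)⟩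
  by_contra hn
  have hcov : ∀ e ∈ E, ∀ f ∈ F,
      (∃ k, (Tt Hs ρ i0 C k ∧ e ∈ Hs k) ∧ (Tt Hs ρ i0 C k ∧ f ∉ Hs k)) ∨
      (∃ k, (Tt Hs ρ i0 (tog C h g) k ∧ e ∈ Hs k) ∧ (Tt Hs ρ i0 (tog C h g) k ∧ f ∉ Hs k)) := by
    intro e he f hf
    obtain ⟨a1, a2, a3, a4, a5⟩ := mE e he
    obtain ⟨b1, b2, b3, b4, b5⟩ := mF f hf
    by_contra hc
    rw [not_or] at hc
    refine hn ⟨e, f, a1, a2, a3, a4, b1, b2, b3, b4, O_tog hC b1 a3 ?_, O_tog hC' b5 a5 ?_⟩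
    · rintro ⟨k, c1, c2, c3⟩
      exact hc.1 ⟨k, ⟨c1, c2⟩, c1, c3⟩
    · rintro ⟨k, c1, c2, c3⟩
      exact hc.2 ⟨k, ⟨c1, c2⟩, c1, c3⟩
  have hEn : E.Nonempty := card_pos.1 (by omega)
  have hFn : F.Nonempty := card_pos.1 (by omega)
  rcases pattern E F (fun k e => Tt Hs ρ i0 C k ∧ e ∈ Hs k) (fun k f => Tt Hs ρ i0 C k ∧ f ∉ Hs k)
    (fun k e => Tt Hs ρ i0 (tog C h g) k ∧ e ∈ Hs k)
    (fun k f => Tt Hs ρ i0 (tog C h g) k ∧ f ∉ Hs k)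
    (fun e he k l a b => uniq_in hP hC.1 a.1 b.1 (mE e he).2.2.1 a.2 b.2)
    (fun f hf k l a b => uniq_out hP hC.1 a.1 b.1 (mF f hf).1 a.2 b.2)
    (fun e he k l a b => uniq_in hP hC'.1 a.1 b.1 (mE e he).2.2.2.2 a.2 b.2)
    (fun f hf k l a b => uniq_out hP hC'.1 a.1 b.1 (mF f hf).2.2.2.2 a.2 b.2)
    hEn hFn hcov with ⟨k, ⟨e, he, hk⟩, hall⟩ | ⟨k, hall, ⟨f, hf, hk⟩⟩ | ⟨k, h1, h2⟩ |
      ⟨k, k', l, l', _, _, h1, h2, ⟨f2, _, c1, c2⟩, ⟨f1, _, c3, c4⟩⟩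
  · have := class_bound hP hC.1 hk.1 {e} F
      (by
        intro x hx
        rw [mem_singleton] at hx
        subst hx
        exact ⟨(mE x he).2.1, (mE x he).2.2.1, hk.2⟩)
      (fun f hf => ⟨(mF f hf).1, (mF f hf).2.1, (hall f hf).2⟩)
    rw [card_singleton] at this
    omega
  · have := class_bound hP hC.1 hk.1 E {f}
      (fun e he => ⟨(mE e he).2.1, (mE e he).2.2.1, (hall e he).2⟩)
      (by
        intro x hx
        rw [mem_singleton] at hx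
        subst hx
        exact ⟨(mF x hf).1, (mF x hf).2.1, hk.2⟩)
    rw [card_singleton] at this
    omega
  · obtain ⟨e0, he0⟩ := hEn
    have := class_bound hP hC'.1 (h1 e0 he0).1 E F
      (fun e he => ⟨(mE e he).2.1, (mE e he).2.2.2.2, (h1 e he).2⟩)
      (fun f hf => ⟨(mF f hf).2.2.2.2, (mF f hf).2.1, (h2 f hf).2⟩)
    by_cases a : g ∈ Hs i0 <;> by_cases b : h ∈ Hs i0
    · have := s7 b
      rw [if_pos a, if_pos b] at s5; omega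
    · rw [if_pos a, if_neg b] at s5; omega
    · have := s7 b
      have := s6 a
      rw [if_neg a, if_pos b] at s5; omega
    · have := s6 a
      rw [if_neg a, if_neg b] at s5; omega
  · have t1 := two_classes hP hC.1 c1.1 c3.1 E F
      (fun e he => ⟨(mE e he).2.1, (mE e he).2.2.1, (h1 e he).imp (fun a => a.1.2) (fun a => a.1.2)⟩)
      (fun f hf => ⟨(mF f hf).1, (mF f hf).2.1, (h2 f hf).imp (fun a => a.1.2) (fun a => a.1.2)⟩)
    have t2 := two_classes hP hC'.1 c4.1 c2.1 E F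
      (fun e he => ⟨(mE e he).2.1, (mE e he).2.2.2.2,
        (h1 e he).imp (fun a => a.2.2) (fun a => a.2.2)⟩)
      (fun f hf => ⟨(mF f hf).2.2.2.2, (mF f hf).2.1,
        (h2 f hf).symm.imp (fun a => a.2.2) (fun a => a.2.2)⟩)
    by_cases a : g ∈ Hs i0 <;> by_cases b : h ∈ Hs i0
    · have := s7 b
      omega
    · rw [if_pos a, if_neg b] at s5; omega
    · have := s7 b
      omega
    · have := s6 a
      omega

/-- exchange between a tight set and a slack set -/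
theorem lemA (hP : PW r Hs ρ) {A C : Finset α} (hA : A.card = r) (hC : O r Hs ρ i0 C)
    (hti : (A ∩ Hs i0).card = ρ i0) (hsl : (C ∩ Hs i0).card < ρ i0) :
    ∃ e f, e ∈ A ∧ e ∈ Hs i0 ∧ e ∉ C ∧ f ∈ C ∧ f ∉ Hs i0 ∧ f ∉ A ∧
      O r Hs ρ i0 (tog A e f) ∧ O r Hs ρ i0 (tog C f e) := by
  have hAO : O r Hs ρ i0 A := O_of_ge hP hA hti.ge
  have s1 := size_E A C (Hs i0)
  have s2 := size_F A C (Hs i0) (hA.trans hC.1.symm)
  set E := (A ∩ Hs i0) \ C with hEdef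
  set F := C \ (Hs i0 ∪ A) with hFdef
  have mE : ∀ e, e ∈ E ↔ e ∈ A ∧ e ∈ Hs i0 ∧ e ∉ C := by
    intro e
    simp only [hEdef, mem_sdiff, mem_inter, and_assoc]
  have mF : ∀ f, f ∈ F ↔ f ∈ C ∧ f ∉ Hs i0 ∧ f ∉ A := by
    intro f
    simp only [hFdef, mem_sdiff, mem_union, not_or]
  by_contra hn
  have hcov : ∀ e ∈ E, ∀ f ∈ F,
      (∃ k, (Tt Hs ρ i0 C k ∧ e ∈ Hs k) ∧ (Tt Hs ρ i0 C k ∧ f ∉ Hs k)) ∨
      (∃ k, (Tt Hs ρ i0 A k ∧ e ∉ Hs k) ∧ (Tt Hs ρ i0 A k ∧ f ∈ Hs k)) := by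
    intro e he f hf
    obtain ⟨a1, a2, a3⟩ := (mE e).1 he
    obtain ⟨b1, b2, b3⟩ := (mF f).1 hf
    by_contra hc
    rw [not_or] at hc
    refine hn ⟨e, f, a1, a2, a3, b1, b2, b3, O_tog hAO a1 b3 ?_, O_tog hC b1 a3 ?_⟩
    · rintro ⟨k, c1, c2, c3⟩
      exact hc.2 ⟨k, ⟨c1, c3⟩, c1, c2⟩
    · rintro ⟨k, c1, c2, c3⟩
      exact hc.1 ⟨k, ⟨c1, c2⟩, c1, c3⟩
  have hEn : E.Nonempty := card_pos.1 (by omega)
  have hFn : F.Nonempty := card_pos.1 (by omega)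
  rcases pattern E F (fun k e => Tt Hs ρ i0 C k ∧ e ∈ Hs k) (fun k f => Tt Hs ρ i0 C k ∧ f ∉ Hs k)
    (fun k e => Tt Hs ρ i0 A k ∧ e ∉ Hs k)
    (fun k f => Tt Hs ρ i0 A k ∧ f ∈ Hs k)
    (fun e he k l a b => uniq_in hP hC.1 a.1 b.1 ((mE e).1 he).2.2 a.2 b.2)
    (fun f hf k l a b => uniq_out hP hC.1 a.1 b.1 ((mF f).1 hf).1 a.2 b.2)
    (fun e he k l a b => uniq_out hP hA a.1 b.1 ((mE e).1 he).1 a.2 b.2)
    (fun f hf k l a b => uniq_in hP hA a.1 b.1 ((mF f).1 hf).2.2 a.2 b.2)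
    hEn hFn hcov with ⟨k, ⟨e, he, hk⟩, hall⟩ | ⟨k, hall, ⟨f, hf, hk⟩⟩ | ⟨l, h1, h2⟩ |
      ⟨k, k', l, l', _, hll, h1, h2, ⟨f2, hf2, c1, c2⟩, ⟨f1, _, c3, c4⟩⟩
  · have := class_bound hP hC.1 hk.1 {e} F
      (by
        intro x hx
        rw [mem_singleton] at hx
        subst hx
        exact ⟨((mE x).1 he).2.1, ((mE x).1 he).2.2, hk.2⟩)
      (fun f hf => ⟨((mF f).1 hf).1, ((mF f).1 hf).2.1, (hall f hf).2⟩)
    rw [card_singleton] at this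
    omega
  · have := class_bound hP hC.1 hk.1 E {f}
      (fun e he => ⟨((mE e).1 he).2.1, ((mE e).1 he).2.2, (hall e he).2⟩)
      (by
        intro x hx
        rw [mem_singleton] at hx
        subst hx
        exact ⟨((mF x).1 hf).1, ((mF x).1 hf).2.1, hk.2⟩)
    rw [card_singleton] at this
    omega
  · obtain ⟨e0, he0⟩ := hEn
    have hl : Tt Hs ρ i0 A l := (h1 e0 he0).1
    have i1 := ident A (Hs i0) (Hs l)
    have i2 := ident C (Hs i0) (Hs l)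
    have i3 := hP i0 l hl.1.symm
    have i4 := hl.2
    have i5 := hC.2 l hl.1
    have i6 := hC.1
    have z1 : A \ (Hs i0 ∪ Hs l) = ∅ := card_eq_zero.1 (by omega)
    have z2 : (Hs i0 ∩ Hs l) \ A = ∅ := card_eq_zero.1 (by omega)
    have z3 : C \ (Hs i0 ∪ Hs l) = ∅ := by
      refine eq_empty_of_forall_notMem fun x hx => ?_
      simp only [mem_sdiff, mem_union, not_or] at hx
      by_cases a : x ∈ A
      · have : x ∈ A \ (Hs i0 ∪ Hs l) := by simp [a, hx.2.1, hx.2.2]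
        rw [z1] at this
        simp at this
      · exact hx.2.2 (h2 x ((mF x).2 ⟨hx.1, hx.2.1, a⟩)).2
    have z4 : (Hs i0 ∩ Hs l) \ C = ∅ := by
      refine eq_empty_of_forall_notMem fun x hx => ?_
      simp only [mem_sdiff, mem_inter] at hx
      by_cases a : x ∈ A
      · exact (h1 x ((mE x).2 ⟨a, hx.1.1, hx.2⟩)).2 hx.1.2
      · have : x ∈ (Hs i0 ∩ Hs l) \ A := by simp [a, hx.1.1, hx.1.2]
        rw [z2] at this
        simp at this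
    rw [z3, z4] at i2
    simp only [card_empty] at i2
    omega
  · have t1 := two_classes hP hC.1 c1.1 c3.1 E F
      (fun e he => ⟨((mE e).1 he).2.1, ((mE e).1 he).2.2,
        (h1 e he).imp (fun a => a.1.2) (fun a => a.1.2)⟩)
      (fun f hf => ⟨((mF f).1 hf).1, ((mF f).1 hf).2.1,
        (h2 f hf).imp (fun a => a.1.2) (fun a => a.1.2)⟩)
    have z1 : A \ (Hs i0 ∪ C) = ∅ := card_eq_zero.1 (by omega)
    have hkl : k ≠ l' := by
      rintro rfl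
      exact c1.2 c2.2
    have k1 := key hP hC.1 hkl
    have k2 := c1.1.2
    have k3 := c2.1.2
    have sub : A ∩ Hs l' ⊆ ((C ∩ Hs l').erase f2) ∪ ((Hs k ∩ Hs l') \ C) := by
      intro x hx
      rw [mem_inter] at hx
      simp only [mem_union, mem_erase, mem_inter, mem_sdiff]
      by_cases a : x ∈ C
      · left
        refine ⟨?_, a, hx.2⟩
        rintro rfl
        exact ((mF x).1 hf2).2.2 hx.1
      · right
        have b : x ∈ Hs i0 := by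
          by_contra b
          have : x ∈ A \ (Hs i0 ∪ C) := by simp [a, b, hx.1]
          rw [z1] at this
          simp at this
        rcases h1 x ((mE x).2 ⟨hx.1, b, a⟩) with c | c
        · exact ⟨⟨c.1.2, hx.2⟩, a⟩
        · exact absurd hx.2 c.2.2
    have k4 := (card_le_card sub).trans (card_union_le _ _)
    have hm : f2 ∈ C ∩ Hs l' := mem_inter.2 ⟨((mF f2).1 hf2).1, c2.2⟩
    rw [card_erase_of_mem hm] at k4
    have := card_pos.2 ⟨f2, hm⟩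
    omega

/-- good pairs for a bad set `A` and a slack set `C` -/
def GP (r : ℕ) (Hs : ι → Finset α) (ρ : ι → ℕ) (i0 : ι) (A C : Finset α) (e f : α) : Prop :=
  e ∈ A ∧ e ∈ Hs i0 ∧ e ∉ C ∧ f ∈ C ∧ f ∉ Hs i0 ∧ f ∉ A ∧ O r Hs ρ i0 (tog C f e)

theorem not_blocked {C : Finset α} {e f : α} (hf : f ∈ C) (he : e ∉ C)
    (h : O r Hs ρ i0 (tog C f e)) : ¬ ∃ k, Tt Hs ρ i0 C k ∧ e ∈ Hs k ∧ f ∉ Hs k := by
  rintro ⟨k, hk, a, b⟩
  have h1 := card_tog_inter hf he (Hs k)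
  have h2 := h.2 k hk.1
  have h3 := hk.2
  rw [if_pos a, if_neg b] at h1
  omega

/-- connectivity of the good pairs -/
theorem gp_conn (hP : PW r Hs ρ) {A C : Finset α} (hA : A.card = r) (hC : O r Hs ρ i0 C)
    (hbad : ρ i0 < (A ∩ Hs i0).card) {e f e' f' : α}
    (h1 : GP r Hs ρ i0 A C e f) (h2 : GP r Hs ρ i0 A C e' f') :
    GP r Hs ρ i0 A C e f' ∨ GP r Hs ρ i0 A C e' f ∨
    (∃ e'', GP r Hs ρ i0 A C e'' f ∧ GP r Hs ρ i0 A C e'' f') ∨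
    (∃ f'', GP r Hs ρ i0 A C e f'' ∧ GP r Hs ρ i0 A C e' f'') := by
  obtain ⟨a1, a2, a3, a4, a5, a6, a7⟩ := h1
  obtain ⟨b1, b2, b3, b4, b5, b6, b7⟩ := h2
  by_cases c1 : ∃ k, Tt Hs ρ i0 C k ∧ e ∈ Hs k ∧ f' ∉ Hs k
  swap
  · exact Or.inl ⟨a1, a2, a3, b4, b5, b6, O_tog hC b4 a3 c1⟩
  by_cases c2 : ∃ k, Tt Hs ρ i0 C k ∧ e' ∈ Hs k ∧ f ∉ Hs k
  swap
  · exact Or.inr (Or.inl ⟨b1, b2, b3, a4, a5, a6, O_tog hC a4 b3 c2⟩)
  right; right
  obtain ⟨k, hk, k1, k2⟩ := c1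
  obtain ⟨k', hk', k1', k2'⟩ := c2
  have s1 := size_E A C (Hs i0)
  have s2 := size_F A C (Hs i0) (hA.trans hC.1.symm)
  by_cases d1 : ∃ x, (x ∈ A ∧ x ∈ Hs i0 ∧ x ∉ C) ∧ x ∉ Hs k ∧ x ∉ Hs k'
  · obtain ⟨x, ⟨x1, x2, x3⟩, x4, x5⟩ := d1
    left
    refine ⟨x, ⟨x1, x2, x3, a4, a5, a6, O_tog hC a4 x3 ?_⟩,
      ⟨x1, x2, x3, b4, b5, b6, O_tog hC b4 x3 ?_⟩⟩
    · rintro ⟨l, hl, l1, l2⟩
      exact x5 ((uniq_out hP hC.1 hl hk' a4 l2 k2') ▸ l1)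
    · rintro ⟨l, hl, l1, l2⟩
      exact x4 ((uniq_out hP hC.1 hl hk b4 l2 k2) ▸ l1)
  by_cases d2 : ∃ x, (x ∈ C ∧ x ∉ Hs i0 ∧ x ∉ A) ∧ x ∈ Hs k ∧ x ∈ Hs k'
  · obtain ⟨x, ⟨x1, x2, x3⟩, x4, x5⟩ := d2
    right
    refine ⟨x, ⟨a1, a2, a3, x1, x2, x3, O_tog hC x1 a3 ?_⟩,
      ⟨b1, b2, b3, x1, x2, x3, O_tog hC x1 b3 ?_⟩⟩
    · rintro ⟨l, hl, l1, l2⟩
      exact l2 ((uniq_in hP hC.1 hk hl a3 k1 l1) ▸ x4)
    · rintro ⟨l, hl, l1, l2⟩
      exact l2 ((uniq_in hP hC.1 hk' hl b3 k1' l1) ▸ x5)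
  exfalso
  have t := two_classes hP hC.1 hk hk' ((A ∩ Hs i0) \ C) (C \ (Hs i0 ∪ A))
    (by
      intro x hx
      simp only [mem_sdiff, mem_inter] at hx
      refine ⟨hx.1.2, hx.2, ?_⟩
      by_contra hn
      rw [not_or] at hn
      exact d1 ⟨x, ⟨hx.1.1, hx.1.2, hx.2⟩, hn⟩)
    (by
      intro x hx
      simp only [mem_sdiff, mem_union, not_or] at hx
      refine ⟨hx.1, hx.2.1, ?_⟩
      by_contra hn
      rw [not_or, not_not, not_not] at hn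
      exact d2 ⟨x, ⟨hx.1, hx.2.1, hx.2.2⟩, hn⟩)
  omega

end Hyper

end Pool.Agent.H57Z.White
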