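import Pool.Agent.H57Z.WhiteTup

set_option autoImplicit false
set_option linter.unusedSectionVars false

namespace Pool.Agent.H57Z.White

open Finset

variable {α ι κ : Type} [DecidableEq α] [DecidableEq κ] [Fintype κ]

section Lev

variable (r : ℕ) (Hs : ι → Finset α) (ρ : ι → ℕ) (i0 : ι)

/-- number of rows violating the constraint `i0` -/
def nbad (T : κ → Finset α) : ℕ := ∑ m, if ρ i0 < (T m ∩ Hs i0).card then 1 else 0

/-- level sets -/
def Lev (k : ℕ) (T : κ → Finset α) : Prop :=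
  (∀ m, O r Hs ρ i0 (T m) ∧ (T m ∩ Hs i0).card ≤ ρ i0 + 1) ∧ nbad Hs ρ i0 T ≤ k ∧
    ∑ m, (T m ∩ Hs i0).card < ∑ _m : κ, ρ i0

/-- a move repairing a violating row -/
def Down (T : κ → Finset α) (i j : κ) (e f : α) : Prop :=
  ρ i0 < (T i ∩ Hs i0).card ∧ (T j ∩ Hs i0).card < ρ i0 ∧ GP r Hs ρ i0 (T i) (T j) e f

variable {r Hs ρ i0}

theorem Lev.mono {k l : ℕ} (hkl : k ≤ l) {T : κ → Finset α} (h : Lev r Hs ρ i0 k T) :
    Lev r Hs ρ i0 l T := ⟨h.1, h.2.1.trans hkl, h.2.2⟩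

theorem Down.ne {T : κ → Finset α} {i j : κ} {e f : α} (h : Down r Hs ρ i0 T i j e f) :
    i ≠ j := by
  rintro rfl
  have := h.1
  have := h.2.1
  omega

theorem Down.app {T : κ → Finset α} {i j : κ} {e f : α} (h : Down r Hs ρ i0 T i j e f) :
    App T i j e f :=
  ⟨h.ne, h.2.2.1, h.2.2.2.2.1, h.2.2.2.2.2.1, h.2.2.2.2.2.2.2.1⟩

theorem Down.e_mem {T : κ → Finset α} {i j : κ} {e f : α} (h : Down r Hs ρ i0 T i j e f) :
    e ∈ Hs i0 := h.2.2.2.1

theorem Down.f_notMem {T : κ → Finset α} {i j : κ} {e f : α} (h : Down r Hs ρ i0 T i j e f) :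
    f ∉ Hs i0 := h.2.2.2.2.2.2.1

theorem nbad_ex (T : κ → Finset α) {i j : κ} (hij : i ≠ j) (a b : α) :
    nbad Hs ρ i0 (ex T i j a b) + (if ρ i0 < (T i ∩ Hs i0).card then 1 else 0) +
      (if ρ i0 < (T j ∩ Hs i0).card then 1 else 0) =
    nbad Hs ρ i0 T + (if ρ i0 < (tog (T i) a b ∩ Hs i0).card then 1 else 0) +
      (if ρ i0 < (tog (T j) b a ∩ Hs i0).card then 1 else 0) :=
  sum_ex (fun X => if ρ i0 < (X ∩ Hs i0).card then 1 else 0) T hij a b

theorem lev_ex {k l : ℕ} {T : κ → Finset α} (hT : Lev r Hs ρ i0 l T) {i j : κ} {a b : α}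
    (h : App T i j a b) (h1 : O r Hs ρ i0 (tog (T i) a b)) (h2 : O r Hs ρ i0 (tog (T j) b a))
    (h3 : (tog (T i) a b ∩ Hs i0).card ≤ ρ i0 + 1) (h4 : (tog (T j) b a ∩ Hs i0).card ≤ ρ i0 + 1)
    (h5 : nbad Hs ρ i0 (ex T i j a b) ≤ k) : Lev r Hs ρ i0 k (ex T i j a b) := by
  refine ⟨fun m => ?_, h5, ?_⟩
  · by_cases c1 : m = i
    · subst c1
      rw [ex_left]; exact ⟨h1, h3⟩
    by_cases c2 : m = j
    · subst c2
      rw [ex_right]; exact ⟨h2, h4⟩
    rw [ex_other T a b c1 c2]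
    exact hT.1 m
  · rw [sum_card_ex ⟨i, j, a, b, h, rfl⟩]
    exact hT.2.2

theorem Down.cards {T : κ → Finset α} {i j : κ} {e f : α} (h : Down r Hs ρ i0 T i j e f) :
    (tog (T i) e f ∩ Hs i0).card + 1 = (T i ∩ Hs i0).card ∧
      (tog (T j) f e ∩ Hs i0).card = (T j ∩ Hs i0).card + 1 := by
  have a := h.app
  have h1 := card_tog_inter a.2.1 a.2.2.2.2 (Hs i0)
  have h2 := card_tog_inter a.2.2.2.1 a.2.2.1 (Hs i0)
  rw [if_pos h.e_mem, if_neg h.f_notMem] at h1 h2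
  omega

theorem down_lev (hP : PW r Hs ρ) {k : ℕ} {T : κ → Finset α} (hT : Lev r Hs ρ i0 (k + 1) T)
    {i j : κ} {e f : α} (h : Down r Hs ρ i0 T i j e f) : Lev r Hs ρ i0 k (ex T i j e f) := by
  have a := h.app
  obtain ⟨c1, c2⟩ := h.cards
  have b1 := h.1
  have b2 := h.2.1
  have b3 := (hT.1 i).2
  have b4 := hT.2.1
  refine lev_ex hT a (O_of_ge hP ((card_tog a.2.1 a.2.2.2.2).trans (hT.1 i).1.1) (by omega))
    h.2.2.2.2.2.2.2.2 (by omega) (by omega) ?_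
  have := nbad_ex (Hs := Hs) (ρ := ρ) (i0 := i0) T a.1 e f
  rw [if_pos b1, if_neg (by omega), if_neg (by omega), if_neg (by omega)] at this
  omega

theorem down_of_ex {k : ℕ} {T V : κ → Finset α} (hT : Lev r Hs ρ i0 (k + 1) T)
    (hn : ¬ Lev r Hs ρ i0 k T) (hV : Lev r Hs ρ i0 k V) (hex : Ex T V) :
    ∃ i j e f, Down r Hs ρ i0 T i j e f ∧ V = ex T i j e f := by
  have aux : ∀ i j a b, App T i j a b → V = ex T i j a b → ρ i0 < (T i ∩ Hs i0).card →
      ¬ ρ i0 < (tog (T i) a b ∩ Hs i0).card → Down r Hs ρ i0 T i j a b := by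
    intro i j a b h hV' b1 b2
    have h1 := card_tog_inter h.2.1 h.2.2.2.2 (Hs i0)
    have h2 := card_tog_inter h.2.2.2.1 h.2.2.1 (Hs i0)
    have ha : a ∈ Hs i0 := by
      by_contra c
      rw [if_neg c] at h1
      omega
    have hb : b ∉ Hs i0 := by
      intro c
      rw [if_pos c, if_pos ha] at h1
      omega
    rw [if_pos ha, if_neg hb] at h2
    have h3 := hV.1 j
    have h4 := hV.2.1
    rw [hV'] at h3 h4
    rw [ex_right] at h3
    have h5 := nbad_ex (Hs := Hs) (ρ := ρ) (i0 := i0) T h.1 a b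
    have h6 : ¬ nbad Hs ρ i0 T ≤ k := fun c => hn ⟨hT.1, c, hT.2.2⟩
    rw [if_pos b1, if_neg b2] at h5
    refine ⟨b1, ?_, h.2.1, ha, h.2.2.1, h.2.2.2.1, hb, h.2.2.2.2, h3.1⟩
    by_contra c
    rw [if_neg (by omega), if_pos (by omega)] at h5
    omega
  obtain ⟨i, j, a, b, h, hV'⟩ := hex
  have h5 := nbad_ex (Hs := Hs) (ρ := ρ) (i0 := i0) T h.1 a b
  have h6 : ¬ nbad Hs ρ i0 T ≤ k := fun c => hn ⟨hT.1, c, hT.2.2⟩
  have h4 := hV.2.1
  rw [hV'] at h4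
  by_cases c1 : ρ i0 < (T i ∩ Hs i0).card ∧ ¬ ρ i0 < (tog (T i) a b ∩ Hs i0).card
  · exact ⟨i, j, a, b, aux i j a b h hV' c1.1 c1.2, hV'⟩
  · have c2 : ρ i0 < (T j ∩ Hs i0).card ∧ ¬ ρ i0 < (tog (T j) b a ∩ Hs i0).card := by
      by_contra c2
      split_ifs at h5 <;> omega
    exact ⟨j, i, b, a, aux j i b a h.swap (hV'.trans (ex_swap _ _ _ _ _)) c2.1 c2.2,
      hV'.trans (ex_swap _ _ _ _ _)⟩

theorem exists_slack {k : ℕ} {T : κ → Finset α} (hT : Lev r Hs ρ i0 k T) :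
    ∃ j, (T j ∩ Hs i0).card < ρ i0 := by
  by_contra hn
  push Not at hn
  have := sum_le_sum (s := univ) fun m _ => hn m
  have := hT.2.2
  omega

theorem two_units {k : ℕ} {T : κ → Finset α} (hT : Lev r Hs ρ i0 k T) {i j : κ}
    (hi : ρ i0 < (T i ∩ Hs i0).card) (hj : (T j ∩ Hs i0).card < ρ i0) :
    (T j ∩ Hs i0).card + 2 ≤ ρ i0 ∨ ∃ j', j' ≠ j ∧ (T j' ∩ Hs i0).card < ρ i0 := by
  by_contra hn
  push Not at hn
  have hij : i ≠ j := by
    rintro rfl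
    omega
  have hj' : j ∈ (univ : Finset κ).erase i := by simp [hij.symm]
  have h := hT.2.2
  rw [← add_sum_erase _ _ (mem_univ i), ← add_sum_erase _ _ hj',
    ← add_sum_erase _ (fun _ => ρ i0) (mem_univ i), ← add_sum_erase _ (fun _ => ρ i0) hj'] at h
  have := sum_le_sum (s := (univ.erase i).erase j) (f := fun _ => ρ i0)
    (g := fun m => (T m ∩ Hs i0).card) fun m hm => hn.2 m (mem_erase.1 hm).1
  have := hn.1
  omega

theorem exists_bad {k : ℕ} {T : κ → Finset α} (hT : Lev r Hs ρ i0 (k + 1) T)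
    (hn : ¬ Lev r Hs ρ i0 k T) : ∃ i, ρ i0 < (T i ∩ Hs i0).card := by
  by_contra hb
  push Not at hb
  refine hn ⟨hT.1, ?_, hT.2.2⟩
  unfold nbad
  rw [sum_eq_zero fun m _ => if_neg (not_lt.2 (hb m))]
  exact Nat.zero_le _

theorem exists_down (hP : PW r Hs ρ) {k : ℕ} {T : κ → Finset α} (hT : Lev r Hs ρ i0 k T)
    {i j : κ} (hi : ρ i0 < (T i ∩ Hs i0).card) (hj : (T j ∩ Hs i0).card < ρ i0) (g h : α) :
    ∃ e f, Down r Hs ρ i0 T i j e f ∧ e ≠ g ∧ f ≠ h := by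
  obtain ⟨e, f, a1, a2, a3, a4, a5, a6, a7, a8, a9⟩ :=
    single hP (hT.1 i).1.1 (hT.1 j).1 hi hj g h
  exact ⟨e, f, ⟨hi, hj, a1, a2, a3, a5, a6, a7, a9⟩, a4, a8⟩

theorem share_e (hP : PW r Hs ρ) {k : ℕ} {T : κ → Finset α} (hT : Lev r Hs ρ i0 (k + 1) T)
    {i j : κ} {e f f' : α} (h1 : Down r Hs ρ i0 T i j e f) (h2 : Down r Hs ρ i0 T i j e f') :
    Cn (Lev r Hs ρ i0 k) (ex T i j e f) (ex T i j e f') := by
  by_cases c : f = f'
  · subst c
    exact Cn.refl _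
  have a1 := h1.app
  have a2 := h2.app
  refine Rl.cn ⟨down_lev hP hT h1, down_lev hP hT h2, i, j, f, f', ⟨a1.1, ?_, ?_, ?_, ?_⟩,
    (ex_ex_share T i j a1.ne c a2.ne).symm⟩
  · exact a1.back.2.1
  · exact a1.back.2.2.1
  · rw [mem_ex_of_ne _ _ _ _ a2.ne.symm (Ne.symm c)]; exact a2.2.2.2.1
  · rw [mem_ex_of_ne _ _ _ _ a2.ne.symm (Ne.symm c)]; exact a2.2.2.2.2

theorem share_f (hP : PW r Hs ρ) {k : ℕ} {T : κ → Finset α} (hT : Lev r Hs ρ i0 (k + 1) T)
    {i j : κ} {e e' f : α} (h1 : Down r Hs ρ i0 T i j e f) (h2 : Down r Hs ρ i0 T i j e' f) :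
    Cn (Lev r Hs ρ i0 k) (ex T i j e f) (ex T i j e' f) := by
  by_cases c : e = e'
  · subst c
    exact Cn.refl _
  have a1 := h1.app
  have a2 := h2.app
  refine Rl.cn ⟨down_lev hP hT h1, down_lev hP hT h2, i, j, e', e, ⟨a1.1, ?_, ?_, ?_, ?_⟩, ?_⟩
  · rw [mem_ex_of_ne _ _ _ _ (Ne.symm c) a2.ne]; exact a2.2.1
  · rw [mem_ex_of_ne _ _ _ _ (Ne.symm c) a2.ne]; exact a2.2.2.1
  · exact a1.back.2.2.2.1
  · exact a1.back.2.2.2.2
  · rw [ex_comm_pts T i j e f, ex_comm_pts _ i j e' e, ex_ex_share T i j a1.ne.symm c a2.ne.symm,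
      ex_comm_pts]

theorem same_pair (hP : PW r Hs ρ) {k : ℕ} {T : κ → Finset α} (hT : Lev r Hs ρ i0 (k + 1) T)
    {i j : κ} {e f e' f' : α} (h1 : Down r Hs ρ i0 T i j e f) (h2 : Down r Hs ρ i0 T i j e' f') :
    Cn (Lev r Hs ρ i0 k) (ex T i j e f) (ex T i j e' f') := by
  rcases gp_conn hP (hT.1 i).1.1 (hT.1 j).1 h1.1 h1.2.2 h2.2.2 with g | g | ⟨x, g, g'⟩ | ⟨x, g, g'⟩
  · have d : Down r Hs ρ i0 T i j e f' := ⟨h1.1, h1.2.1, g⟩
    exact (share_e hP hT h1 d).trans (share_f hP hT d h2)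
  · have d : Down r Hs ρ i0 T i j e' f := ⟨h1.1, h1.2.1, g⟩
    exact (share_f hP hT h1 d).trans (share_e hP hT d h2)
  · have d : Down r Hs ρ i0 T i j x f := ⟨h1.1, h1.2.1, g⟩
    have d' : Down r Hs ρ i0 T i j x f' := ⟨h1.1, h1.2.1, g'⟩
    exact ((share_f hP hT h1 d).trans (share_e hP hT d d')).trans (share_f hP hT d' h2)
  · have d : Down r Hs ρ i0 T i j e x := ⟨h1.1, h1.2.1, g⟩
    have d' : Down r Hs ρ i0 T i j e' x := ⟨h1.1, h1.2.1, g'⟩
    exact ((share_e hP hT h1 d).trans (share_f hP hT d d')).trans (share_e hP hT d' h2)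

theorem same_bad (hP : PW r Hs ρ) {k : ℕ} {T : κ → Finset α} (hT : Lev r Hs ρ i0 (k + 1) T)
    {i j j' : κ} {e f e' f' : α} (h1 : Down r Hs ρ i0 T i j e f)
    (h2 : Down r Hs ρ i0 T i j' e' f') :
    Cn (Lev r Hs ρ i0 k) (ex T i j e f) (ex T i j' e' f') := by
  by_cases c : j = j'
  · subst c
    exact same_pair hP hT h1 h2
  have a1 := h1.app
  obtain ⟨c1, c2⟩ := h1.cards
  have b1 := h1.1
  have b3 := (hT.1 i).2
  have hc : (tog (T i) e f).card = r := (card_tog a1.2.1 a1.2.2.2.2).trans (hT.1 i).1.1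
  obtain ⟨e2, f2, d1, d2, d3, d4, d5, d6, d7, d8⟩ :=
    lemA hP hc (hT.1 j').1 (by omega) h2.2.1
  have n1 : e2 ≠ e := by
    rintro rfl
    exact a1.back.2.2.2.2 (by rw [ex_left]; exact d1)
  have n2 : e2 ≠ f := by
    rintro rfl
    exact h1.f_notMem d2
  have n3 : f2 ≠ e := by
    rintro rfl
    exact d5 h1.e_mem
  have n4 : f2 ≠ f := by
    rintro rfl
    exact d6 (by have := a1.back.2.1; rwa [ex_left] at this)
  have m1 : e2 ∈ T i := by
    rw [← mem_ex_of_ne T i j i n1 n2, ex_left]; exact d1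
  have m2 : f2 ∉ T i := by
    rw [← mem_ex_of_ne T i j i n3 n4, ex_left]; exact d6
  have dn : Down r Hs ρ i0 T i j' e2 f2 := ⟨h1.1, h2.2.1, m1, d2, d3, d4, d5, m2, d8⟩
  have l1 := down_lev hP hT h1
  have ap : App (ex T i j e f) i j' e2 f2 := dn.app.after_pts n1 n2 n3 n4
  have hj' : ex T i j e f j' = T j' := ex_other T e f h2.ne.symm (Ne.symm c)
  have k1 := card_tog_inter d1 d6 (Hs i0)
  have k2 := card_tog_inter d4 d3 (Hs i0)
  rw [if_pos d2, if_neg d5] at k1 k2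
  have b4 := h2.2.1
  have lY : Lev r Hs ρ i0 k (ex (ex T i j e f) i j' e2 f2) := by
    refine lev_ex l1 ap (by rw [ex_left]; exact d7) (by rw [hj']; exact d8)
      (by rw [ex_left]; omega) (by rw [hj']; omega) ?_
    have := nbad_ex (Hs := Hs) (ρ := ρ) (i0 := i0) (ex T i j e f) ap.1 e2 f2
    rw [hj', ex_left, if_neg (by omega), if_neg (by omega), if_neg (by omega),
      if_neg (by omega)] at this
    have := l1.2.1
    omega
  have r1 : Rl (Lev r Hs ρ i0 k) (ex T i j e f) (ex (ex T i j e f) i j' e2 f2) :=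
    ⟨l1, lY, i, j', e2, f2, ap, rfl⟩
  have r2 : Rl (Lev r Hs ρ i0 k) (ex T i j' e2 f2) (ex (ex T i j e f) i j' e2 f2) :=
    ⟨down_lev hP hT dn, lY, i, j, e, f, a1.after_pts n1.symm n3.symm n2.symm n4.symm,
      ex_ex_comm _ _ _ _ _ _ _ _ _⟩
  exact (r1.cn.trans r2.cn.symm).trans (same_pair hP hT dn h2)

theorem Down.after_idx {T : κ → Finset α} {i j k l : κ} {a b e f : α}
    (h : Down r Hs ρ i0 T k l e f) (h1 : k ≠ i) (h2 : k ≠ j) (h3 : l ≠ i) (h4 : l ≠ j) :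
    Down r Hs ρ i0 (ex T i j a b) k l e f := by
  unfold Down
  rw [ex_other T a b h1 h2, ex_other T a b h3 h4]
  exact h

/-- two repairs that can be made one after the other -/
theorem both_down (hP : PW r Hs ρ) {k : ℕ} {T : κ → Finset α} (hT : Lev r Hs ρ i0 (k + 1) T)
    {i j i' j' : κ} {e f e' f' : α} (h1 : Down r Hs ρ i0 T i j e f)
    (h2 : Down r Hs ρ i0 T i' j' e' f') (h3 : Down r Hs ρ i0 (ex T i j e f) i' j' e' f')
    (h4 : App (ex T i' j' e' f') i j e f) :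
    Cn (Lev r Hs ρ i0 k) (ex T i j e f) (ex T i' j' e' f') := by
  have l1 := down_lev hP hT h1
  have lY := down_lev hP (l1.mono (Nat.le_succ k)) h3
  have r1 : Rl (Lev r Hs ρ i0 k) (ex T i j e f) (ex (ex T i j e f) i' j' e' f') :=
    ⟨l1, lY, i', j', e', f', h3.app, rfl⟩
  have r2 : Rl (Lev r Hs ρ i0 k) (ex T i' j' e' f') (ex (ex T i j e f) i' j' e' f') :=
    ⟨down_lev hP hT h2, lY, i, j, e, f, h4, ex_ex_comm _ _ _ _ _ _ _ _ _⟩
  exact r1.cn.trans r2.cn.symm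

theorem disj_down (hP : PW r Hs ρ) {k : ℕ} {T : κ → Finset α} (hT : Lev r Hs ρ i0 (k + 1) T)
    {i j i' j' : κ} {e f e' f' : α} (h1 : Down r Hs ρ i0 T i j e f)
    (h2 : Down r Hs ρ i0 T i' j' e' f') (hi : i ≠ i') (hj : j ≠ j') :
    Cn (Lev r Hs ρ i0 k) (ex T i j e f) (ex T i' j' e' f') := by
  have n1 : i ≠ j' := by
    rintro rfl
    have := h1.1
    have := h2.2.1
    omega
  have n2 : j ≠ i' := by
    rintro rfl
    have := h1.2.1
    have := h2.1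
    omega
  exact both_down hP hT h1 h2 (h2.after_idx hi.symm n2.symm n1.symm hj.symm)
    (h1.app.after_idx hi n1 n2 hj)

/-- any two repairs of one tuple are connected on the lower level -/
theorem S2 (hP : PW r Hs ρ) {k : ℕ} {T : κ → Finset α} (hT : Lev r Hs ρ i0 (k + 1) T)
    {i j i' j' : κ} {e f e' f' : α} (h1 : Down r Hs ρ i0 T i j e f)
    (h2 : Down r Hs ρ i0 T i' j' e' f') :
    Cn (Lev r Hs ρ i0 k) (ex T i j e f) (ex T i' j' e' f') := by
  by_cases ci : i = i'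
  · subst ci
    exact same_bad hP hT h1 h2
  by_cases cj : j = j'
  swap
  · exact disj_down hP hT h1 h2 ci cj
  subst cj
  rcases two_units hT h1.1 h1.2.1 with u | ⟨j'', n, u⟩
  · have a1 := h1.app
    obtain ⟨c1, c2⟩ := h1.cards
    obtain ⟨e2, f2, d1, d2, d3, d4, d5, d6, d7, d8, d9, d10⟩ :=
      double hP (hT.1 i').1.1 (hT.1 j).1 h2.1 h1.2.1 a1.2.2.2.1 a1.2.2.1 h1.2.2.2.2.2.2.2.2
        (by omega)
    have n2 : e2 ≠ f := by
      rintro rfl
      exact h1.f_notMem d2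
    have n3 : f2 ≠ e := by
      rintro rfl
      exact d6 h1.e_mem
    have dn : Down r Hs ρ i0 T i' j e2 f2 := ⟨h2.1, h1.2.1, d1, d2, d3, d5, d6, d7, d9⟩
    have hi' : ex T i j e f i' = T i' := ex_other T e f (Ne.symm ci) h2.ne
    have ap : App (ex T i j e f) i' j e2 f2 := dn.app.after_pts d4 n2 n3 d8
    have dn2 : Down r Hs ρ i0 (ex T i j e f) i' j e2 f2 := by
      refine ⟨by rw [hi']; exact h2.1, by rw [ex_right]; omega, ap.2.1, d2, ap.2.2.1, ap.2.2.2.1,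
        d6, ap.2.2.2.2, by rw [ex_right]; exact d10⟩
    exact (both_down hP hT h1 dn dn2 (a1.after_pts d4.symm n3.symm n2.symm d8.symm)).trans
      (same_pair hP hT dn h2)
  · obtain ⟨e2, f2, dn, _, _⟩ := exists_down hP hT h2.1 u e f
    exact (disj_down hP hT h1 dn ci n.symm).trans (same_bad hP hT dn h2)

/-- some repairs of `T` and `U` are connected on the lower level -/
def Lk (r : ℕ) (Hs : ι → Finset α) (ρ : ι → ℕ) (i0 : ι) (k : ℕ) (T U : κ → Finset α) : Prop :=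
  ∃ i j e f i' j' e' f', Down r Hs ρ i0 T i j e f ∧ Down r Hs ρ i0 U i' j' e' f' ∧
    Cn (Lev r Hs ρ i0 k) (ex T i j e f) (ex U i' j' e' f')

theorem square (hP : PW r Hs ρ) {k : ℕ} {T : κ → Finset α} (hT : Lev r Hs ρ i0 (k + 1) T)
    {i j b c : κ} {g h e f : α} (hU : Lev r Hs ρ i0 (k + 1) (ex T i j g h))
    (h1 : Down r Hs ρ i0 T b c e f) (h2 : Down r Hs ρ i0 (ex T i j g h) b c e f)
    (h3 : App (ex T b c e f) i j g h) : Lk r Hs ρ i0 k T (ex T i j g h) :=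
  ⟨b, c, e, f, b, c, e, f, h1, h2,
    Rl.cn ⟨down_lev hP hT h1, down_lev hP hU h2, i, j, g, h, h3, ex_ex_comm _ _ _ _ _ _ _ _ _⟩⟩

theorem via_double (hP : PW r Hs ρ) {k : ℕ} {T : κ → Finset α} (hT : Lev r Hs ρ i0 (k + 1) T)
    {i j b : κ} {g h : α} (ap : App T i j g h) (hU : Lev r Hs ρ i0 (k + 1) (ex T i j g h))
    (hb : ρ i0 < (T b ∩ Hs i0).card) (hb' : ρ i0 < (ex T i j g h b ∩ Hs i0).card)
    (hs : (T j ∩ Hs i0).card < ρ i0) (hs' : (tog (T j) h g ∩ Hs i0).card < ρ i0) :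
    Lk r Hs ρ i0 k T (ex T i j g h) := by
  have o' : O r Hs ρ i0 (tog (T j) h g) := by
    have := (hU.1 j).1
    rwa [ex_right] at this
  obtain ⟨e, f, d1, d2, d3, d4, d5, d6, d7, d8, d9, d10⟩ :=
    double hP (hT.1 b).1.1 (hT.1 j).1 hb hs ap.2.2.2.1 ap.2.2.1 o' hs'
  have n2 : e ≠ h := by
    rintro rfl
    exact d3 ap.2.2.2.1
  have n3 : f ≠ g := by
    rintro rfl
    exact ap.2.2.1 d5
  have dn : Down r Hs ρ i0 T b j e f := ⟨hb, hs, d1, d2, d3, d5, d6, d7, d9⟩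
  have ap2 : App (ex T i j g h) b j e f := dn.app.after_pts d4 n2 n3 d8
  have dn2 : Down r Hs ρ i0 (ex T i j g h) b j e f :=
    ⟨hb', by rw [ex_right]; exact hs', ap2.2.1, d2, ap2.2.2.1, ap2.2.2.2.1, d6, ap2.2.2.2.2,
      by rw [ex_right]; exact d10⟩
  exact square hP hT hU dn dn2 (ap.after_pts d4.symm n3.symm n2.symm d8.symm)

theorem case1 (hP : PW r Hs ρ) {k : ℕ} {T : κ → Finset α} (hT : Lev r Hs ρ i0 (k + 1) T)
    {i j b : κ} {g h : α} (ap : App T i j g h) (hU : Lev r Hs ρ i0 (k + 1) (ex T i j g h))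
    (hb : ρ i0 < (T b ∩ Hs i0).card) (hbi : b ≠ i) (hbj : b ≠ j) :
    Lk r Hs ρ i0 k T (ex T i j g h) := by
  by_cases c1 : ∃ c, c ≠ i ∧ c ≠ j ∧ (T c ∩ Hs i0).card < ρ i0
  · obtain ⟨c, c1, c2, c3⟩ := c1
    obtain ⟨e, f, dn, _, _⟩ := exists_down hP hT hb c3 g h
    exact square hP hT hU dn (dn.after_idx hbi hbj c1 c2)
      (ap.after_idx hbi.symm c1.symm hbj.symm c2.symm)
  push Not at c1
  have hb' : ρ i0 < (ex T i j g h b ∩ Hs i0).card := by
    rwa [ex_other T g h hbi hbj]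
  have p := pair_card ap (Hs i0)
  have k1 := card_tog_inter ap.2.1 ap.2.2.2.2 (Hs i0)
  have k2 := card_tog_inter ap.2.2.2.1 ap.2.2.1 (Hs i0)
  have alt : ((T j ∩ Hs i0).card < ρ i0 ∧ (tog (T j) h g ∩ Hs i0).card < ρ i0) ∨
      ((T i ∩ Hs i0).card < ρ i0 ∧ (tog (T i) g h ∩ Hs i0).card < ρ i0) := by
    obtain ⟨s, hs⟩ := exists_slack hT
    have loc : ∀ s, (T s ∩ Hs i0).card < ρ i0 → s = i ∨ s = j := by
      intro s hs
      by_contra hn
      rw [not_or] at hn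
      have := c1 s hn.1 hn.2
      omega
    rcases two_units hT hb hs with u | ⟨s', n, u⟩
    · rcases loc s hs with rfl | rfl
      · right
        split_ifs at k1 <;> omega
      · left
        split_ifs at k2 <;> omega
    · rcases loc s hs with rfl | rfl <;> rcases loc s' u with rfl | rfl
      · exact absurd rfl n
      · omega
      · omega
      · exact absurd rfl n
  rcases alt with a | a
  · exact via_double hP hT ap hU hb hb' a.1 a.2
  · rw [ex_swap] at hU hb' ⊢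
    exact via_double hP hT ap.swap hU hb hb' a.1 a.2

theorem case2 (hP : PW r Hs ρ) {k : ℕ} {T : κ → Finset α} (hT : Lev r Hs ρ i0 (k + 1) T)
    {i j : κ} {g h : α} (ap : App T i j g h) (hU : Lev r Hs ρ i0 (k + 1) (ex T i j g h))
    (hn : ¬ Lev r Hs ρ i0 k (ex T i j g h)) (hi : ρ i0 < (T i ∩ Hs i0).card) :
    Lk r Hs ρ i0 k T (ex T i j g h) := by
  have p := pair_card ap (Hs i0)
  have k1 := card_tog_inter ap.2.1 ap.2.2.2.2 (Hs i0)
  have k2 := card_tog_inter ap.2.2.2.1 ap.2.2.1 (Hs i0)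
  have u1 := (hU.1 i).2
  have u2 := (hU.1 j).2
  rw [ex_left] at u1
  rw [ex_right] at u2
  have t1 := (hT.1 i).2
  have t2 := (hT.1 j).2
  by_cases c : ρ i0 < (tog (T i) g h ∩ Hs i0).card
  · by_cases cs : (T j ∩ Hs i0).card < ρ i0
    · exact via_double hP hT ap hU hi (by rwa [ex_left]) cs (by omega)
    obtain ⟨s, hs⟩ := exists_slack hT
    have si : s ≠ i := by
      rintro rfl
      omega
    have sj : s ≠ j := by
      rintro rfl
      omega
    obtain ⟨e, f, dn, n1, n4⟩ := exists_down hP hT hi hs g h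
    have n2 : e ≠ h := by
      rintro rfl
      exact ap.2.2.2.2 dn.app.2.1
    have n3 : f ≠ g := by
      rintro rfl
      exact dn.app.2.2.2.2 ap.2.1
    have ap2 : App (ex T i j g h) i s e f := dn.app.after_pts n1 n2 n3 n4
    have es : ex T i j g h s = T s := ex_other T g h si sj
    have dn2 : Down r Hs ρ i0 (ex T i j g h) i s e f :=
      ⟨by rwa [ex_left], by rwa [es], ap2.2.1, dn.e_mem, ap2.2.2.1, ap2.2.2.2.1, dn.f_notMem,
        ap2.2.2.2.2, by rw [es]; exact dn.2.2.2.2.2.2.2.2⟩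
    exact square hP hT hU dn dn2 (ap.after_pts n1.symm n3.symm n2.symm n4.symm)
  · have hg : g ∈ Hs i0 := by
      by_contra a
      rw [if_neg a] at k1
      omega
    have hh : h ∉ Hs i0 := by
      intro a
      rw [if_pos a, if_pos hg] at k1
      omega
    rw [if_pos hg, if_neg hh] at k1 k2
    have nb := nbad_ex (Hs := Hs) (ρ := ρ) (i0 := i0) T ap.1 g h
    have nb1 : ¬ nbad Hs ρ i0 (ex T i j g h) ≤ k := fun a => hn ⟨hU.1, a, hU.2.2⟩
    have nb2 := hT.2.1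
    have tj : (T j ∩ Hs i0).card = ρ i0 := by
      rw [if_pos hi, if_neg c] at nb
      split_ifs at nb <;> omega
    obtain ⟨s, hs⟩ := exists_slack hT
    have si : s ≠ i := by
      rintro rfl
      omega
    have sj : s ≠ j := by
      rintro rfl
      omega
    obtain ⟨e, f, d1, d2, d3, d4, d5, d6, d7, d8⟩ := lemA hP (hT.1 j).1.1 (hT.1 s).1 tj hs
    have apz : App T j s e f := ⟨sj.symm, d1, d3, d4, d6⟩
    have q1 := card_tog_inter d1 d6 (Hs i0)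
    have q2 := card_tog_inter d4 d3 (Hs i0)
    rw [if_pos d2, if_neg d5] at q1 q2
    have lZ : Lev r Hs ρ i0 (k + 1) (ex T j s e f) := by
      refine lev_ex hT apz d7 d8 (by omega) (by omega) ?_
      have := nbad_ex (Hs := Hs) (ρ := ρ) (i0 := i0) T apz.1 e f
      rw [if_neg (by omega), if_neg (by omega), if_neg (by omega), if_neg (by omega)] at this
      omega
    obtain ⟨i1, j1, e1, f1, i2, j2, e2, f2, dT, dZ, cn⟩ := case1 hP hT apz lZ hi ap.1 si.symm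
    have n1 : e ≠ g := by
      rintro rfl
      exact ap.2.2.1 d1
    have n2 : e ≠ h := by
      rintro rfl
      exact hh d2
    have n3 : f ≠ g := by
      rintro rfl
      exact d5 hg
    have n4 : f ≠ h := by
      rintro rfl
      exact d6 ap.2.2.2.1
    have apU : App (ex T i j g h) j s e f := apz.after_pts n1 n2 n3 n4
    have es : ex T i j g h s = T s := ex_other T g h si sj
    have dU : Down r Hs ρ i0 (ex T i j g h) j s e f :=
      ⟨by rw [ex_right]; omega, by rwa [es], apU.2.1, d2, apU.2.2.1, apU.2.2.2.1, d5,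
        apU.2.2.2.2, by rw [es]; exact d8⟩
    have apZ : App (ex T j s e f) i j g h := ap.after_pts n1.symm n3.symm n2.symm n4.symm
    have ei : ex T j s e f i = T i := ex_other T e f ap.1 si.symm
    have q3 := card_tog_inter apZ.2.2.2.1 apZ.2.2.1 (Hs i0)
    rw [if_pos hg, if_neg hh, ex_left] at q3
    have dZ2 : Down r Hs ρ i0 (ex T j s e f) i j g h := by
      refine ⟨by rwa [ei], by rw [ex_left]; omega, apZ.2.1, hg, apZ.2.2.1, apZ.2.2.2.1, hh,
        apZ.2.2.2.2, O_of_ge hP ?_ (by rw [ex_left]; omega)⟩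
      rw [card_tog apZ.2.2.2.1 apZ.2.2.1]
      exact (lZ.1 j).1.1
    refine ⟨i1, j1, e1, f1, j, s, e, f, dT, dU, cn.trans ?_⟩
    rw [ex_ex_comm T i j j s g h e f]
    exact S2 hP lZ dZ dZ2

theorem S3 (hP : PW r Hs ρ) {k : ℕ} {T U : κ → Finset α} (hT : Lev r Hs ρ i0 (k + 1) T)
    (hU : Lev r Hs ρ i0 (k + 1) U) (hnT : ¬ Lev r Hs ρ i0 k T) (hnU : ¬ Lev r Hs ρ i0 k U)
    (hex : Ex T U) : Lk r Hs ρ i0 k T U := by
  obtain ⟨i, j, g, h, ap, rfl⟩ := hex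
  obtain ⟨b, hb⟩ := exists_bad hT hnT
  by_cases c1 : b = i
  · subst c1
    exact case2 hP hT ap hU hnU hb
  by_cases c2 : b = j
  · subst c2
    rw [ex_swap] at hU hnU ⊢
    exact case2 hP hT ap.swap hU hnU hb
  exact case1 hP hT ap hU hb c1 c2

/-- shadows on the lower level -/
def Sh (r : ℕ) (Hs : ι → Finset α) (ρ : ι → ℕ) (i0 : ι) (k : ℕ) (U V : κ → Finset α) : Prop :=
  (Lev r Hs ρ i0 k U ∧ V = U) ∨
    (¬ Lev r Hs ρ i0 k U ∧ ∃ i j e f, Down r Hs ρ i0 U i j e f ∧ V = ex U i j e f)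

theorem sh_conn (hP : PW r Hs ρ) {k : ℕ} {U V V' : κ → Finset α} (hU : Lev r Hs ρ i0 (k + 1) U)
    (h1 : Sh r Hs ρ i0 k U V) (h2 : Sh r Hs ρ i0 k U V') : Cn (Lev r Hs ρ i0 k) V V' := by
  rcases h1 with ⟨a, rfl⟩ | ⟨a, i, j, e, f, d, rfl⟩ <;>
    rcases h2 with ⟨b, rfl⟩ | ⟨b, i', j', e', f', d', rfl⟩
  · exact Cn.refl _
  · exact absurd a b
  · exact absurd b a
  · exact S2 hP hU d d'

theorem sh_step (hP : PW r Hs ρ) {k : ℕ} {U U' : κ → Finset α}
    (h : Rl (Lev r Hs ρ i0 (k + 1)) U U') :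
    ∃ V V', Sh r Hs ρ i0 k U V ∧ Sh r Hs ρ i0 k U' V' ∧ Cn (Lev r Hs ρ i0 k) V V' := by
  obtain ⟨hU, hU', hex⟩ := h
  by_cases c : Lev r Hs ρ i0 k U <;> by_cases c' : Lev r Hs ρ i0 k U'
  · exact ⟨U, U', Or.inl ⟨c, rfl⟩, Or.inl ⟨c', rfl⟩, Rl.cn ⟨c, c', hex⟩⟩
  · exact ⟨U, U, Or.inl ⟨c, rfl⟩, Or.inr ⟨c', down_of_ex hU' c' c hex.symm⟩, Cn.refl _⟩
  · exact ⟨U', U', Or.inr ⟨c, down_of_ex hU c c' hex⟩, Or.inl ⟨c', rfl⟩, Cn.refl _⟩
  · obtain ⟨i, j, e, f, i', j', e', f', d, d', cn⟩ := S3 hP hU hU' c c' hex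
    exact ⟨_, _, Or.inr ⟨c, i, j, e, f, d, rfl⟩, Or.inr ⟨c', i', j', e', f', d', rfl⟩, cn⟩

theorem descend (hP : PW r Hs ρ) {k : ℕ} {T T' : κ → Finset α} (hT : Lev r Hs ρ i0 k T)
    (hT' : Lev r Hs ρ i0 k T') (h : Cn (Lev r Hs ρ i0 (k + 1)) T T') :
    Cn (Lev r Hs ρ i0 k) T T' := by
  suffices H : ∀ U, Cn (Lev r Hs ρ i0 (k + 1)) T U → ∀ V, Sh r Hs ρ i0 k U V →
      Cn (Lev r Hs ρ i0 k) T V from H T' h T' (Or.inl ⟨hT', rfl⟩)
  intro U hU
  induction hU with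
  | refl =>
    intro V hV
    exact sh_conn hP (hT.mono (Nat.le_succ k)) (Or.inl ⟨hT, rfl⟩) hV
  | tail _ h2 ih =>
    intro V hV
    obtain ⟨W, W', s1, s2, cn⟩ := sh_step hP h2
    exact ((ih W s1).trans cn).trans (sh_conn hP h2.2.1 s2 hV)

theorem descend_zero (hP : PW r Hs ρ) {T T' : κ → Finset α} (hT : Lev r Hs ρ i0 0 T)
    (hT' : Lev r Hs ρ i0 0 T') (k : ℕ) (h : Cn (Lev r Hs ρ i0 k) T T') :
    Cn (Lev r Hs ρ i0 0) T T' := by
  induction k with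
  | zero => exact h
  | succ k ih =>
    exact ih (descend hP (hT.mono (Nat.zero_le k)) (hT'.mono (Nat.zero_le k)) h)

end Lev

/-- all rows satisfy all constraints -/
def AG (r : ℕ) (Hs : ι → Finset α) (ρ : ι → ℕ) (T : κ → Finset α) : Prop :=
  ∀ m, (T m).card = r ∧ ∀ k, (T m ∩ Hs k).card ≤ ρ k

theorem lev_zero {r : ℕ} {Hs : ι → Finset α} {ρ : ι → ℕ} {i0 : ι} {T : κ → Finset α}
    (h : Lev r Hs ρ i0 0 T) : AG r Hs ρ T := by
  intro m
  refine ⟨(h.1 m).1.1, fun k => ?_⟩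
  by_cases c : k = i0
  · subst c
    by_contra hn
    have h1 := h.2.1
    unfold nbad at h1
    have h2 := single_le_sum (f := fun m => if ρ k < (T m ∩ Hs k).card then 1 else 0)
      (fun _ _ => Nat.zero_le _) (mem_univ m)
    rw [if_pos (by omega)] at h2
    omega
  · exact (h.1 m).1.2 k c

theorem main [Fintype ι] (r : ℕ) (Hs : ι → Finset α) (N : ℕ) :
    ∀ ρ : ι → ℕ, ∑ k, (r - ρ k) = N → PW r Hs ρ → ∀ T T' : κ → Finset α, AG r Hs ρ T →
      AG r Hs ρ T' → (∀ x, col T x = col T' x) → Cn (AG r Hs ρ) T T' := by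
  classical
  induction N using Nat.strong_induction_on with
  | _ N ih =>
  intro ρ hN hP T T' hT hT' hcol
  by_cases c0 : ∀ k, r ≤ ρ k
  · refine (ryser ∅ (fun _ => 0) r univ T T' (fun m => ⟨by simp, (hT m).1⟩)
      (fun m => ⟨by simp, (hT' m).1⟩) hcol (fun m hm => absurd (mem_univ m) hm)).mono ?_
    intro V hV m
    refine ⟨(hV m).2, fun k => ?_⟩
    exact (card_le_card inter_subset_left).trans ((hV m).2.le.trans (c0 k))
  push Not at c0
  obtain ⟨i0, hi0⟩ := c0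
  have hsum : ∑ m, (T m ∩ Hs i0).card = ∑ m, (T' m ∩ Hs i0).card := by
    rw [sum_card_eq_col, sum_card_eq_col]
    exact sum_congr rfl fun x _ => hcol x
  by_cases c1 : ∑ m, (T m ∩ Hs i0).card < ∑ _m : κ, ρ i0
  · have lev0 : ∀ V : κ → Finset α, AG r Hs ρ V → ∑ m, (V m ∩ Hs i0).card < ∑ _m : κ, ρ i0 →
        Lev r Hs ρ i0 0 V := by
      intro V hV hs
      refine ⟨fun m => ⟨⟨(hV m).1, fun k _ => (hV m).2 k⟩, ((hV m).2 i0).trans (Nat.le_succ _)⟩,
        ?_, hs⟩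
      unfold nbad
      rw [sum_eq_zero fun m _ => if_neg (not_lt.2 ((hV m).2 i0))]
    have le1 : ∀ k, ρ k ≤ Function.update ρ i0 (ρ i0 + 1) k := by
      intro k
      by_cases c : k = i0
      · subst c
        simp
      · simp [c]
    have up : ∀ V : κ → Finset α, AG r Hs ρ V → AG r Hs (Function.update ρ i0 (ρ i0 + 1)) V :=
      fun V hV m => ⟨(hV m).1, fun k => ((hV m).2 k).trans (le1 k)⟩
    have h1 := ih _ (by
        rw [← hN]
        refine sum_lt_sum (fun k _ => Nat.sub_le_sub_left (le1 k) r) ⟨i0, mem_univ _, ?_⟩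
        simp only [Function.update_self]
        omega) (Function.update ρ i0 (ρ i0 + 1)) rfl
      (fun k l hkl => (hP k l hkl).trans (Nat.add_le_add (le1 k) (le1 l))) T T' (up T hT)
      (up T' hT') hcol
    have h2 := (h1.inv (Q' := fun V => ∑ m, (V m ∩ Hs i0).card < ∑ _m : κ, ρ i0)
      (fun V W hex hV => by rw [sum_card_ex hex]; exact hV) c1).1
    have h3 : Cn (Lev r Hs ρ i0 (∑ _m : κ, 1)) T T' := by
      refine h2.mono ?_
      rintro V ⟨hV, hs⟩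
      refine ⟨fun m => ⟨⟨(hV m).1, fun k hk => ?_⟩, ?_⟩, ?_, hs⟩
      · have := (hV m).2 k
        rwa [Function.update_of_ne hk] at this
      · have := (hV m).2 i0
        rwa [Function.update_self] at this
      · unfold nbad
        refine sum_le_sum fun m _ => ?_
        split_ifs <;> omega
    exact (descend_zero hP (lev0 T hT c1) (lev0 T' hT' (hsum ▸ c1)) _ h3).mono
      fun V hV => lev_zero hV
  · have tight : ∀ V : κ → Finset α, AG r Hs ρ V →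
        ¬ ∑ m, (V m ∩ Hs i0).card < ∑ _m : κ, ρ i0 → QF (Hs i0) (fun _ => ρ i0) r V := by
      intro V hV hs m
      refine ⟨?_, (hV m).1⟩
      by_contra hn
      exact hs (sum_lt_sum (fun m _ => (hV m).2 i0)
        ⟨m, mem_univ m, lt_of_le_of_ne ((hV m).2 i0) hn⟩)
    refine (ryser (Hs i0) (fun _ => ρ i0) r univ T T' (tight T hT c1) (tight T' hT' (hsum ▸ c1))
      hcol (fun m hm => absurd (mem_univ m) hm)).mono ?_
    intro V hV m
    refine ⟨(hV m).2, fun k => ?_⟩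
    by_cases c : k = i0
    · subst c
      exact (hV m).1.le
    · exact (O_of_ge hP (hV m).2 (hV m).1.ge).2 k c

end Pool.Agent.H57Z.White
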