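import Pool.Agent.H57Z.WhiteLev

set_option autoImplicit false
set_option linter.unusedSectionVars false

namespace Pool.Agent.H57Z.White

open Finset

variable {α : Type} [Fintype α] [DecidableEq α]

/-- stressed sets -/
def Str (M : Matroid α) (A : Set α) : Prop :=
  A ⊆ M.E ∧
    (∀ X Y : Set α, (M.restrict A).IsBase X → Y ⊆ (M.restrict A).E →
      Y.ncard = X.ncard → (M.restrict A).IsBase Y) ∧
    (∀ X Y : Set α, (M.contract A).IsBase X → Y ⊆ (M.contract A).E →
      Y.ncard = X.ncard → (M.contract A).IsBase Y)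

theorem basis_ncard {M : Matroid α} {A I J : Set α} (hI : M.IsBasis I A) (hJ : M.IsBasis J A) :
    I.ncard = J.ncard := by
  unfold Set.ncard
  rw [hI.encard_eq_encard hJ]

theorem indep_le {M : Matroid α} {A I J : Set α} (hI : M.IsBasis I A) (hJ : M.Indep J)
    (hJA : J ⊆ A) : J.ncard ≤ I.ncard := by
  obtain ⟨J', hJ', hs⟩ := hJ.subset_isBasis_of_subset hJA hI.subset_ground
  rw [← basis_ncard hJ' hI]
  exact Set.ncard_le_ncard hs (Set.toFinite _)

theorem str_base {M : Matroid α} {A I B0 X : Set α} (hA : Str M A) (hI : M.IsBasis I A)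
    (hB0 : M.IsBase B0) (hX : X ⊆ M.E) (h1 : X.ncard = B0.ncard) (h2 : (X ∩ A).ncard = I.ncard) :
    M.IsBase X := by
  have hI' : M.IsBasis (X ∩ A) A := by
    have := hA.2.1 I (X ∩ A) ((Matroid.isBase_restrict_iff hA.1).2 hI) Set.inter_subset_right h2
    exact (Matroid.isBase_restrict_iff hA.1).1 this
  obtain ⟨B, hB, hIB⟩ := hI'.indep.exists_isBase_superset
  have hBA : B ∩ A = X ∩ A := by
    refine (hI'.eq_of_subset_indep (hB.indep.subset Set.inter_subset_left)
      (Set.subset_inter hIB Set.inter_subset_right) Set.inter_subset_right).symm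
  have hBi : (M.contract A).Indep (B \ A) := by
    rw [hI'.contract_indep_iff]
    refine ⟨hB.indep.subset (Set.union_subset Set.diff_subset hIB), Set.disjoint_sdiff_right⟩
  obtain ⟨J, hJ, hJs⟩ := hBi.exists_isBase_superset
  have hJi := hJ.indep
  rw [hI'.contract_indep_iff] at hJi
  have hBJ : B = J ∪ X ∩ A := by
    refine hB.eq_of_subset_indep hJi.1 fun x hx => ?_
    by_cases c : x ∈ A
    · right
      rw [← hBA]
      exact ⟨hx, c⟩
    · left
      exact hJs ⟨hx, c⟩
  have c1 : B.ncard = J.ncard + (X ∩ A).ncard := by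
    rw [hBJ]
    exact Set.ncard_union_eq (hJi.2.symm.mono_right Set.inter_subset_right)
  have c2 : (X ∩ A).ncard + (X \ A).ncard = X.ncard := Set.ncard_inter_add_ncard_diff_eq_ncard X A
  have c3 := hB.ncard_eq_ncard_of_isBase hB0
  have hXA : (M.contract A).IsBase (X \ A) := by
    refine hA.2.2 J (X \ A) hJ ?_ (by omega)
    rw [Matroid.contract_ground]
    exact Set.diff_subset_diff_left hX
  have hXi := hXA.indep
  rw [hI'.contract_indep_iff, Set.diff_union_inter] at hXi
  obtain ⟨B1, hB1, hs⟩ := hXi.1.exists_isBase_superset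
  have c4 := hB1.ncard_eq_ncard_of_isBase hB0
  have : X = B1 := Set.eq_of_subset_of_ncard_le hs (by omega) (Set.toFinite _)
  rw [this]
  exact hB1

theorem alt {E A A' : Finset α} {r ρ ρ' : ℕ} (hA : A ⊆ E) (hA' : A' ⊆ E) (h1 : ρ < A.card)
    (h2 : ρ < r) (h3 : ρ' < A'.card) (h4 : ρ' < r) (h5 : r ≤ ρ + (E \ A).card)
    (h : ∀ X : Finset α, X ⊆ E → X.card = r → (X ∩ A).card = ρ → (X ∩ A').card ≤ ρ') :
    (A ∩ A').card + r ≤ ρ + ρ' ∨ ρ + (A' \ A).card ≤ ρ' := by
  have e1 : ∃ X1, X1 ⊆ A ∧ X1.card = ρ ∧ (A ∩ A' ⊆ X1 ∨ X1 ⊆ A ∩ A') := by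
    by_cases c : (A ∩ A').card ≤ ρ
    · obtain ⟨X, a, b, d⟩ := exists_subsuperset_card_eq (inter_subset_left (s₁ := A) (s₂ := A'))
        c h1.le
      exact ⟨X, b, d, Or.inl a⟩
    · obtain ⟨X, a, b⟩ := exists_subset_card_eq (s := A ∩ A') (n := ρ) (by omega)
      exact ⟨X, a.trans inter_subset_left, b, Or.inr a⟩
  have e2 : ∃ X2, X2 ⊆ E \ A ∧ X2.card = r - ρ ∧ (A' \ A ⊆ X2 ∨ X2 ⊆ A' \ A) := by
    have hs : A' \ A ⊆ E \ A := sdiff_subset_sdiff hA' (Subset.refl _)
    by_cases c : (A' \ A).card ≤ r - ρ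
    · obtain ⟨X, a, b, d⟩ := exists_subsuperset_card_eq hs c (by omega)
      exact ⟨X, b, d, Or.inl a⟩
    · obtain ⟨X, a, b⟩ := exists_subset_card_eq (s := A' \ A) (n := r - ρ) (by omega)
      exact ⟨X, a.trans hs, b, Or.inr a⟩
  obtain ⟨X1, a1, a2, a3⟩ := e1
  obtain ⟨X2, b1, b2, b3⟩ := e2
  have dj : Disjoint X1 X2 := by
    rw [disjoint_left]
    intro x hx hx2
    exact (mem_sdiff.1 (b1 hx2)).2 (a1 hx)
  have k1 : (X1 ∪ X2) ∩ A = X1 := by
    ext x
    simp only [mem_inter, mem_union]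
    constructor
    · rintro ⟨a | a, b⟩
      · exact a
      · exact absurd b (mem_sdiff.1 (b1 a)).2
    · intro a
      exact ⟨Or.inl a, a1 a⟩
  have k2 := h (X1 ∪ X2) (union_subset (a1.trans hA) (b1.trans sdiff_subset))
    (by rw [card_union_of_disjoint dj]; omega) (by rw [k1, a2])
  rw [union_inter_distrib_right,
    card_union_of_disjoint (dj.mono inter_subset_left inter_subset_left)] at k2
  have k3 := card_sdiff_add_card_inter A' A
  rw [inter_comm] at k3
  have p1 : A ∩ A' ⊆ X1 → (A ∩ A').card ≤ (X1 ∩ A').card := fun a =>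
    card_le_card (subset_inter a inter_subset_right)
  have p2 : X1 ⊆ A ∩ A' → X1.card ≤ (X1 ∩ A').card := fun a =>
    card_le_card (subset_inter (Subset.refl _) (a.trans inter_subset_right))
  have p3 : A' \ A ⊆ X2 → (A' \ A).card ≤ (X2 ∩ A').card := fun a =>
    card_le_card (subset_inter a sdiff_subset)
  have p4 : X2 ⊆ A' \ A → X2.card ≤ (X2 ∩ A').card := fun a =>
    card_le_card (subset_inter (Subset.refl _) (a.trans sdiff_subset))
  rcases a3 with a | a <;> rcases b3 with b | b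
  · have := p1 a
    have := p3 b
    omega
  · have := p1 a
    have := p4 b
    omega
  · have := p2 a
    have := p3 b
    omega
  · have := p2 a
    have := p4 b
    omega

/-- the non-trivial stressed sets -/
def Fam (M : Matroid α) (r : ℕ) : Type :=
  {A : Finset α // Str M ↑A ∧ ∃ I : Set α, M.IsBasis I ↑A ∧ I.ncard < A.card ∧ I.ncard < r}

/-- rank of a member of the family -/
noncomputable def rk {M : Matroid α} {r : ℕ} (k : Fam M r) : ℕ := (Classical.choose k.2.2).ncard

theorem base_le {M : Matroid α} {r : ℕ} (k : Fam M r) {X : Finset α} (hX : M.IsBase ↑X) :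
    (X ∩ k.1).card ≤ rk k := by
  have h := indep_le (Classical.choose_spec k.2.2).1
    (hX.indep.subset (Set.inter_subset_left (t := ↑k.1))) Set.inter_subset_right
  rw [← coe_inter, Set.ncard_coe_finset] at h
  exact h

theorem fam_pw {M : Matroid α} {B0 : Finset α} (hB0 : M.IsBase ↑B0) :
    PW B0.card (fun k : Fam M B0.card => k.1) rk := by
  classical
  have one : ∀ k l : Fam M B0.card, (k.1 ∩ l.1).card + B0.card ≤ rk k + rk l ∨
      rk k + (l.1 \ k.1).card ≤ rk l := by
    intro k l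
    have sk := Classical.choose_spec k.2.2
    have sl := Classical.choose_spec l.2.2
    have hE : ∀ X : Finset α, X ⊆ M.E.toFinset ↔ (↑X : Set α) ⊆ M.E := by
      intro X
      rw [← Finset.coe_subset, Set.coe_toFinset]
    refine alt (E := M.E.toFinset) ((hE _).2 k.2.1.1) ((hE _).2 l.2.1.1) sk.2.1 sk.2.2 sl.2.1
      sl.2.2 ?_ ?_
    · have h1 := base_le k hB0
      have h2 := card_sdiff_add_card_inter B0 k.1
      have h3 : (B0 \ k.1).card ≤ (M.E.toFinset \ k.1).card :=
        card_le_card (sdiff_subset_sdiff ((hE _).2 hB0.subset_ground) (Subset.refl _))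
      omega
    · intro X h1 h2 h3
      refine base_le l (str_base k.2.1 sk.1 hB0 ((hE _).1 h1) ?_ ?_)
      · rw [Set.ncard_coe_finset, Set.ncard_coe_finset, h2]
      · rw [← coe_inter, Set.ncard_coe_finset]
        exact h3
  intro k l hkl
  rcases one k l with h | h
  · exact h
  rcases one l k with h' | h'
  · rw [inter_comm] at h'
    show (k.1 ∩ l.1).card + B0.card ≤ rk k + rk l
    omega
  exfalso
  apply hkl
  apply Subtype.ext
  have a1 : l.1 \ k.1 = ∅ := card_eq_zero.1 (by omega)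
  have a2 : k.1 \ l.1 = ∅ := card_eq_zero.1 (by omega)
  exact Subset.antisymm (sdiff_eq_empty_iff_subset.1 a2) (sdiff_eq_empty_iff_subset.1 a1)

theorem base_of {M : Matroid α}
    (hM : ∀ (B0 S : Set α), M.IsBase B0 → S ⊆ M.E → S.ncard = B0.ncard →
      (M.IsBase S ∨ ∃ (A I : Set α), Str M A ∧ M.IsBasis I A ∧ I.ncard < (S ∩ A).ncard))
    {B0 X : Finset α} (hB0 : M.IsBase ↑B0) (hX : (↑X : Set α) ⊆ M.E) (h1 : X.card = B0.card)
    (h2 : ∀ k : Fam M B0.card, (X ∩ k.1).card ≤ rk k) : M.IsBase ↑X := by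
  classical
  rcases hM ↑B0 ↑X hB0 hX (by rw [Set.ncard_coe_finset, Set.ncard_coe_finset, h1]) with
    h | ⟨A, I, hA, hI, hlt⟩
  · exact h
  exfalso
  have eA : (↑A.toFinset : Set α) = A := Set.coe_toFinset A
  rw [← eA] at hA hI hlt
  rw [← coe_inter, Set.ncard_coe_finset] at hlt
  have l1 : (X ∩ A.toFinset).card ≤ A.toFinset.card := card_le_card inter_subset_right
  have l2 : (X ∩ A.toFinset).card ≤ X.card := card_le_card inter_subset_left
  let k : Fam M B0.card := ⟨A.toFinset, hA, I, hI, by omega, by omega⟩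
  have h3 := h2 k
  have h4 : rk k = I.ncard := basis_ncard (Classical.choose_spec k.2.2).1 hI
  have h5 : (X ∩ k.1).card = (X ∩ A.toFinset).card := rfl
  omega

theorem ex_eq_update {κ : Type} [DecidableEq κ] [Fintype κ] {T : κ → Finset α} {i j : κ} {a b : α}
    (h : App T i j a b) :
    ex T i j a b = Function.update (Function.update T i (insert b ((T i).erase a))) j
      (insert a ((T j).erase b)) := by
  funext m
  by_cases c2 : m = j
  · subst c2
    rw [ex_right, Function.update_self, tog_eq h.2.2.2.1 h.2.2.1]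
  rw [Function.update_of_ne c2]
  by_cases c1 : m = i
  · subst c1
    rw [ex_left, Function.update_self, tog_eq h.2.1 h.2.2.2.2]
  rw [Function.update_of_ne c1, ex_other T a b c1 c2]

theorem col_eq_count {n : ℕ} (T : Fin n → Finset α) (x : α) :
    col T x = Multiset.count x (Finset.univ.sum fun i => (T i).val) := by
  unfold col
  rw [Multiset.count_sum']
  refine sum_congr rfl fun m _ => ?_
  rw [Multiset.count_eq_of_nodup (T m).nodup]
  rfl

theorem white {M : Matroid α}
    (hM : ∀ (B0 S : Set α), M.IsBase B0 → S ⊆ M.E → S.ncard = B0.ncard →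
      (M.IsBase S ∨ ∃ (A I : Set α), Str M A ∧ M.IsBasis I A ∧ I.ncard < (S ∩ A).ncard))
    (n : ℕ) (B B' : Fin n → Finset α) (hB : ∀ i, M.IsBase (↑(B i) : Set α))
    (hB' : ∀ i, M.IsBase (↑(B' i) : Set α))
    (hs : (Finset.univ.sum (fun i => (B i).val)) = (Finset.univ.sum (fun i => (B' i).val))) :
    Cn (fun V => ∀ m, M.IsBase (↑(V m) : Set α)) B B' := by
  classical
  obtain ⟨B1, hB1⟩ := M.exists_isBase
  have hB0 : M.IsBase ↑B1.toFinset := by rwa [Set.coe_toFinset]
  haveI : Fintype (Fam M B1.toFinset.card) := by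
    unfold Fam
    infer_instance
  have ag : ∀ V : Fin n → Finset α, (∀ m, M.IsBase (↑(V m) : Set α)) →
      AG B1.toFinset.card (fun k : Fam M B1.toFinset.card => k.1) rk V := by
    intro V hV m
    refine ⟨?_, fun k => base_le k (hV m)⟩
    have := (hV m).ncard_eq_ncard_of_isBase hB0
    rwa [Set.ncard_coe_finset, Set.ncard_coe_finset] at this
  have h1 := main B1.toFinset.card (fun k : Fam M B1.toFinset.card => k.1) _ rk rfl (fam_pw hB0)
    B B' (ag B hB) (ag B' hB') (fun x => by rw [col_eq_count, col_eq_count, hs])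
  have h2 := (h1.inv (Q' := fun V => ∀ m, (↑(V m) : Set α) ⊆ M.E) ?_
    (fun m => (hB m).subset_ground)).1
  · refine h2.mono ?_
    rintro V ⟨a, b⟩ m
    exact base_of hM hB0 (b m) (a m).1 (a m).2
  · rintro V W ⟨i, j, a, b, ap, rfl⟩ hV m x hx
    have hx' : x ∈ ex V i j a b m := hx
    by_cases c1 : x = a
    · exact hV i (c1 ▸ ap.2.1)
    by_cases c2 : x = b
    · exact hV j (c2 ▸ ap.2.2.2.1)
    rw [mem_ex_of_ne _ _ _ _ c1 c2] at hx'
    exact hV m hx'

end Pool.Agent.H57Z.White
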