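import Pool.Agent.H57Z.WhiteComb

set_option autoImplicit false
set_option linter.unusedSectionVars false

namespace Pool.Agent.H57Z.White

open Finset

variable {α ι κ : Type} [DecidableEq α] [DecidableEq κ] [Fintype κ]

/-- exchange of `a` and `b` between rows `i` and `j` -/
def ex (T : κ → Finset α) (i j : κ) (a b : α) : κ → Finset α :=
  fun m => if m = i ∨ m = j then tog (T m) a b else T m

/-- the exchange is applicable -/
def App (T : κ → Finset α) (i j : κ) (a b : α) : Prop :=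
  i ≠ j ∧ a ∈ T i ∧ a ∉ T j ∧ b ∈ T j ∧ b ∉ T i

/-- one exchange step -/
def Ex (T U : κ → Finset α) : Prop := ∃ i j a b, App T i j a b ∧ U = ex T i j a b

/-- one exchange step inside the class `Q` -/
def Rl (Q : (κ → Finset α) → Prop) (T U : κ → Finset α) : Prop := Q T ∧ Q U ∧ Ex T U

/-- connected inside the class `Q` -/
def Cn (Q : (κ → Finset α) → Prop) (T U : κ → Finset α) : Prop := Relation.ReflTransGen (Rl Q) T U

theorem ex_left (T : κ → Finset α) (i j : κ) (a b : α) : ex T i j a b i = tog (T i) a b := by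
  simp [ex]

theorem ex_right (T : κ → Finset α) (i j : κ) (a b : α) : ex T i j a b j = tog (T j) b a := by
  simp [ex, tog_comm]

theorem ex_other (T : κ → Finset α) {i j m : κ} (a b : α) (h1 : m ≠ i) (h2 : m ≠ j) :
    ex T i j a b m = T m := by
  simp [ex, h1, h2]

theorem ex_swap (T : κ → Finset α) (i j : κ) (a b : α) : ex T i j a b = ex T j i b a := by
  funext m
  simp only [ex, or_comm, tog_comm (T m) a b]

theorem App.swap {T : κ → Finset α} {i j : κ} {a b : α} (h : App T i j a b) : App T j i b a :=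
  ⟨h.1.symm, h.2.2.2.1, h.2.2.2.2, h.2.1, h.2.2.1⟩

theorem ex_ex_comm (T : κ → Finset α) (i j k l : κ) (a b c d : α) :
    ex (ex T i j a b) k l c d = ex (ex T k l c d) i j a b := by
  funext m
  simp only [ex]
  split_ifs
  · exact tog_tog_comm _ _ _ _ _
  · rfl
  · rfl
  · rfl

theorem ex_ex_self (T : κ → Finset α) (i j : κ) (a b : α) : ex (ex T i j a b) i j a b = T := by
  funext m
  simp only [ex]
  split_ifs
  · exact tog_tog_self _ _ _
  · rfl

theorem ex_ex_share (T : κ → Finset α) (i j : κ) {a b c : α} (hab : a ≠ b) (hbc : b ≠ c)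
    (hac : a ≠ c) : ex (ex T i j a b) i j b c = ex T i j a c := by
  funext m
  simp only [ex]
  split_ifs
  · exact tog_tog_share _ hab hbc hac
  · rfl

theorem mem_ex_of_ne (T : κ → Finset α) (i j m : κ) {a b x : α} (h1 : x ≠ a) (h2 : x ≠ b) :
    x ∈ ex T i j a b m ↔ x ∈ T m := by
  simp only [ex]
  split_ifs
  · simp [mem_tog, h1, h2]
  · rfl

theorem App.ne {T : κ → Finset α} {i j : κ} {a b : α} (h : App T i j a b) : a ≠ b := by
  rintro rfl
  exact h.2.2.2.2 h.2.1

theorem App.back {T : κ → Finset α} {i j : κ} {a b : α} (h : App T i j a b) :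
    App (ex T i j a b) i j b a := by
  obtain ⟨h1, h2, h3, h4, h5⟩ := h
  refine ⟨h1, ?_, ?_, ?_, ?_⟩
  · rw [ex_left, mem_tog]; exact Or.inr ⟨h5, Or.inr rfl⟩
  · rw [ex_right, mem_tog]; simp [h4]
  · rw [ex_right, mem_tog]; exact Or.inr ⟨h3, Or.inr rfl⟩
  · rw [ex_left, mem_tog]; simp [h2]

theorem ex_comm_pts (T : κ → Finset α) (i j : κ) (a b : α) : ex T i j a b = ex T i j b a := by
  funext m
  simp only [ex, tog_comm (T m) a b]

theorem Ex.symm {T U : κ → Finset α} (h : Ex T U) : Ex U T := by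
  obtain ⟨i, j, a, b, h, rfl⟩ := h
  exact ⟨i, j, b, a, h.back, by rw [ex_comm_pts _ i j b a, ex_ex_self]⟩

theorem Rl.symm {Q : (κ → Finset α) → Prop} {T U : κ → Finset α} (h : Rl Q T U) : Rl Q U T :=
  ⟨h.2.1, h.1, h.2.2.symm⟩

theorem Cn.symm {Q : (κ → Finset α) → Prop} {T U : κ → Finset α} (h : Cn Q T U) : Cn Q U T := by
  induction h with
  | refl => exact Relation.ReflTransGen.refl
  | tail _ h2 ih => exact Relation.ReflTransGen.head h2.symm ih

theorem Cn.trans {Q : (κ → Finset α) → Prop} {T U V : κ → Finset α} (h : Cn Q T U)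
    (h' : Cn Q U V) : Cn Q T V := Relation.ReflTransGen.trans h h'

theorem Cn.refl {Q : (κ → Finset α) → Prop} (T : κ → Finset α) : Cn Q T T :=
  Relation.ReflTransGen.refl

theorem Rl.cn {Q : (κ → Finset α) → Prop} {T U : κ → Finset α} (h : Rl Q T U) : Cn Q T U :=
  Relation.ReflTransGen.single h

theorem Cn.mono {Q Q' : (κ → Finset α) → Prop} (hQ : ∀ T, Q T → Q' T) {T U : κ → Finset α}
    (h : Cn Q T U) : Cn Q' T U := by
  induction h with
  | refl => exact Cn.refl _
  | tail _ h2 ih => exact Relation.ReflTransGen.tail ih ⟨hQ _ h2.1, hQ _ h2.2.1, h2.2.2⟩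

/-- strengthening the class by an invariant -/
theorem Cn.inv {Q Q' : (κ → Finset α) → Prop} (hQ : ∀ T U, Ex T U → Q' T → Q' U)
    {T U : κ → Finset α} (h : Cn Q T U) (h0 : Q' T) :
    Cn (fun V => Q V ∧ Q' V) T U ∧ Q' U := by
  induction h with
  | refl => exact ⟨Cn.refl _, h0⟩
  | tail _ h2 ih =>
    have := hQ _ _ h2.2.2 ih.2
    exact ⟨Relation.ReflTransGen.tail ih.1 ⟨⟨h2.1, ih.2⟩, ⟨h2.2.1, this⟩, h2.2.2⟩, this⟩

theorem App.after_pts {T : κ → Finset α} {i j k l : κ} {a b c d : α} (h : App T k l c d)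
    (h1 : c ≠ a) (h2 : c ≠ b) (h3 : d ≠ a) (h4 : d ≠ b) : App (ex T i j a b) k l c d := by
  obtain ⟨g1, g2, g3, g4, g5⟩ := h
  refine ⟨g1, ?_, ?_, ?_, ?_⟩
  · rwa [mem_ex_of_ne _ _ _ _ h1 h2]
  · rwa [mem_ex_of_ne _ _ _ _ h1 h2]
  · rwa [mem_ex_of_ne _ _ _ _ h3 h4]
  · rwa [mem_ex_of_ne _ _ _ _ h3 h4]

theorem App.after_idx {T : κ → Finset α} {i j k l : κ} {a b c d : α} (h : App T k l c d)
    (h1 : k ≠ i) (h2 : k ≠ j) (h3 : l ≠ i) (h4 : l ≠ j) : App (ex T i j a b) k l c d := by
  unfold App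
  rw [ex_other T a b h1 h2, ex_other T a b h3 h4]
  exact h

theorem sum_ex (g : Finset α → ℕ) (T : κ → Finset α) {i j : κ} (hij : i ≠ j) (a b : α) :
    ∑ m, g (ex T i j a b m) + g (T i) + g (T j) =
      ∑ m, g (T m) + g (tog (T i) a b) + g (tog (T j) b a) := by
  have hj : j ∈ (univ : Finset κ).erase i := by simp [hij.symm]
  rw [← add_sum_erase _ _ (mem_univ i), ← add_sum_erase _ _ hj,
    ← add_sum_erase _ (fun m => g (T m)) (mem_univ i), ← add_sum_erase _ (fun m => g (T m)) hj]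
  have : ∑ m ∈ (univ.erase i).erase j, g (ex T i j a b m) =
      ∑ m ∈ (univ.erase i).erase j, g (T m) := by
    refine sum_congr rfl fun m hm => ?_
    simp only [mem_erase] at hm
    rw [ex_other T a b hm.2.1 hm.1]
  rw [this, ex_left, ex_right]
  omega

theorem pair_card {T : κ → Finset α} {i j : κ} {a b : α} (h : App T i j a b) (K : Finset α) :
    (tog (T i) a b ∩ K).card + (tog (T j) b a ∩ K).card = (T i ∩ K).card + (T j ∩ K).card := by
  have h1 := card_tog_inter h.2.1 h.2.2.2.2 K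
  have h2 := card_tog_inter h.2.2.2.1 h.2.2.1 K
  omega

theorem sum_card_ex {T U : κ → Finset α} (h : Ex T U) (K : Finset α) :
    ∑ m, (U m ∩ K).card = ∑ m, (T m ∩ K).card := by
  obtain ⟨i, j, a, b, h, rfl⟩ := h
  have h1 := sum_ex (fun X => (X ∩ K).card) T h.1 a b
  have h2 := pair_card h K
  omega

/-- column sums -/
def col (T : κ → Finset α) (x : α) : ℕ := ∑ m, if x ∈ T m then 1 else 0

theorem col_ex {T U : κ → Finset α} (h : Ex T U) (x : α) : col U x = col T x := by
  have h1 := sum_card_ex h {x}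
  unfold col
  have e : ∀ X : Finset α, (X ∩ {x}).card = if x ∈ X then 1 else 0 := by
    intro X
    by_cases hx : x ∈ X
    · rw [inter_singleton_of_mem hx, if_pos hx, card_singleton]
    · rw [inter_singleton_of_notMem hx, if_neg hx, card_empty]
  simpa only [e] using h1

theorem sum_card_eq_col (T : κ → Finset α) (K : Finset α) :
    ∑ m, (T m ∩ K).card = ∑ x ∈ K, col T x := by
  unfold col
  rw [sum_comm]
  refine sum_congr rfl fun m _ => ?_
  rw [← card_filter, filter_mem_eq_inter, inter_comm]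

/-- class of tuples with prescribed row sums on `P` and in total -/
def QF (P : Finset α) (c : κ → ℕ) (r : ℕ) (V : κ → Finset α) : Prop :=
  ∀ m, (V m ∩ P).card = c m ∧ (V m).card = r

theorem QF_ex {P : Finset α} {c : κ → ℕ} {r : ℕ} {T : κ → Finset α} (hT : QF P c r T)
    {i j : κ} {a b : α} (h : App T i j a b) (hab : a ∈ P ↔ b ∈ P) : QF P c r (ex T i j a b) := by
  intro m
  by_cases h1 : m = i
  · subst h1
    rw [ex_left, card_tog h.2.1 h.2.2.2.2]
    have := card_tog_inter h.2.1 h.2.2.2.2 P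
    have := hT m
    simp only [hab] at *
    omega
  by_cases h2 : m = j
  · subst h2
    rw [ex_right, card_tog h.2.2.2.1 h.2.2.1]
    have := card_tog_inter h.2.2.2.1 h.2.2.1 P
    have := hT m
    simp only [hab] at *
    omega
  rw [ex_other T a b h1 h2]
  exact hT m

theorem exists_pair {P X Y : Finset α} (h1 : (X ∩ P).card = (Y ∩ P).card) (h2 : X.card = Y.card)
    (hne : X ≠ Y) : ∃ e f, e ∈ Y ∧ e ∉ X ∧ f ∈ X ∧ f ∉ Y ∧ (e ∈ P ↔ f ∈ P) := by
  have aux : ∀ A B : Finset α, A.card = B.card → A ≠ B →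
      ∃ e f, e ∈ B ∧ e ∉ A ∧ f ∈ A ∧ f ∉ B := by
    intro A B hc hn
    have n1 : ¬ B ⊆ A := fun h => hn (eq_of_subset_of_card_le h hc.le).symm
    have n2 : ¬ A ⊆ B := fun h => hn (eq_of_subset_of_card_le h hc.ge)
    obtain ⟨e, he1, he2⟩ := not_subset.1 n1
    obtain ⟨f, hf1, hf2⟩ := not_subset.1 n2
    exact ⟨e, f, he1, he2, hf1, hf2⟩
  by_cases c : X ∩ P = Y ∩ P
  · have c2 : X \ P ≠ Y \ P := by
      intro c2
      apply hne
      rw [← sdiff_union_inter X P, ← sdiff_union_inter Y P, c, c2]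
    have a1 := card_sdiff_add_card_inter X P
    have a2 := card_sdiff_add_card_inter Y P
    obtain ⟨e, f, b1, b2, b3, b4⟩ := aux (X \ P) (Y \ P) (by omega) c2
    simp only [mem_sdiff, not_and, not_not] at b1 b2 b3 b4
    exact ⟨e, f, b1.1, fun h => b1.2 (b2 h), b3.1, fun h => b3.2 (b4 h), by simp [b1.2, b3.2]⟩
  · obtain ⟨e, f, b1, b2, b3, b4⟩ := aux (X ∩ P) (Y ∩ P) h1 c
    simp only [mem_inter, not_and] at b1 b2 b3 b4
    exact ⟨e, f, b1.1, fun h => b2 h b1.2, b3.1, fun h => b4 h b3.2, by simp [b1.2, b3.2]⟩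

theorem exists_row {T U : κ → Finset α} (hcol : ∀ x, col T x = col U x) (s : Finset κ) (t : κ)
    (hs : ∀ m, m ∉ s → m ≠ t → T m = U m) {e f : α} (he : e ∈ U t) (he' : e ∉ T t)
    (hf : f ∈ T t) (hf' : f ∉ U t) :
    ∃ m ∈ s, m ≠ t ∧ ((e ∈ T m ∧ f ∉ T m) ∨ (f ∈ U m ∧ e ∉ U m)) := by
  by_contra hn
  push Not at hn
  have h1 := hcol e
  have h2 := hcol f
  unfold col at h1 h2
  have h3 : ∑ m, ((if e ∈ T m then 1 else 0) + (if f ∈ U m then 1 else 0) : ℕ) <
      ∑ m, ((if e ∈ U m then 1 else 0) + (if f ∈ T m then 1 else 0) : ℕ) := by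
    refine sum_lt_sum (fun m _ => ?_) ⟨t, mem_univ t, by simp [he, he', hf, hf']⟩
    by_cases c : m = t
    · subst c
      simp [he, he', hf, hf']
    by_cases c2 : m ∈ s
    · obtain ⟨a1, a2⟩ := hn m c2 c
      by_cases b1 : e ∈ T m <;> by_cases b2 : f ∈ U m
      · simp [b1, b2, a1 b1, a2 b2]
      · simp [b1, b2, a1 b1]
      · simp [b1, b2, a2 b2]
      · simp [b1, b2]
    · rw [hs m c2 c]
  rw [sum_add_distrib, sum_add_distrib] at h3
  omega

/-- interchange theorem for zero-one matrices, with a column class `P` respected -/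
theorem ryser (P : Finset α) (c : κ → ℕ) (r : ℕ) (s : Finset κ) :
    ∀ T U : κ → Finset α, QF P c r T → QF P c r U → (∀ x, col T x = col U x) →
      (∀ m, m ∉ s → T m = U m) → Cn (QF P c r) T U := by
  induction s using Finset.induction_on with
  | empty =>
    intro T U _ _ _ h
    have : T = U := funext fun m => h m (by simp)
    subst this
    exact Cn.refl _
  | insert t s hts ih =>
    suffices H : ∀ d : ℕ, ∀ T U : κ → Finset α, (T t \ U t).card = d → QF P c r T → QF P c r U →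
        (∀ x, col T x = col U x) → (∀ m, m ∉ insert t s → T m = U m) → Cn (QF P c r) T U from
      fun T U => H _ T U rfl
    intro d
    induction d using Nat.strong_induction_on with
    | _ d ihd =>
    intro T U hd hT hU hcol hs
    by_cases c0 : T t = U t
    · refine ih T U hT hU hcol fun m hm => ?_
      by_cases c1 : m = t
      · exact c1 ▸ c0
      · exact hs m (by simp [hm, c1])
    obtain ⟨e, f, b1, b2, b3, b4, b5⟩ := exists_pair (P := P) (X := T t) (Y := U t)
      ((hT t).1.trans (hU t).1.symm) ((hT t).2.trans (hU t).2.symm) c0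
    obtain ⟨m, hm, hmt, hh | hh⟩ := exists_row hcol s t
      (fun m h1 h2 => hs m (by simp [h1, h2])) b1 b2 b3 b4
    · have happ : App T t m f e := ⟨hmt.symm, b3, hh.2, hh.1, b2⟩
      have hex : Ex T (ex T t m f e) := ⟨_, _, _, _, happ, rfl⟩
      have hq := QF_ex hT happ b5.symm
      refine Cn.trans (Rl.cn ⟨hT, hq, hex⟩) (ihd _ ?_ _ U rfl hq hU ?_ ?_)
      · rw [← hd, ex_left]
        refine card_lt_card ⟨fun x hx => ?_, fun h => ?_⟩
        · simp only [mem_sdiff, mem_tog] at hx ⊢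
          rcases hx with ⟨⟨a, _⟩ | ⟨a, a' | a'⟩, b⟩
          · exact ⟨a, b⟩
          · exact absurd (a' ▸ b3) a
          · exact absurd (a' ▸ b1) b
        · have := h (mem_sdiff.2 ⟨b3, b4⟩)
          simp [mem_tog, b3] at this
      · intro x
        rw [col_ex hex, hcol]
      · intro m' hm'
        simp only [mem_insert, not_or] at hm'
        rw [ex_other T f e hm'.1 (fun h => hm'.2 (h ▸ hm))]
        exact hs m' (by simp [hm'.1, hm'.2])
    · have happ : App U t m e f := ⟨hmt.symm, b1, hh.2, hh.1, b4⟩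
      have hex : Ex U (ex U t m e f) := ⟨_, _, _, _, happ, rfl⟩
      have hq := QF_ex hU happ b5
      refine Cn.trans (ihd _ ?_ T _ rfl hT hq ?_ ?_) (Rl.cn ⟨hq, hU, hex.symm⟩)
      · rw [← hd, ex_left]
        refine card_lt_card ⟨fun x hx => ?_, fun h => ?_⟩
        · simp only [mem_sdiff, mem_tog] at hx ⊢
          refine ⟨hx.1, fun h => hx.2 (Or.inl ⟨h, ?_, ?_⟩)⟩
          · rintro rfl
            exact b2 hx.1
          · rintro rfl
            exact b4 h
        · have := h (mem_sdiff.2 ⟨b3, b4⟩)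
          simp [mem_tog, b4] at this
      · intro x
        rw [col_ex hex, hcol]
      · intro m' hm'
        simp only [mem_insert, not_or] at hm'
        rw [ex_other U e f hm'.1 (fun h => hm'.2 (h ▸ hm))]
        exact hs m' (by simp [hm'.1, hm'.2])

end Pool.Agent.H57Z.White
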